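import Mathlib

set_option autoImplicit false
open MeasureTheory Metric Set Filter Topology Real
open scoped ENNReal Pointwise

namespace Pool.Agent.Helper633.SubMean

/-- sub-mean value property of `|g|^p` -/
theorem circle_submean (g : ℂ → ℂ) (c : ℂ) (R p : ℝ) (hR : 0 < R) (hp : 0 < p)
    (hg : AnalyticOnNhd ℂ g (closedBall c R)) :
    ‖g c‖ ^ p ≤ Real.circleAverage (fun z => ‖g z‖ ^ p) c R := by
  have hcont : ContinuousOn (fun z => ‖g z‖ ^ p) (sphere c |R|) := by
    rw [abs_of_pos hR]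
    exact ((hg.continuousOn.mono sphere_subset_closedBall).norm).rpow_const
      (fun x _ => Or.inr hp.le)
  have hint : CircleIntegrable (fun z => ‖g z‖ ^ p) c R :=
    ContinuousOn.circleIntegrable' hcont
  rcases eq_or_ne (g c) 0 with h0 | h0
  · rw [h0, norm_zero, Real.zero_rpow hp.ne']
    rw [Real.circleAverage_def]
    refine smul_nonneg (by positivity) ?_
    refine intervalIntegral.integral_nonneg (by positivity) fun θ _ => ?_
    positivity
  · have hg' : AnalyticOnNhd ℂ g (closedBall c |R|) := by rwa [abs_of_pos hR]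
    have hJ := AnalyticOnNhd.circleAverage_log_norm hR.ne' hg' h0
    set L := Real.circleAverage (Real.log ‖g ·‖) c R with hL
    have hLge : Real.log ‖g c‖ ≤ L := by
      rw [hJ]
      have : 0 ≤ ∑ᶠ u, (MeromorphicOn.divisor g (closedBall c |R|) u : ℝ) * Real.log (R * ‖c - u‖⁻¹) := by
        refine finsum_nonneg fun u => ?_
        by_cases hu : u ∈ closedBall c |R|
        · refine mul_nonneg ?_ ?_
          · exact_mod_cast (MeromorphicOn.AnalyticOnNhd.divisor_nonneg hg') u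
          · rcases eq_or_ne u c with rfl | huc
            · simp
            · apply Real.log_nonneg
              have h1 : 0 < ‖c - u‖ := norm_pos_iff.mpr (sub_ne_zero.mpr huc.symm)
              rw [← div_eq_mul_inv, one_le_div h1]
              rw [abs_of_pos hR, mem_closedBall, dist_eq_norm, norm_sub_rev] at hu
              exact hu
        · have : (MeromorphicOn.divisor g (closedBall c |R|)) u = 0 :=
            Function.locallyFinsuppWithin.apply_eq_zero_of_notMem _ hu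
          simp [this]
      linarith
    have hlogint : CircleIntegrable (Real.log ‖g ·‖) c R :=
      (hg'.mono sphere_subset_closedBall).meromorphicOn.circleIntegrable_log_norm
    -- zeros on the circle
    have hfin : (closedBall c R \ g ⁻¹' {0}ᶜ).Finite := by
      apply (isCompact_closedBall c R).finite_sdiff_of_mem_codiscreteWithin
      apply AnalyticOnNhd.preimage_zero_mem_codiscreteWithin hg h0 (mem_closedBall_self hR.le)
      exact ⟨⟨c, mem_closedBall_self hR.le⟩, (convex_closedBall c R).isPreconnected⟩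
    have hnull : volume {θ : ℝ | g (circleMap c R θ) = 0} = 0 := by
      have h1 : {θ : ℝ | g (circleMap c R θ) = 0} ⊆ circleMap c R ⁻¹' (closedBall c R \ g ⁻¹' {0}ᶜ) := by
        intro θ hθ
        simp only [mem_preimage, Set.mem_sdiff, mem_compl_iff, mem_singleton_iff, not_not]
        exact ⟨sphere_subset_closedBall (circleMap_mem_sphere c hR.le θ), hθ⟩
      exact measure_mono_null h1 ((hfin.countable.preimage_circleMap c hR.ne').measure_zero _)
    have hae : ∀ᵐ θ : ℝ ∂volume, g (circleMap c R θ) ≠ 0 := by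
      rw [ae_iff]
      simpa using hnull
    have key : Real.exp (p * L) ≤ Real.circleAverage (fun z => ‖g z‖ ^ p) c R := by
      have h1 : Real.circleAverage (fun z => Real.exp (p * L) * (1 - p * L) +
          (Real.exp (p * L) * p) * Real.log ‖g z‖) c R ≤ Real.circleAverage (fun z => ‖g z‖ ^ p) c R := by
        rw [Real.circleAverage_def, Real.circleAverage_def]
        refine smul_le_smul_of_nonneg_left ?_ (by positivity)
        apply intervalIntegral.integral_mono_ae (by positivity)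
        · have : CircleIntegrable (fun z => Real.exp (p * L) * (1 - p * L) +
            (Real.exp (p * L) * p) * Real.log ‖g z‖) c R := by
            refine CircleIntegrable.add (circleIntegrable_const _ _ _) ?_
            exact (hlogint.const_mul (Real.exp (p * L) * p))
          exact this
        · exact hint
        · filter_upwards [hae] with θ hθ
          have hpos : 0 < ‖g (circleMap c R θ)‖ := norm_pos_iff.mpr hθ
          rw [Real.rpow_def_of_pos hpos]
          set x := Real.log ‖g (circleMap c R θ)‖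
          have h2 : Real.exp (x * p) = Real.exp (p * L) * Real.exp (x * p - p * L) := by
            rw [← Real.exp_add]
            ring_nf
          rw [h2]
          have h3 := Real.add_one_le_exp (x * p - p * L)
          have h4 := Real.exp_pos (p * L)
          nlinarith
      have h2 : Real.circleAverage (fun z => Real.exp (p * L) * (1 - p * L) +
          (Real.exp (p * L) * p) * Real.log ‖g z‖) c R = Real.exp (p * L) := by
        have e1 : (fun z => Real.exp (p * L) * (1 - p * L) + (Real.exp (p * L) * p) * Real.log ‖g z‖)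
          = (fun _ : ℂ => Real.exp (p * L) * (1 - p * L)) + ((Real.exp (p * L) * p) • (fun z => Real.log ‖g z‖)) := by
          funext z
          simp
        rw [e1, Real.circleAverage_add (circleIntegrable_const _ _ _) (by exact hlogint.const_smul),
          Real.circleAverage_const, Real.circleAverage_smul]
        rw [← hL]
        simp only [smul_eq_mul]
        ring
      rw [h2] at h1
      exact h1
    refine le_trans ?_ key
    rw [Real.rpow_def_of_pos (norm_pos_iff.mpr h0)]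
    apply Real.exp_le_exp.mpr
    nlinarith

/-- lower integral form -/
theorem circle_submean' (g : ℂ → ℂ) (c : ℂ) (R p : ℝ) (hR : 0 < R) (hp : 0 < p)
    (hg : AnalyticOnNhd ℂ g (closedBall c R)) :
    ENNReal.ofReal (‖g c‖ ^ p) * ENNReal.ofReal (2 * π) ≤
      ∫⁻ θ in Ioc (0 : ℝ) (2 * π), ENNReal.ofReal (‖g (circleMap c R θ)‖ ^ p) := by
  have h := circle_submean g c R p hR hp hg
  rw [Real.circleAverage_def] at h
  have hcont : Continuous fun θ : ℝ => ‖g (circleMap c R θ)‖ ^ p := by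
    have h1 : ContinuousOn g (closedBall c R) := hg.continuousOn
    have h2 : Continuous fun θ : ℝ => g (circleMap c R θ) := by
      refine h1.comp_continuous (continuous_circleMap c R) fun θ => ?_
      exact sphere_subset_closedBall (circleMap_mem_sphere c hR.le θ)
    exact h2.norm.rpow_const (fun x => Or.inr hp.le)
  have hint : Integrable (fun θ : ℝ => ‖g (circleMap c R θ)‖ ^ p) (volume.restrict (Ioc (0 : ℝ) (2 * π))) :=
    (hcont.integrableOn_Icc).mono_set Ioc_subset_Icc_self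
  rw [← ofReal_integral_eq_lintegral_ofReal hint (Eventually.of_forall fun θ => by positivity),
    ← ENNReal.ofReal_mul (by positivity)]
  apply ENNReal.ofReal_le_ofReal
  rw [intervalIntegral.integral_of_le (by positivity)] at h
  rw [smul_eq_mul] at h
  have h2 : (0 : ℝ) < 2 * π := by positivity
  calc ‖g c‖ ^ p * (2 * π) ≤ ((2 * π)⁻¹ * ∫ θ in Ioc (0 : ℝ) (2 * π), ‖g (circleMap c R θ)‖ ^ p) * (2 * π) := by
        gcongr
    _ = _ := by field_simp

/-- rotation averaging -/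
theorem rot {X : Type*} [MeasurableSpace X] (μ : Measure X) [SFinite μ] (T : ℝ → X → X)
    (hT : Measurable (fun p : ℝ × X => T p.1 p.2)) (hmp : ∀ θ, MeasurePreserving (T θ) μ μ)
    (Ω : Set X) (hΩ : MeasurableSet Ω) (hinv : ∀ θ, T θ ⁻¹' Ω = Ω) (h : X → ℝ≥0∞)
    (hh : Measurable h) (k : X → ℝ≥0∞)
    (hk : ∀ x ∈ Ω, k x * ENNReal.ofReal (2 * π) ≤ ∫⁻ θ in Ioc (0 : ℝ) (2 * π), h (T θ x)) :
    ∫⁻ x in Ω, k x ∂μ ≤ ∫⁻ x in Ω, h x ∂μ := by
  have h2π : ENNReal.ofReal (2 * π) ≠ 0 := by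
    rw [Ne, ENNReal.ofReal_eq_zero, not_le]
    positivity
  have h1 : ∀ θ, ∫⁻ x in Ω, h (T θ x) ∂μ = ∫⁻ x in Ω, h x ∂μ := by
    intro θ
    have := (hmp θ).setLIntegral_comp_preimage hΩ hh
    rw [hinv θ] at this
    exact this
  have h2 : ∫⁻ θ in Ioc (0 : ℝ) (2 * π), (∫⁻ x in Ω, h (T θ x) ∂μ) =
      (∫⁻ x in Ω, h x ∂μ) * ENNReal.ofReal (2 * π) := by
    simp_rw [h1]
    rw [lintegral_const]
    simp
  have h3 : ∫⁻ θ in Ioc (0 : ℝ) (2 * π), (∫⁻ x in Ω, h (T θ x) ∂μ) =
      ∫⁻ x in Ω, (∫⁻ θ in Ioc (0 : ℝ) (2 * π), h (T θ x)) ∂μ := by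
    rw [lintegral_lintegral_swap]
    exact (hh.comp hT).aemeasurable
  have h4 : (∫⁻ x in Ω, k x ∂μ) * ENNReal.ofReal (2 * π) ≤
      (∫⁻ x in Ω, h x ∂μ) * ENNReal.ofReal (2 * π) := by
    rw [← h2, h3, ← lintegral_mul_const' _ _ ENNReal.ofReal_ne_top]
    exact setLIntegral_mono' hΩ hk
  exact (ENNReal.mul_le_mul_iff_left h2π ENNReal.ofReal_ne_top).mp h4

/-- squared euclidean norm on `ℂ^k` -/
noncomputable def q {k : ℕ} (x : Fin k → ℂ) : ℝ := ∑ i, ‖x i‖ ^ 2

theorem q_cont {k : ℕ} : Continuous (q : (Fin k → ℂ) → ℝ) := by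
  unfold q
  fun_prop

theorem q_smul {k : ℕ} (c : ℂ) (x : Fin k → ℂ) : q (c • x) = ‖c‖ ^ 2 * q x := by
  unfold q
  rw [Finset.mul_sum]
  refine Finset.sum_congr rfl fun i _ => ?_
  simp [mul_pow]

theorem q_nonneg {k : ℕ} (x : Fin k → ℂ) : 0 ≤ q x := Finset.sum_nonneg fun _ _ => by positivity

theorem q_cons {k : ℕ} (a : ℂ) (x : Fin k → ℂ) : q (Fin.cons a x : Fin (k + 1) → ℂ) = ‖a‖ ^ 2 + q x := by
  unfold q
  rw [Fin.sum_univ_succ]
  simp

/-- volume of the euclidean ball of `ℂ^k` -/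
theorem vol_q {k : ℕ} (t : ℝ) (ht : 0 < t) :
    (volume : Measure (Fin k → ℂ)) {x | q x < t} = ENNReal.ofReal (t ^ k) * volume {x : Fin k → ℂ | q x < 1} := by
  have hs : {x : Fin k → ℂ | q x < t} = (√t : ℝ) • {x : Fin k → ℂ | q x < 1} := by
    ext x
    rw [mem_smul_set_iff_inv_smul_mem₀ (by positivity)]
    simp only [mem_ofPred_eq]
    have : (√t)⁻¹ • x = ((√t : ℂ))⁻¹ • x := by
      ext i
      simp
    rw [this, q_smul]
    simp only [norm_inv, Complex.norm_real, Real.norm_eq_abs, abs_of_nonneg (Real.sqrt_nonneg t), inv_pow,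
      Real.sq_sqrt ht.le]
    rw [inv_mul_lt_iff₀ ht, mul_one]
  rw [hs, Measure.addHaar_smul]
  congr 2
  have hfr : Module.finrank ℝ (Fin k → ℂ) = 2 * k := by
    rw [Module.finrank_pi_fintype]
    simp [mul_comm]
  rw [hfr, pow_mul, Real.sq_sqrt ht.le, abs_of_nonneg (by positivity)]

theorem vol_q_pos {k : ℕ} : 0 < (volume : Measure (Fin k → ℂ)) {x : Fin k → ℂ | q x < 1} := by
  exact (isOpen_lt q_cont continuous_const).measure_pos volume ⟨0, by simp [q]⟩

theorem vol_q_fin {k : ℕ} : (volume : Measure (Fin k → ℂ)) {x : Fin k → ℂ | q x < 1} < ⊤ := by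
  have : {x : Fin k → ℂ | q x < 1} ⊆ closedBall 0 1 := by
    intro x hx
    rw [mem_closedBall, dist_zero_right, pi_norm_le_iff_of_nonneg zero_le_one]
    intro i
    have h1 : ‖x i‖ ^ 2 ≤ q x :=
      Finset.single_le_sum (f := fun i => ‖x i‖ ^ 2) (fun _ _ => by positivity) (Finset.mem_univ i)
    have h2 : ‖x i‖ ^ 2 ≤ 1 := h1.trans (le_of_lt hx)
    nlinarith [norm_nonneg (x i)]
  exact (measure_mono this).trans_lt measure_closedBall_lt_top

/-- volume of the euclidean shell -/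
theorem vol_shell {k : ℕ} (A ε : ℝ) (hA : 0 < A) (hε : 0 < ε) :
    ENNReal.ofReal (ε * A ^ k) * (volume {x : Fin (k + 1) → ℂ | q x < 1}) ≤
      (volume : Measure (Fin (k + 1) → ℂ)) {x | A ≤ q x ∧ q x < A + ε} := by
  set V := (volume {x : Fin (k + 1) → ℂ | q x < 1}) with hV
  have hVf : V ≠ ⊤ := vol_q_fin.ne
  have hs : {x : Fin (k + 1) → ℂ | A ≤ q x ∧ q x < A + ε} = {x | q x < A + ε} \ {x | q x < A} := by
    ext x
    simp only [Set.mem_sdiff, mem_ofPred_eq, not_lt]
    tauto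
  have hsub : {x : Fin (k + 1) → ℂ | q x < A} ⊆ {x | q x < A + ε} :=
    fun x hx => lt_trans (show q x < A from hx) (by linarith)
  rw [hs, measure_sdiff hsub
    (isOpen_lt q_cont continuous_const).measurableSet.nullMeasurableSet
    (by rw [vol_q A hA]; exact ENNReal.mul_ne_top ENNReal.ofReal_ne_top hVf),
    vol_q A hA, vol_q (A + ε) (by linarith), ← hV, ← ENNReal.sub_mul (fun _ _ => hVf),
    ← ENNReal.ofReal_sub _ (by positivity)]
  gcongr
  have h1 : A ^ k ≤ (A + ε) ^ k := by gcongr; linarith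
  have h2 : 0 ≤ A ^ k := by positivity
  have h3 : (A + ε) ^ (k + 1) = (A + ε) ^ k * A + (A + ε) ^ k * ε := by ring
  have h4 : A ^ (k + 1) = A ^ k * A := by ring
  rw [h3, h4]
  nlinarith


/-- multiplication of the last coordinates by a unit number -/
noncomputable def T {k : ℕ} (θ : ℝ) (x : Fin (k + 1) → ℂ) : Fin (k + 1) → ℂ :=
  Fin.cons (x 0) (fun i => Complex.exp (θ * Complex.I) * x i.succ)

theorem norm_exp_I (θ : ℝ) : ‖Complex.exp (θ * Complex.I)‖ = 1 := Complex.norm_exp_ofReal_mul_I θ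

theorem T_zero {k : ℕ} (θ : ℝ) (x : Fin (k + 1) → ℂ) : T θ x 0 = x 0 := by simp [T]

theorem T_q {k : ℕ} (θ : ℝ) (x : Fin (k + 1) → ℂ) : q (T θ x) = q x := by
  unfold q T
  rw [Fin.sum_univ_succ, Fin.sum_univ_succ]
  simp [norm_exp_I]

theorem mp_mul (c : ℂ) (hc : ‖c‖ = 1) : MeasurePreserving (fun z : ℂ => c * z) volume volume := by
  have h := (rotation (⟨c, mem_sphere_zero_iff_norm.mpr hc⟩ : Circle)).measurePreserving
  exact h

theorem T_mp {k : ℕ} (θ : ℝ) : MeasurePreserving (T θ : (Fin (k + 1) → ℂ) → _) volume volume := by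
  have h := volume_preserving_pi (f := fun i : Fin (k + 1) =>
    (fun z : ℂ => (Fin.cons 1 (fun _ => Complex.exp (θ * Complex.I)) : Fin (k + 1) → ℂ) i * z)) (fun i => by
      apply mp_mul
      refine Fin.cases ?_ (fun j => ?_) i
      · simp
      · simp [norm_exp_I])
  have e : (T θ : (Fin (k + 1) → ℂ) → _) = (fun a i => (Fin.cons 1 (fun _ => Complex.exp (θ * Complex.I)) :
      Fin (k + 1) → ℂ) i * a i) := by
    funext x i
    refine Fin.cases ?_ (fun j => ?_) i
    · simp [T]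
    · simp [T]
  rw [e]
  exact h

theorem T_meas {k : ℕ} : Measurable (fun p : ℝ × (Fin (k + 1) → ℂ) => T p.1 p.2) := by
  apply Continuous.measurable
  apply continuous_pi
  intro i
  refine Fin.cases ?_ (fun j => ?_) i
  · simp only [T, Fin.cons_zero]
    fun_prop
  · simp only [T, Fin.cons_succ]
    fun_prop

theorem area (K : ℂ → ℝ≥0∞) (hK : Measurable K) (r : ℂ) (δ : ℝ)
    (h : ∀ a ∈ ball r δ, K r * ENNReal.ofReal (2 * π) ≤
      ∫⁻ θ in Ioc (0 : ℝ) (2 * π), K (r + Complex.exp (θ * Complex.I) * (a - r))) (hδ : 0 ≤ δ) :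
    K r * ENNReal.ofReal (π * δ ^ 2) ≤ ∫⁻ a in ball r δ, K a := by
  have h1 := rot (X := ℂ) volume (fun θ a => r + Complex.exp (θ * Complex.I) * (a - r))
    (by apply Continuous.measurable; fun_prop)
    (fun θ => by
      have h2 := mp_mul _ (norm_exp_I θ)
      have h3 := (measurePreserving_add_left (volume : Measure ℂ) r).comp
        (h2.comp (measurePreserving_sub_right (volume : Measure ℂ) r))
      exact h3)
    (ball r δ) measurableSet_ball
    (fun θ => by
      ext a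
      simp only [mem_preimage, mem_ball, dist_eq_norm, add_sub_cancel_left, norm_mul, norm_exp_I, one_mul])
    K hK (fun _ => K r) h
  rw [setLIntegral_const] at h1
  refine le_trans (le_of_eq ?_) h1
  rw [Complex.volume_ball, mul_comm π, ENNReal.ofReal_mul (by positivity), ← ENNReal.ofReal_pow hδ]
  congr 2
  rw [ENNReal.ofReal, Real.toNNReal_of_nonneg Real.pi_pos.le]
  rfl

theorem shell_lower (k : ℕ) (F : (Fin (k + 1 + 1) → ℂ) → ℂ) (hFm : Measurable F) (R : ℝ) (hR : 1 < R)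
    (hF : DifferentiableOn ℂ F {x | q x < R ^ 2}) (p : ℝ) (hp : 0 < p) (r : ℝ) (hr0 : 0 ≤ r)
    (hr1 : r < 1) (ε : ℝ) (hε : 0 < ε) (hε' : ε < (1 - r ^ 2) / 8) :
    (volume {x : Fin (k + 1) → ℂ | q x < 1}) * ENNReal.ofReal (ε * ((1 - r ^ 2) / 4) ^ k) *
      (ENNReal.ofReal (‖F (Fin.cons (r : ℂ) 0)‖ ^ p) * ENNReal.ofReal (π * ((1 - r ^ 2) / 8) ^ 2)) ≤
    ∫⁻ x in {x : Fin (k + 1 + 1) → ℂ | 1 - ε ≤ q x ∧ q x < 1 ∧ ‖x 0 - r‖ < (1 - r ^ 2) / 8},
      ENNReal.ofReal (‖F x‖ ^ p) := by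
  set s := 1 - r ^ 2 with hs
  have hs0 : 0 < s := by nlinarith
  have hs1 : s ≤ 1 := by nlinarith [sq_nonneg r]
  set Ω : Set (Fin (k + 1 + 1) → ℂ) := {x | 1 - ε ≤ q x ∧ q x < 1 ∧ ‖x 0 - r‖ < s / 8} with hΩ
  have hΩm : MeasurableSet Ω := by
    apply MeasurableSet.inter
    · exact (isClosed_le continuous_const q_cont).measurableSet
    · apply MeasurableSet.inter
      · exact (isOpen_lt q_cont continuous_const).measurableSet
      · exact (isOpen_lt ((continuous_apply 0).sub continuous_const).norm continuous_const).measurableSet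
  set h : (Fin (k + 1 + 1) → ℂ) → ℝ≥0∞ := fun x => ENNReal.ofReal (‖F x‖ ^ p) with hh
  have hhm : Measurable h := (hFm.norm.pow_const p).ennreal_ofReal
  set K : ℂ → ℝ≥0∞ := fun a => ENNReal.ofReal (‖F (Fin.cons a 0)‖ ^ p) with hKdef
  have hcons : Continuous (fun a : ℂ => (Fin.cons a 0 : Fin (k + 1 + 1) → ℂ)) := by
    apply continuous_pi
    intro i
    refine Fin.cases ?_ (fun j => ?_) i
    · simpa using continuous_id'
    · simpa using continuous_const
  have hKm : Measurable K := hhm.comp hcons.measurable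
  have hopen : IsOpen {x : Fin (k + 1 + 1) → ℂ | q x < R ^ 2} := isOpen_lt q_cont continuous_const
  have hconsd : Differentiable ℂ (fun a : ℂ => (Fin.cons a 0 : Fin (k + 1 + 1) → ℂ)) := by
    rw [differentiable_pi]
    intro i
    refine Fin.cases ?_ (fun j => ?_) i
    · simp
    · simp
  -- step 1
  have step1 : ∫⁻ x in Ω, K (x 0) ≤ ∫⁻ x in Ω, h x := by
    refine rot volume T T_meas T_mp Ω hΩm (fun θ => ?_) h hhm (fun x => K (x 0)) ?_
    · ext x
      simp only [hΩ, mem_preimage, mem_ofPred_eq, T_q, T_zero]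
    · intro x hx
      have hline : Differentiable ℂ (fun μ : ℂ => (Fin.cons (x 0) (μ • Fin.tail x) : Fin (k + 1 + 1) → ℂ)) := by
        rw [differentiable_pi]
        intro i
        refine Fin.cases ?_ (fun j => ?_) i
        · simp
        · simp only [Fin.cons_succ, Pi.smul_apply, smul_eq_mul]
          fun_prop
      have hqx : ‖x 0‖ ^ 2 + q (Fin.tail x) = q x := by
        rw [← q_cons, Fin.cons_self_tail]
      have hU : IsOpen {μ : ℂ | q (Fin.cons (x 0) (μ • Fin.tail x) : Fin (k + 1 + 1) → ℂ) < R ^ 2} :=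
        hopen.preimage hline.continuous
      have hg : AnalyticOnNhd ℂ (fun μ : ℂ => F (Fin.cons (x 0) (μ • Fin.tail x))) (closedBall 0 1) := by
        have h1 : DifferentiableOn ℂ (fun μ : ℂ => F (Fin.cons (x 0) (μ • Fin.tail x)))
            {μ : ℂ | q (Fin.cons (x 0) (μ • Fin.tail x) : Fin (k + 1 + 1) → ℂ) < R ^ 2} :=
          hF.comp hline.differentiableOn (fun μ hμ => hμ)
        refine (h1.analyticOnNhd hU).mono fun μ hμ => ?_
        simp only [mem_ofPred_eq, q_cons, q_smul]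
        have h2 : ‖μ‖ ≤ 1 := by simpa using hμ
        have h3 : ‖μ‖ ^ 2 ≤ 1 := by nlinarith [norm_nonneg μ]
        have h4 := q_nonneg (Fin.tail x)
        have h5 : q x < 1 := hx.2.1
        nlinarith
      have h6 := circle_submean' _ 0 1 p one_pos hp hg
      simp only [zero_smul] at h6
      refine le_trans h6 (le_of_eq ?_)
      refine lintegral_congr fun θ => ?_
      simp only [hh]
      congr 4
      unfold T
      congr 1
      funext i
      simp [circleMap, Fin.tail]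
  refine le_trans ?_ step1
  -- step 2
  have step2 : ∫⁻ x in Ω, K (x 0) = ∫⁻ a in ball (r : ℂ) (s / 8), K a *
      volume {y : Fin (k + 1) → ℂ | 1 - ε - ‖a‖ ^ 2 ≤ q y ∧ q y < 1 - ‖a‖ ^ 2} := by
    have hmp := (volume_preserving_piFinSuccAbove (fun _ : Fin (k + 1 + 1) => ℂ) 0).symm
    rw [← lintegral_indicator hΩm]
    rw [← hmp.lintegral_comp_emb (MeasurableEquiv.measurableEmbedding _)]
    have hm2 : Measurable (fun z : ℂ × (Fin (k + 1) → ℂ) => Ω.indicator (fun x => K (x 0))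
        ((MeasurableEquiv.piFinSuccAbove (fun _ : Fin (k + 1 + 1) => ℂ) 0).symm z)) := by
      refine (Measurable.indicator ?_ hΩm).comp (MeasurableEquiv.measurable _)
      exact hKm.comp (measurable_pi_apply 0)
    rw [Measure.volume_eq_prod, lintegral_prod _ hm2.aemeasurable, ← lintegral_indicator measurableSet_ball]
    refine lintegral_congr fun a => ?_
    have hsymm : ∀ y : Fin (k + 1) → ℂ, (MeasurableEquiv.piFinSuccAbove (fun _ : Fin (k + 1 + 1) => ℂ) 0).symm (a, y)
        = (Fin.cons a y : Fin (k + 1 + 1) → ℂ) := by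
      intro y
      simp [MeasurableEquiv.piFinSuccAbove, Fin.insertNthEquiv]
    simp_rw [hsymm]
    set S : Set (Fin (k + 1) → ℂ) := {y | 1 - ε - ‖a‖ ^ 2 ≤ q y ∧ q y < 1 - ‖a‖ ^ 2} with hS
    have hset : ∀ y : Fin (k + 1) → ℂ, Ω.indicator (fun x => K (x 0)) (Fin.cons a y : Fin (k + 1 + 1) → ℂ) =
        S.indicator (fun _ => (ball (r : ℂ) (s / 8)).indicator K a) y := by
      intro y
      have hiff : (Fin.cons a y : Fin (k + 1 + 1) → ℂ) ∈ Ω ↔ y ∈ S ∧ a ∈ ball (r : ℂ) (s / 8) := by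
        simp only [hΩ, hS, mem_ofPred_eq, q_cons, Fin.cons_zero, mem_ball, dist_eq_norm]
        constructor
        · rintro ⟨h1, h2, h3⟩
          exact ⟨⟨by linarith, by linarith⟩, h3⟩
        · rintro ⟨⟨h1, h2⟩, h3⟩
          exact ⟨by linarith, by linarith, h3⟩
      by_cases ha : a ∈ ball (r : ℂ) (s / 8)
      · by_cases hy : y ∈ S
        · rw [indicator_of_mem (hiff.mpr ⟨hy, ha⟩), indicator_of_mem hy, indicator_of_mem ha]
          simp
        · rw [indicator_of_notMem (fun hh => hy (hiff.mp hh).1), indicator_of_notMem hy]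
      · rw [indicator_of_notMem (fun hh => ha (hiff.mp hh).2)]
        by_cases hy : y ∈ S
        · rw [indicator_of_mem hy, indicator_of_notMem ha]
        · rw [indicator_of_notMem hy]
    simp_rw [hset]
    have hmy : MeasurableSet S :=
      ((isClosed_le continuous_const q_cont).measurableSet).inter
        ((isOpen_lt q_cont continuous_const).measurableSet)
    rw [lintegral_indicator hmy, setLIntegral_const]
    by_cases ha : a ∈ ball (r : ℂ) (s / 8)
    · rw [indicator_of_mem ha, indicator_of_mem ha]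
    · rw [indicator_of_notMem ha, indicator_of_notMem ha, zero_mul]
  rw [step2]
  -- step 3
  have step3 : ∫⁻ a in ball (r : ℂ) (s / 8), K a * (volume {x : Fin (k + 1) → ℂ | q x < 1} *
      ENNReal.ofReal (ε * (s / 4) ^ k)) ≤ ∫⁻ a in ball (r : ℂ) (s / 8), K a *
      volume {y : Fin (k + 1) → ℂ | 1 - ε - ‖a‖ ^ 2 ≤ q y ∧ q y < 1 - ‖a‖ ^ 2} := by
    refine setLIntegral_mono' measurableSet_ball fun a ha => ?_
    gcongr
    have h1 : ‖a‖ ≤ r + s / 8 := by
      have h2 : ‖a - r‖ < s / 8 := by simpa [dist_eq_norm] using ha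
      calc ‖a‖ = ‖(r : ℂ) + (a - r)‖ := by congr 1; ring
        _ ≤ ‖(r : ℂ)‖ + ‖a - r‖ := norm_add_le _ _
        _ ≤ r + s / 8 := by
          rw [Complex.norm_real, Real.norm_eq_abs, abs_of_nonneg hr0]
          linarith
    have h2 : ‖a‖ ^ 2 ≤ (r + s / 8) ^ 2 := by gcongr
    have h3 : s / 4 ≤ 1 - ε - ‖a‖ ^ 2 := by nlinarith
    have h4 := vol_shell (k := k) (1 - ε - ‖a‖ ^ 2) ε (by linarith) hε
    have h5 : 1 - ε - ‖a‖ ^ 2 + ε = 1 - ‖a‖ ^ 2 := by ring
    rw [h5] at h4
    refine le_trans ?_ h4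
    rw [mul_comm]
    gcongr
  refine le_trans ?_ step3
  rw [lintegral_mul_const _ hKm, mul_comm]
  gcongr
  apply area K hKm _ _ _ (by positivity)
  intro a ha
  have hline : Differentiable ℂ (fun μ : ℂ => (Fin.cons ((r : ℂ) + μ * (a - r)) 0 : Fin (k + 1 + 1) → ℂ)) :=
    hconsd.comp (by fun_prop)
  have hU : IsOpen {μ : ℂ | q (Fin.cons ((r : ℂ) + μ * (a - r)) 0 : Fin (k + 1 + 1) → ℂ) < R ^ 2} :=
    hopen.preimage hline.continuous
  have hg : AnalyticOnNhd ℂ (fun μ : ℂ => F (Fin.cons ((r : ℂ) + μ * (a - r)) 0)) (closedBall 0 1) := by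
    have h1 : DifferentiableOn ℂ (fun μ : ℂ => F (Fin.cons ((r : ℂ) + μ * (a - r)) 0))
        {μ : ℂ | q (Fin.cons ((r : ℂ) + μ * (a - r)) 0 : Fin (k + 1 + 1) → ℂ) < R ^ 2} :=
      hF.comp hline.differentiableOn (fun μ hμ => hμ)
    refine (h1.analyticOnNhd hU).mono fun μ hμ => ?_
    simp only [mem_ofPred_eq, q_cons]
    have h2 : ‖μ‖ ≤ 1 := by simpa using hμ
    have h3 : ‖a - r‖ < s / 8 := by simpa [dist_eq_norm] using ha
    have h4 : ‖(r : ℂ) + μ * (a - r)‖ ≤ r + s / 8 := by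
      calc ‖(r : ℂ) + μ * (a - r)‖ ≤ ‖(r : ℂ)‖ + ‖μ * (a - r)‖ := norm_add_le _ _
        _ ≤ r + s / 8 := by
          rw [Complex.norm_real, Real.norm_eq_abs, abs_of_nonneg hr0, norm_mul]
          nlinarith [norm_nonneg μ, norm_nonneg (a - r)]
    have h5 : ‖(r : ℂ) + μ * (a - r)‖ ^ 2 ≤ (r + s / 8) ^ 2 := by gcongr
    have h6 : q (0 : Fin (k + 1) → ℂ) = 0 := by simp [q]
    rw [h6]
    nlinarith
  have h6 := circle_submean' _ 0 1 p one_pos hp hg
  simp only [zero_mul, add_zero] at h6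
  refine le_trans h6 (le_of_eq ?_)
  refine lintegral_congr fun θ => ?_
  simp only [hKdef]
  congr 4
  simp [circleMap]

/-- integration in polar coordinates -/
theorem lintegral_polar {E : Type*} [NormedAddCommGroup E] [NormedSpace ℝ E] [MeasurableSpace E]
    [BorelSpace E] [FiniteDimensional ℝ E] [Nontrivial E] (μ : Measure E) [μ.IsAddHaarMeasure]
    (G : E → ℝ≥0∞) (hG : Measurable G) :
    ∫⁻ z, G z ∂μ = ∫⁻ ζ : sphere (0 : E) 1, (∫⁻ t : Ioi (0 : ℝ), G ((t : ℝ) • (ζ : E))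
      ∂(Measure.volumeIoiPow (Module.finrank ℝ E - 1))) ∂μ.toSphere := by
  have h1 : ∫⁻ z, G z ∂μ = ∫⁻ z in ({0}ᶜ : Set E), G z ∂μ := by
    rw [restrict_compl_singleton]
  rw [h1, ← lintegral_subtype_comap (measurableSet_singleton (0 : E)).compl]
  have hmp := μ.measurePreserving_homeomorphUnitSphereProd
  have h2 := hmp.lintegral_comp_emb (Homeomorph.measurableEmbedding _)
    (fun b : sphere (0 : E) 1 × Ioi (0 : ℝ) => G ((b.2 : ℝ) • (b.1 : E)))
  have hm : Measurable (fun b : sphere (0 : E) 1 × Ioi (0 : ℝ) => G ((b.2 : ℝ) • (b.1 : E))) := by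
    apply hG.comp
    apply Continuous.measurable
    fun_prop
  rw [lintegral_prod _ hm.aemeasurable] at h2
  rw [← h2]
  refine lintegral_congr fun a => ?_
  congr 1
  have ha : ‖(a : E)‖ ≠ 0 := norm_ne_zero_iff.mpr a.2
  simp [homeomorphUnitSphereProd_apply_snd_coe, homeomorphUnitSphereProd_apply_fst_coe, smul_smul, ha]

theorem shell_upper {E : Type*} [NormedAddCommGroup E] [NormedSpace ℝ E] [MeasurableSpace E]
    [BorelSpace E] [FiniteDimensional ℝ E] [Nontrivial E] (μ : Measure E) [μ.IsAddHaarMeasure]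
    (G : E → ℝ≥0∞) (hG : Measurable G) (g : sphere (0 : E) 1 → ℝ≥0∞) (hg : Measurable g)
    (ε : ℝ) (_hε0 : 0 < ε) (_hε1 : ε < 1)
    (h : ∀ (ζ : sphere (0 : E) 1) (t : ℝ), 0 < t → G (t • (ζ : E)) ≤
      (Ico (1 - ε) 1).indicator (fun _ => g ζ) t) :
    ∫⁻ z, G z ∂μ ≤ ENNReal.ofReal ε * ∫⁻ ζ, g ζ ∂μ.toSphere := by
  rw [lintegral_polar μ G hG, ← lintegral_const_mul _ hg]
  refine lintegral_mono fun ζ => ?_
  have h1 : ∫⁻ t : Ioi (0 : ℝ), G ((t : ℝ) • (ζ : E)) ∂(Measure.volumeIoiPow (Module.finrank ℝ E - 1)) ≤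
      ∫⁻ t : Ioi (0 : ℝ), (Ico (1 - ε) 1).indicator (fun _ => g ζ) (t : ℝ)
        ∂(Measure.volumeIoiPow (Module.finrank ℝ E - 1)) :=
    lintegral_mono fun t => h ζ t t.2
  refine h1.trans ?_
  unfold Measure.volumeIoiPow
  have hm1 : Measurable (fun r : Ioi (0 : ℝ) => ENNReal.ofReal (r.1 ^ (Module.finrank ℝ E - 1))) :=
    (measurable_subtype_coe.pow_const _).ennreal_ofReal
  have hm2 : Measurable (fun t : ℝ => (Ico (1 - ε) 1).indicator (fun _ => g ζ) t) :=
    measurable_const.indicator measurableSet_Ico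
  have h5 := lintegral_withDensity_eq_lintegral_mul (Measure.comap Subtype.val volume) hm1
    (hm2.comp measurable_subtype_coe)
  refine (le_of_eq h5).trans ?_
  have h3 : ∀ t : Ioi (0 : ℝ), ENNReal.ofReal ((t : ℝ) ^ (Module.finrank ℝ E - 1)) *
      (Ico (1 - ε) 1).indicator (fun _ => g ζ) (t : ℝ) ≤
      (Ico (1 - ε) 1).indicator (fun _ => g ζ) (t : ℝ) := by
    intro t
    by_cases ht : (t : ℝ) ∈ Ico (1 - ε) 1
    · have h4 : ENNReal.ofReal ((t : ℝ) ^ (Module.finrank ℝ E - 1)) ≤ 1 := by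
        rw [ENNReal.ofReal_le_one]
        exact pow_le_one₀ (le_of_lt t.2) ht.2.le
      calc ENNReal.ofReal ((t : ℝ) ^ (Module.finrank ℝ E - 1)) * (Ico (1 - ε) 1).indicator (fun _ => g ζ) (t : ℝ)
          ≤ 1 * (Ico (1 - ε) 1).indicator (fun _ => g ζ) (t : ℝ) := by gcongr
        _ = _ := one_mul _
    · rw [indicator_of_notMem ht, mul_zero]
  refine (lintegral_mono h3).trans ?_
  rw [lintegral_subtype_comap measurableSet_Ioi (fun t : ℝ => (Ico (1 - ε) 1).indicator (fun _ => g ζ) t)]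
  refine (setLIntegral_le_lintegral _ _).trans ?_
  rw [lintegral_indicator measurableSet_Ico, setLIntegral_const, Real.volume_Ico, mul_comm]
  simp


/-- `ℂ^n` -/
abbrev E (n : ℕ) := EuclideanSpace ℂ (Fin n)

/-- real version of a complex linear isometry -/
noncomputable def toReal {n : ℕ} (U : E n ≃ₗᵢ[ℂ] E n) : E n ≃ₗᵢ[ℝ] E n :=
  { U.toLinearEquiv.restrictScalars ℝ with norm_map' := U.norm_map }

theorem main_step (k : ℕ) (p : ℝ) (hp : 0 < p) : ∃ c : NNReal, ∀ (f : E (k + 1 + 1) → ℂ) (R : ℝ), 1 < R →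
    DifferentiableOn ℂ f (ball 0 R) → ∀ w ∈ ball (0 : E (k + 1 + 1)) 1, ∀ η : ℝ, 0 < η →
    (volume {x : Fin (k + 1) → ℂ | q x < 1}) * ENNReal.ofReal (((1 - ‖w‖ ^ 2) / 4) ^ k) *
      (ENNReal.ofReal (‖f w‖ ^ p) * ENNReal.ofReal (π * ((1 - ‖w‖ ^ 2) / 8) ^ 2)) ≤
     c * ∫⁻ ζ in {ζ : sphere (0 : E (k + 1 + 1)) 1 | ‖1 - inner ℂ w (ζ : E (k + 1 + 1))‖ ≤ 2 * (1 - ‖w‖ ^ 2)},
        ENNReal.ofReal (‖f ζ‖ ^ p + η) ∂((volume : Measure (E (k + 1 + 1))).toSphere) := by
  -- the scaling constant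
  set L : (Fin (k + 1 + 1) → ℂ) ≃L[ℝ] E (k + 1 + 1) :=
    (PiLp.continuousLinearEquiv 2 ℝ (fun _ : Fin (k + 1 + 1) => ℂ)).symm with hL
  set μ' : Measure (E (k + 1 + 1)) := (volume : Measure (Fin (k + 1 + 1) → ℂ)).map L with hμ'
  have hc := Measure.isAddLeftInvariant_eq_smul μ' (volume : Measure (E (k + 1 + 1)))
  refine ⟨Measure.addHaarScalarFactor μ' volume, ?_⟩
  set c := Measure.addHaarScalarFactor μ' (volume : Measure (E (k + 1 + 1))) with hcdef
  intro f R hR hf w hw η hη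
  have hw1 : ‖w‖ < 1 := by simpa using hw
  set r := ‖w‖ with hr
  have hr0 : 0 ≤ r := norm_nonneg _
  set s := 1 - r ^ 2 with hs
  have hs0 : 0 < s := by nlinarith
  have hs1 : s ≤ 1 := by nlinarith [sq_nonneg r]
  -- unit vector
  obtain ⟨e, he, hwe⟩ : ∃ e : E (k + 1 + 1), ‖e‖ = 1 ∧ w = (r : ℂ) • e := by
    rcases eq_or_ne w 0 with h0 | h0
    · refine ⟨EuclideanSpace.single 0 1, by simp, ?_⟩
      rw [hr, h0]
      simp
    · refine ⟨((r : ℂ)⁻¹) • w, ?_, ?_⟩
      · rw [norm_smul, norm_inv, Complex.norm_real, Real.norm_eq_abs, abs_of_nonneg hr0, hr]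
        exact inv_mul_cancel₀ (norm_ne_zero_iff.mpr h0)
      · rw [smul_smul, mul_inv_cancel₀, one_smul]
        exact_mod_cast norm_ne_zero_iff.mpr h0
  obtain ⟨b, hb⟩ := Orthonormal.exists_orthonormalBasis_extension_of_card_eq (𝕜 := ℂ) (E := E (k + 1 + 1))
    (ι := Fin (k + 1 + 1)) (by simp) (v := fun _ => e) (s := {0}) (by
      constructor
      · intro i
        simpa using he
      · intro i j hij
        exact absurd (Subsingleton.elim i j) hij)
  have hb0 : b 0 = e := hb 0 rfl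
  set U : E (k + 1 + 1) ≃ₗᵢ[ℂ] E (k + 1 + 1) := b.repr.symm with hU
  have hinner : ∀ y, inner ℂ e (U y) = y 0 := by
    intro y
    rw [← hb0, ← b.repr_apply_apply, hU, LinearIsometryEquiv.apply_symm_apply]
  have hUmp : MeasurePreserving U volume volume := (toReal U).measurePreserving
  -- the function in coordinates
  classical
  set f' : E (k + 1 + 1) → ℂ := (ball (0 : E (k + 1 + 1)) R).indicator f with hf'
  have hf'm : Measurable f' := by
    rw [hf', ← Set.piecewise_eq_indicator]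
    exact ContinuousOn.measurable_piecewise hf.continuousOn continuousOn_const measurableSet_ball
  have hf'd : DifferentiableOn ℂ f' (ball 0 R) := hf.congr fun z hz => by rw [hf', indicator_of_mem hz]
  have hf'eq : ∀ z, ‖z‖ < R → f' z = f z := fun z hz => by
    rw [hf', indicator_of_mem (by simpa using hz)]
  set F : (Fin (k + 1 + 1) → ℂ) → ℂ := fun x => f' (U (WithLp.toLp 2 x)) with hF
  have hnorm : ∀ x : Fin (k + 1 + 1) → ℂ, ‖U (WithLp.toLp 2 x)‖ ^ 2 = q x := by
    intro x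
    rw [LinearIsometryEquiv.norm_map, EuclideanSpace.norm_sq_eq]
    rfl
  have hLc : Continuous (fun x : Fin (k + 1 + 1) → ℂ => (WithLp.toLp 2 x : E (k + 1 + 1))) := L.continuous
  have hFm : Measurable F := hf'm.comp (U.continuous.comp hLc).measurable
  have hLd : Differentiable ℂ (fun x : Fin (k + 1 + 1) → ℂ => (WithLp.toLp 2 x : E (k + 1 + 1))) :=
    (PiLp.continuousLinearEquiv 2 ℂ (fun _ : Fin (k + 1 + 1) => ℂ)).symm.differentiable
  have hUd : Differentiable ℂ (U : E (k + 1 + 1) → E (k + 1 + 1)) :=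
    U.toContinuousLinearEquiv.differentiable
  have hFd : DifferentiableOn ℂ F {x | q x < R ^ 2} := by
    refine hf'd.comp (hUd.comp hLd).differentiableOn fun x hx => ?_
    have h1 : ‖U (WithLp.toLp 2 x)‖ ^ 2 < R ^ 2 := by rw [hnorm]; exact hx
    have h2 : ‖U (WithLp.toLp 2 x)‖ < R := lt_of_pow_lt_pow_left₀ 2 (by linarith) h1
    simpa using h2
  have hFw : F (Fin.cons (r : ℂ) 0) = f w := by
    have h1 : U (WithLp.toLp 2 (Fin.cons (r : ℂ) 0 : Fin (k + 1 + 1) → ℂ)) = w := by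
      have h2 : (WithLp.toLp 2 (Fin.cons (r : ℂ) 0 : Fin (k + 1 + 1) → ℂ) : E (k + 1 + 1)) =
          (r : ℂ) • EuclideanSpace.single 0 (1 : ℂ) := by
        ext i
        refine Fin.cases ?_ (fun j => ?_) i
        · simp
        · simp
      rw [h2, map_smul, hU, OrthonormalBasis.repr_symm_single, hb0, ← hwe]
    rw [hF]
    simp only [h1]
    exact hf'eq w (by linarith)
  -- uniform continuity
  have hucont : ContinuousOn (fun z => ‖f z‖ ^ p) (closedBall (0 : E (k + 1 + 1)) 1) :=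
    ((hf.continuousOn.mono (closedBall_subset_ball hR)).norm).rpow_const (fun x _ => Or.inr hp.le)
  have huc := (isCompact_closedBall (0 : E (k + 1 + 1)) 1).uniformContinuousOn_of_continuous hucont
  rw [Metric.uniformContinuousOn_iff] at huc
  obtain ⟨δ, hδ, huc⟩ := huc η hη
  set ε := min (s / 16) (δ / 2) with hε
  have hε0 : 0 < ε := by positivity
  have hε1 : ε ≤ s / 16 := min_le_left _ _
  have hε2 : ε ≤ δ / 2 := min_le_right _ _
  have hlow := shell_lower k F hFm R hR hFd p hp r hr0 hw1 ε hε0 (by linarith)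
  rw [hFw] at hlow
  -- the function on `E`
  set Ω : Set (E (k + 1 + 1)) := {z | 1 - ε ≤ ‖z‖ ^ 2 ∧ ‖z‖ ^ 2 < 1 ∧ ‖inner ℂ e z - (r : ℂ)‖ < s / 8} with hΩ
  have hcn1 : Continuous (fun z : E (k + 1 + 1) => ‖z‖ ^ 2) := by fun_prop
  have hcn2 : Continuous (fun z : E (k + 1 + 1) => ‖inner ℂ e z - (r : ℂ)‖) := by fun_prop
  have hΩm : MeasurableSet Ω := by
    apply MeasurableSet.inter
    · exact (isClosed_le continuous_const hcn1).measurableSet
    · apply MeasurableSet.inter
      · exact (isOpen_lt hcn1 continuous_const).measurableSet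
      · exact (isOpen_lt hcn2 continuous_const).measurableSet
  set G : E (k + 1 + 1) → ℝ≥0∞ := Ω.indicator (fun z => ENNReal.ofReal (‖f' z‖ ^ p)) with hG
  have hGm : Measurable G := ((hf'm.norm.pow_const p).ennreal_ofReal).indicator hΩm
  have hint1 : ∫⁻ x in {x : Fin (k + 1 + 1) → ℂ | 1 - ε ≤ q x ∧ q x < 1 ∧ ‖x 0 - r‖ < (1 - r ^ 2) / 8},
      ENNReal.ofReal (‖F x‖ ^ p) = c * ∫⁻ z, G z := by
    have hset : MeasurableSet {x : Fin (k + 1 + 1) → ℂ | 1 - ε ≤ q x ∧ q x < 1 ∧ ‖x 0 - r‖ < (1 - r ^ 2) / 8} := by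
      apply MeasurableSet.inter
      · exact (isClosed_le continuous_const q_cont).measurableSet
      · apply MeasurableSet.inter
        · exact (isOpen_lt q_cont continuous_const).measurableSet
        · exact (isOpen_lt ((continuous_apply 0).sub continuous_const).norm continuous_const).measurableSet
    rw [← lintegral_indicator hset]
    have h1 : ∀ x : Fin (k + 1 + 1) → ℂ, {x : Fin (k + 1 + 1) → ℂ | 1 - ε ≤ q x ∧ q x < 1 ∧
        ‖x 0 - r‖ < (1 - r ^ 2) / 8}.indicator (fun x => ENNReal.ofReal (‖F x‖ ^ p)) x = G (U (L x)) := by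
      intro x
      have hiff : x ∈ {x : Fin (k + 1 + 1) → ℂ | 1 - ε ≤ q x ∧ q x < 1 ∧ ‖x 0 - r‖ < (1 - r ^ 2) / 8} ↔
          U (L x) ∈ Ω := by
        have h2 : L x = WithLp.toLp 2 x := rfl
        simp only [hΩ, mem_ofPred_eq, h2, hnorm, hinner]
        rfl
      by_cases hx : x ∈ {x : Fin (k + 1 + 1) → ℂ | 1 - ε ≤ q x ∧ q x < 1 ∧ ‖x 0 - r‖ < (1 - r ^ 2) / 8}
      · rw [indicator_of_mem hx, hG, indicator_of_mem (hiff.mp hx)]
        rfl
      · rw [indicator_of_notMem hx, hG, indicator_of_notMem (fun h => hx (hiff.mpr h))]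
    simp_rw [h1]
    have h3 : ∫⁻ x, G (U (L x)) = ∫⁻ y, G (U y) ∂μ' := by
      exact (lintegral_map (hGm.comp U.continuous.measurable) L.continuous.measurable).symm
    rw [h3, hc, lintegral_smul_measure]
    rw [hUmp.lintegral_comp hGm]
    rfl
  rw [hint1] at hlow
  -- upper bound
  set S : Set (sphere (0 : E (k + 1 + 1)) 1) := {ζ | ‖1 - inner ℂ w (ζ : E (k + 1 + 1))‖ ≤ 2 * s} with hS
  have hSm : MeasurableSet S := (isClosed_le (by fun_prop) continuous_const).measurableSet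
  set g : sphere (0 : E (k + 1 + 1)) 1 → ℝ≥0∞ := S.indicator (fun ζ => ENNReal.ofReal (‖f ζ‖ ^ p + η)) with hg
  have hfc : Continuous (fun ζ : sphere (0 : E (k + 1 + 1)) 1 => ‖f ζ‖ ^ p) := by
    refine hucont.comp_continuous continuous_subtype_val fun ζ => ?_
    exact sphere_subset_closedBall ζ.2
  have hgm : Measurable g := ((hfc.add continuous_const).measurable.ennreal_ofReal).indicator hSm
  have hup := shell_upper (volume : Measure (E (k + 1 + 1))) G hGm g hgm ε hε0 (by linarith) (by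
    intro ζ t ht
    by_cases hz : t • (ζ : E (k + 1 + 1)) ∈ Ω
    · obtain ⟨h1, h2, h3⟩ := hz
      have hζ : ‖(ζ : E (k + 1 + 1))‖ = 1 := by simpa using ζ.2
      have hnt : ‖t • (ζ : E (k + 1 + 1))‖ = t := by
        rw [norm_smul, hζ, Real.norm_eq_abs, abs_of_pos ht, mul_one]
      rw [hnt] at h1 h2
      have ht1 : t < 1 := by nlinarith
      have ht2 : 1 - ε ≤ t := by nlinarith
      rw [hG, indicator_of_mem (s := Ω) ⟨by rw [hnt]; exact h1, by rw [hnt]; exact h2, h3⟩,
        indicator_of_mem (s := Ico (1 - ε) 1) ⟨ht2, ht1⟩]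
      have hin : ‖inner ℂ e (ζ : E (k + 1 + 1))‖ ≤ 1 := by
        calc _ ≤ ‖e‖ * ‖(ζ : E (k + 1 + 1))‖ := norm_inner_le_norm _ _
          _ = 1 := by rw [he, hζ, one_mul]
      have hsm : inner ℂ e (t • (ζ : E (k + 1 + 1))) = (t : ℂ) * inner ℂ e (ζ : E (k + 1 + 1)) := by
        have : t • (ζ : E (k + 1 + 1)) = (t : ℂ) • (ζ : E (k + 1 + 1)) := by
          ext i
          simp
        rw [this, inner_smul_right]
      have h4 : ‖inner ℂ e (ζ : E (k + 1 + 1)) - (r : ℂ)‖ ≤ s / 4 := by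
        have h5 : inner ℂ e (ζ : E (k + 1 + 1)) - (r : ℂ) =
            (inner ℂ e (t • (ζ : E (k + 1 + 1))) - (r : ℂ)) + ((1 - t : ℝ) : ℂ) * inner ℂ e (ζ : E (k + 1 + 1)) := by
          rw [hsm]
          push_cast
          ring
        rw [h5]
        calc _ ≤ ‖inner ℂ e (t • (ζ : E (k + 1 + 1))) - (r : ℂ)‖ +
              ‖((1 - t : ℝ) : ℂ) * inner ℂ e (ζ : E (k + 1 + 1))‖ := norm_add_le _ _
          _ ≤ s / 8 + ε := by
            refine add_le_add h3.le ?_
            rw [norm_mul, Complex.norm_real, Real.norm_eq_abs, abs_of_pos (by linarith)]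
            nlinarith [norm_nonneg (inner ℂ e (ζ : E (k + 1 + 1)))]
          _ ≤ s / 4 := by linarith
      have h6 : ζ ∈ S := by
        simp only [hS, mem_ofPred_eq]
        rw [hwe, inner_smul_left, Complex.conj_ofReal]
        have h7 : (1 : ℂ) - (r : ℂ) * inner ℂ e (ζ : E (k + 1 + 1)) =
            ((s : ℝ) : ℂ) - (r : ℂ) * (inner ℂ e (ζ : E (k + 1 + 1)) - (r : ℂ)) := by
          rw [hs]
          push_cast
          ring
        rw [h7]
        calc _ ≤ ‖((s : ℝ) : ℂ)‖ + ‖(r : ℂ) * (inner ℂ e (ζ : E (k + 1 + 1)) - (r : ℂ))‖ := norm_sub_le _ _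
          _ ≤ s + 1 * (s / 4) := by
            rw [Complex.norm_real, Real.norm_eq_abs, abs_of_pos hs0, norm_mul, Complex.norm_real,
              Real.norm_eq_abs, abs_of_nonneg hr0]
            gcongr
          _ ≤ 2 * s := by linarith
      rw [hg, indicator_of_mem h6]
      apply ENNReal.ofReal_le_ofReal
      have h8 : f' (t • (ζ : E (k + 1 + 1))) = f (t • (ζ : E (k + 1 + 1))) :=
        hf'eq _ (by rw [hnt]; linarith)
      rw [h8]
      have h9 := huc (t • (ζ : E (k + 1 + 1))) (by rw [mem_closedBall, dist_zero_right, hnt]; linarith)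
        (ζ : E (k + 1 + 1)) (sphere_subset_closedBall ζ.2) (by
          rw [dist_eq_norm]
          have : t • (ζ : E (k + 1 + 1)) - ζ = -((1 - t) • (ζ : E (k + 1 + 1))) := by
            rw [sub_smul, one_smul, neg_sub]
          rw [this, norm_neg, norm_smul, hζ, Real.norm_eq_abs, abs_of_pos (by linarith)]
          linarith)
      rw [Real.dist_eq] at h9
      have := (abs_lt.mp h9).2
      linarith
    · rw [hG, indicator_of_notMem hz]
      exact zero_le)
  have hfinal := hlow.trans (mul_le_mul_right hup (c : ℝ≥0∞))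
  -- cancel `ε`
  have hεne : ENNReal.ofReal ε ≠ 0 := by
    rw [Ne, ENNReal.ofReal_eq_zero, not_le]
    exact hε0
  rw [hg, lintegral_indicator hSm] at hfinal
  rw [← ENNReal.mul_le_mul_iff_right hεne ENNReal.ofReal_ne_top]
  refine le_trans (le_of_eq ?_) (hfinal.trans (le_of_eq ?_))
  · rw [ENNReal.ofReal_mul hε0.le]
    ring
  · ring

theorem submean (k : ℕ) (p : ℝ) (hp : 0 < p) : ∃ C : ℝ, 0 < C ∧ ∀ (f : E (k + 2) → ℂ) (R : ℝ), 1 < R →
    DifferentiableOn ℂ f (ball 0 R) → ∀ w ∈ ball (0 : E (k + 2)) 1,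
    ENNReal.ofReal (‖f w‖ ^ p) ≤ ENNReal.ofReal (C / (1 - ‖w‖ ^ 2) ^ (k + 2)) *
      ∫⁻ ζ in {ζ : sphere (0 : E (k + 2)) 1 | ‖1 - inner ℂ w (ζ : E (k + 2))‖ ≤ 2 * (1 - ‖w‖ ^ 2)},
        ENNReal.ofReal (‖f ζ‖ ^ p) ∂((volume : Measure (E (k + 2))).toSphere) := by
  obtain ⟨c, hc⟩ := main_step k p hp
  set V := (volume {x : Fin (k + 1) → ℂ | q x < 1}) with hV
  have hVf : V ≠ ⊤ := vol_q_fin.ne
  have hV0 : V ≠ 0 := vol_q_pos.ne'
  set v := V.toReal with hv
  have hv0 : 0 < v := ENNReal.toReal_pos hV0 hVf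
  have hVv : V = ENNReal.ofReal v := (ENNReal.ofReal_toReal hVf).symm
  refine ⟨(c + 1) * (64 * 4 ^ k) / (v * π), by positivity, ?_⟩
  intro f R hR hf w hw
  have hw1 : ‖w‖ < 1 := by simpa using hw
  set s := 1 - ‖w‖ ^ 2 with hs
  have hs0 : 0 < s := by nlinarith [norm_nonneg w]
  set σ := (volume : Measure (E (k + 2))).toSphere with hσ
  set S : Set (sphere (0 : E (k + 2)) 1) := {ζ | ‖1 - inner ℂ w (ζ : E (k + 2))‖ ≤ 2 * s} with hS
  set I := ∫⁻ ζ in S, ENNReal.ofReal (‖f ζ‖ ^ p) ∂σ with hI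
  have h1 : ∀ η : ℝ, 0 < η → V * ENNReal.ofReal ((s / 4) ^ k) *
      (ENNReal.ofReal (‖f w‖ ^ p) * ENNReal.ofReal (π * (s / 8) ^ 2)) ≤ c * (I + ENNReal.ofReal η * σ S) := by
    intro η hη
    refine (hc f R hR hf w hw η hη).trans ?_
    gcongr
    have h2 : ∀ ζ : sphere (0 : E (k + 2)) 1, ENNReal.ofReal (‖f ζ‖ ^ p + η) =
        ENNReal.ofReal (‖f ζ‖ ^ p) + ENNReal.ofReal η := fun ζ =>
      ENNReal.ofReal_add (by positivity) hη.le
    simp_rw [h2]
    rw [lintegral_add_right _ measurable_const, setLIntegral_const]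
  have h2 : V * ENNReal.ofReal ((s / 4) ^ k) *
      (ENNReal.ofReal (‖f w‖ ^ p) * ENNReal.ofReal (π * (s / 8) ^ 2)) ≤ c * I := by
    have hlim : Tendsto (fun η : ℝ => (c : ℝ≥0∞) * (I + ENNReal.ofReal η * σ S)) (𝓝[>] 0) (𝓝 (c * (I + ENNReal.ofReal 0 * σ S))) := by
      apply ENNReal.Tendsto.const_mul
      · apply Tendsto.const_add
        apply ENNReal.Tendsto.mul_const
        · exact (ENNReal.continuous_ofReal.tendsto 0).mono_left nhdsWithin_le_nhds
        · exact Or.inr (measure_ne_top _ _)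
      · exact Or.inr ENNReal.coe_ne_top
    simp only [ENNReal.ofReal_zero, zero_mul, add_zero] at hlim
    refine ge_of_tendsto hlim ?_
    filter_upwards [self_mem_nhdsWithin] with η hη
    exact h1 η hη
  -- final algebra
  set y := ENNReal.ofReal (‖f w‖ ^ p) with hy
  have h3 : ENNReal.ofReal (v * (s / 4) ^ k * (π * (s / 8) ^ 2)) * y ≤ c * I := by
    refine le_trans (le_of_eq ?_) h2
    rw [ENNReal.ofReal_mul (by positivity), ENNReal.ofReal_mul hv0.le, hVv]
    ring
  have h4 : y = ENNReal.ofReal ((v * (s / 4) ^ k * (π * (s / 8) ^ 2))⁻¹) *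
      (ENNReal.ofReal (v * (s / 4) ^ k * (π * (s / 8) ^ 2)) * y) := by
    rw [← mul_assoc, ← ENNReal.ofReal_mul (by positivity), inv_mul_cancel₀ (by positivity),
      ENNReal.ofReal_one, one_mul]
  rw [h4]
  calc _ ≤ ENNReal.ofReal ((v * (s / 4) ^ k * (π * (s / 8) ^ 2))⁻¹) * (c * I) := by gcongr
    _ ≤ ENNReal.ofReal ((v * (s / 4) ^ k * (π * (s / 8) ^ 2))⁻¹) * (ENNReal.ofReal (c + 1) * I) := by
      gcongr
      rw [← ENNReal.ofReal_coe_nnreal]
      apply ENNReal.ofReal_le_ofReal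
      linarith
    _ = ENNReal.ofReal ((c + 1) * (64 * 4 ^ k) / (v * π) / s ^ (k + 2)) * I := by
      rw [← mul_assoc, ← ENNReal.ofReal_mul (by positivity)]
      congr 2
      rw [div_pow, div_pow]
      field_simp
      ring

end Pool.Agent.Helper633.SubMean
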