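import Pool.Agent.Helper633.Geo1
import Pool.Agent.HpBall.Caps
import Pool.Agent.Helper262.RU1

set_option autoImplicit false
open MeasureTheory Metric Set Filter Topology Real
open scoped ENNReal Pointwise

namespace Pool.Agent.Helper633.Geo
open Pool.Agent.Helper633.SubMean (E lintegral_polar shell_upper)
open Pool.Agent.HpBall (sig gam vol rho cap_upper cap_lower)

/-- the surface measure of the unit sphere, as a measure on the ambient space -/
noncomputable def sigS (n : ℕ) : Measure (E n) := ((volume : Measure (E n)).toSphere).map Subtype.val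

theorem sigS_apply (n : ℕ) (S : Set (E n)) (hS : MeasurableSet S) :
    sigS n S = (volume : Measure (E n)).toSphere (Subtype.val ⁻¹' S) := by
  unfold sigS
  rw [Measure.map_apply measurable_subtype_coe hS]

theorem sig_eq_smul (n : ℕ) (hn : 1 ≤ n) : ∃ c : ℝ≥0∞, c ≠ 0 ∧ c ≠ ⊤ ∧ sig n = c • sigS n := by
  have hne : Nonempty (Fin n) := ⟨⟨0, hn⟩⟩
  have hnt : Nontrivial (E n) := inferInstance
  have hc := Measure.isAddLeftInvariant_eq_smul (vol n) (volume : Measure (E n))
  set a := Measure.addHaarScalarFactor (vol n) (volume : Measure (E n)) with ha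
  set I : ℝ≥0∞ := ∫⁻ t : Ioi (0 : ℝ), ENNReal.ofReal (Real.exp (-(t : ℝ) ^ 2))
    ∂(Measure.volumeIoiPow (Module.finrank ℝ (E n) - 1)) with hI
  have key : sig n = ((a : ℝ≥0∞) * I) • sigS n := by
    ext S hS
    have hfm : Measurable (fun z : E n => ENNReal.ofReal (Real.exp (-‖z‖ ^ 2))) := by fun_prop
    have hpm := Pool.Agent.HpBall.measurable_proj (n := n)
    have hS' := hpm hS
    have h1 : sig n S = (a : ℝ≥0∞) * ∫⁻ z, ((fun z : E n => (((‖z‖⁻¹ : ℝ)) : ℂ) • z) ⁻¹' S).indicator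
        (fun z : E n => ENNReal.ofReal (Real.exp (-‖z‖ ^ 2))) z := by
      rw [lintegral_indicator hS']
      rw [sig, Measure.map_apply hpm hS, gam, withDensity_apply _ hS', hc,
        Measure.restrict_smul, lintegral_smul_measure]
      rfl
    rw [h1, lintegral_polar volume _ (hfm.indicator hS')]
    have h2 : ∀ ζ : sphere (0 : E n) 1, (∫⁻ t : Ioi (0 : ℝ),
        ((fun z : E n => (((‖z‖⁻¹ : ℝ)) : ℂ) • z) ⁻¹' S).indicator
        (fun z : E n => ENNReal.ofReal (Real.exp (-‖z‖ ^ 2))) ((t : ℝ) • (ζ : E n))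
        ∂(Measure.volumeIoiPow (Module.finrank ℝ (E n) - 1))) =
        (Subtype.val ⁻¹' S : Set (sphere (0 : E n) 1)).indicator (fun _ => I) ζ := by
      intro ζ
      have hζ : ‖(ζ : E n)‖ = 1 := by simpa using ζ.2
      have h3 : ∀ t : Ioi (0 : ℝ), ‖(t : ℝ) • (ζ : E n)‖ = t := by
        intro t
        rw [norm_smul, hζ, Real.norm_eq_abs, abs_of_pos t.2, mul_one]
      have h4 : ∀ t : Ioi (0 : ℝ), (((‖(t : ℝ) • (ζ : E n)‖⁻¹ : ℝ)) : ℂ) • ((t : ℝ) • (ζ : E n)) = ζ := by
        intro t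
        have ht : (t : ℝ) ≠ 0 := ne_of_gt t.2
        rw [h3]
        have : (t : ℝ) • (ζ : E n) = ((t : ℝ) : ℂ) • (ζ : E n) := by
          ext i
          simp
        rw [this, smul_smul]
        push_cast
        rw [inv_mul_cancel₀ (by exact_mod_cast ht), one_smul]
      by_cases hζS : (ζ : E n) ∈ S
      · rw [indicator_of_mem (by exact hζS)]
        rw [hI]
        refine lintegral_congr fun t => ?_
        rw [indicator_of_mem (by
          rw [mem_preimage, h4]
          exact hζS), h3]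
      · rw [indicator_of_notMem (by exact hζS)]
        rw [← lintegral_zero (μ := Measure.volumeIoiPow (Module.finrank ℝ (E n) - 1))]
        refine lintegral_congr fun t => ?_
        rw [indicator_of_notMem (by
          rw [mem_preimage, h4]
          exact hζS)]
    simp_rw [h2]
    rw [lintegral_indicator (measurable_subtype_coe hS), setLIntegral_const, Measure.smul_apply,
      sigS_apply n S hS, smul_eq_mul]
    ring
  refine ⟨(a : ℝ≥0∞) * I, ?_, ?_, key⟩
  · intro h0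
    have h1 := Pool.Agent.HpBall.sig_univ_pos (n := n)
    rw [key, h0] at h1
    simp at h1
  · intro h0
    have h1 := Pool.Agent.HpBall.sig_univ_pos (n := n)
    have h2 : sig n univ < ⊤ := measure_lt_top _ _
    rw [key, h0, Measure.smul_apply, smul_eq_mul] at h1 h2
    rcases eq_or_ne (sigS n univ) 0 with h3 | h3
    · rw [h3, mul_zero] at h1
      exact lt_irrefl _ h1
    · rw [ENNReal.top_mul h3] at h2
      exact lt_irrefl _ h2

/-- upper bound for caps -/
theorem capS_upper (n : ℕ) (hn : 1 ≤ n) : ∃ C : ℝ, 0 < C ∧ ∀ ζ : E n, ‖ζ‖ = 1 → ∀ δ : ℝ, 0 < δ →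
    sigS n {ξ | d ξ ζ < δ} ≤ ENNReal.ofReal (C * δ ^ n) := by
  obtain ⟨c, hc0, hct, hc⟩ := sig_eq_smul n hn
  obtain ⟨C, hC, h⟩ := cap_upper n hn
  have hcr : 0 < c.toReal := ENNReal.toReal_pos hc0 hct
  refine ⟨C / c.toReal, by positivity, fun ζ hζ δ hδ => ?_⟩
  have h1 := h ζ hζ δ hδ
  have h2 : {ξ : E n | rho ξ ζ < δ} = {ξ | d ξ ζ < δ} := rfl
  rw [hc, Measure.smul_apply, smul_eq_mul, h2] at h1
  have h3 : ENNReal.ofReal (C / c.toReal * δ ^ n) = ENNReal.ofReal (C * δ ^ n) / c := by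
    rw [ENNReal.eq_div_iff hc0 hct]
    nth_rewrite 1 [← ENNReal.ofReal_toReal hct]
    rw [← ENNReal.ofReal_mul hcr.le]
    congr 1
    field_simp
  rw [h3, ENNReal.le_div_iff_mul_le (Or.inl hc0) (Or.inl hct), mul_comm]
  exact h1

/-- lower bound for caps -/
theorem capS_lower (n : ℕ) (hn : 1 ≤ n) : ∃ c : ℝ, 0 < c ∧ ∀ ζ : E n, ‖ζ‖ = 1 → ∀ δ : ℝ, 0 < δ →
    δ ≤ 1 → ENNReal.ofReal (c * δ ^ n) ≤ sigS n {ξ | d ξ ζ < δ} := by
  obtain ⟨c, hc0, hct, hc⟩ := sig_eq_smul n hn
  obtain ⟨C, hC, h⟩ := cap_lower n hn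
  have hcr : 0 < c.toReal := ENNReal.toReal_pos hc0 hct
  refine ⟨C / c.toReal, by positivity, fun ζ hζ δ hδ hδ1 => ?_⟩
  have h1 := h ζ hζ δ hδ hδ1
  have h2 : {ξ : E n | rho ξ ζ < δ} = {ξ | d ξ ζ < δ} := rfl
  rw [hc, Measure.smul_apply, smul_eq_mul, h2] at h1
  have h3 : ENNReal.ofReal (C / c.toReal * δ ^ n) = ENNReal.ofReal (C * δ ^ n) / c := by
    rw [ENNReal.eq_div_iff hc0 hct]
    nth_rewrite 1 [← ENNReal.ofReal_toReal hct]
    rw [← ENNReal.ofReal_mul hcr.le]
    congr 1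
    field_simp
  rw [h3]
  exact ENNReal.div_le_of_le_mul' h1

/-- the retraction onto the closed unit ball -/
noncomputable def ret {n : ℕ} (z : E n) : E n := (((max 1 ‖z‖)⁻¹ : ℝ) : ℂ) • z

theorem ret_of_le {n : ℕ} (z : E n) (hz : ‖z‖ ≤ 1) : ret z = z := by
  unfold ret
  rw [max_eq_left hz]
  simp

theorem norm_ret_le {n : ℕ} (z : E n) : ‖ret z‖ ≤ 1 := by
  unfold ret
  have h0 : 0 < max 1 ‖z‖ := lt_of_lt_of_le one_pos (le_max_left _ _)
  rw [norm_smul, Complex.norm_real, Real.norm_eq_abs, abs_of_pos (inv_pos.mpr h0), inv_mul_le_iff₀ h0, mul_one]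
  exact le_max_right _ _

theorem ret_meas {n : ℕ} : Measurable (ret : E n → E n) := by
  unfold ret
  fun_prop

theorem exists_unit {n : ℕ} (hn : 1 ≤ n) (w : E n) : ∃ e : E n, ‖e‖ = 1 ∧ w = ((‖w‖ : ℝ) : ℂ) • e := by
  rcases eq_or_ne w 0 with h0 | h0
  · refine ⟨EuclideanSpace.single ⟨0, hn⟩ 1, by simp, ?_⟩
    rw [h0]
    simp
  · have hr : ‖w‖ ≠ 0 := norm_ne_zero_iff.mpr h0
    refine ⟨((‖w‖ : ℂ)⁻¹) • w, ?_, ?_⟩
    · rw [norm_smul, norm_inv, Complex.norm_real, Real.norm_eq_abs, abs_of_nonneg (norm_nonneg _)]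
      exact inv_mul_cancel₀ hr
    · rw [smul_smul, mul_inv_cancel₀, one_smul]
      exact_mod_cast hr

/-- `|1 - t<ζ,e>|` versus `|1 - <ζ,e>|` -/
theorem cap_comp {a : ℂ} (ha : ‖a‖ ≤ 1) {t r : ℝ} (ht0 : 0 ≤ t) (ht1 : t ≤ 1)
    (h : ‖1 - (t : ℂ) * a‖ < r) : 1 - t < r ∧ ‖1 - a‖ < 2 * r := by
  have h1 : 1 - t ≤ ‖1 - (t : ℂ) * a‖ := by
    have h2 := norm_sub_norm_le (1 : ℂ) ((t : ℂ) * a)
    rw [norm_one, norm_mul, Complex.norm_real, Real.norm_eq_abs, abs_of_nonneg ht0] at h2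
    nlinarith
  refine ⟨by linarith, ?_⟩
  have h3 : (1 : ℂ) - a = (1 - (t : ℂ) * a) - ((1 - t : ℝ) : ℂ) * a := by
    push_cast
    ring
  rw [h3]
  calc _ ≤ ‖1 - (t : ℂ) * a‖ + ‖((1 - t : ℝ) : ℂ) * a‖ := norm_sub_le _ _
    _ ≤ ‖1 - (t : ℂ) * a‖ + (1 - t) := by
      rw [norm_mul, Complex.norm_real, Real.norm_eq_abs, abs_of_nonneg (by linarith)]
      nlinarith
    _ < 2 * r := by linarith

/-- the distance in terms of a unit vector -/
theorem d_smul {n : ℕ} (e : E n) (t : ℝ) (z : E n) : d z ((t : ℂ) • e) = ‖1 - (t : ℂ) * inner ℂ z e‖ := by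
  unfold d
  rw [inner_smul_right]

/-- quasi-distance with the retraction -/
noncomputable def dr {n : ℕ} (z w : E n) : ℝ := d (ret z) (ret w)

theorem d_cont {n : ℕ} (w : E n) : Continuous (fun z : E n => d z w) := by
  unfold d
  fun_prop

theorem dr_meas {n : ℕ} (w : E n) : Measurable (fun z : E n => dr z w) := by
  unfold dr
  exact (d_cont _).measurable.comp ret_meas

theorem sigma_upper (n : ℕ) (hn : 1 ≤ n) : ∃ C : ℝ, 0 < C ∧ ∀ (z : E n) (r : ℝ), 0 < r →
    sigS n {ζ | dr ζ z < r} ≤ ENNReal.ofReal (C * r ^ n) := by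
  obtain ⟨C, hC, h⟩ := capS_upper n hn
  refine ⟨C * 2 ^ n, by positivity, fun z r hr => ?_⟩
  obtain ⟨e, he, hwe⟩ := exists_unit hn (ret z)
  have h1 := h e he (2 * r) (by linarith)
  have hm1 : MeasurableSet {ζ : E n | dr ζ z < r} := measurableSet_lt (dr_meas z) measurable_const
  have hm2 : MeasurableSet {ζ : E n | d ζ e < 2 * r} := measurableSet_lt (d_cont e).measurable measurable_const
  rw [sigS_apply _ _ hm2] at h1
  rw [sigS_apply _ _ hm1]
  refine (measure_mono ?_).trans (h1.trans (le_of_eq ?_))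
  · intro ζ hζ
    have hζ1 : ‖(ζ : E n)‖ = 1 := by simpa using ζ.2
    rw [mem_preimage, mem_ofPred_eq] at hζ ⊢
    unfold dr at hζ
    rw [ret_of_le _ hζ1.le, hwe, d_smul] at hζ
    refine (cap_comp ?_ (norm_nonneg _) (norm_ret_le z) hζ).2
    calc ‖inner ℂ (ζ : E n) e‖ ≤ ‖(ζ : E n)‖ * ‖e‖ := norm_inner_le_norm _ _
      _ ≤ 1 := by rw [hζ1, he, one_mul]
  · congr 1
    rw [mul_pow]
    ring

theorem sigma_lower (n : ℕ) (hn : 1 ≤ n) : ∃ c : ℝ, 0 < c ∧ ∀ (w : E n) (r : ℝ), 0 < r →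
    2 * s (ret w) ≤ r → r ≤ 10 → ENNReal.ofReal (c * r ^ n) ≤ sigS n {ζ | dr ζ w < r} := by
  obtain ⟨c, hc, h⟩ := capS_lower n hn
  refine ⟨c * (1 / 10) ^ n, by positivity, fun w r hr hw hr10 => ?_⟩
  obtain ⟨e, he, hwe⟩ := exists_unit hn (ret w)
  have h1 := h e he (r / 10) (by linarith) (by linarith)
  have hm1 : MeasurableSet {ζ : E n | dr ζ w < r} := measurableSet_lt (dr_meas w) measurable_const
  have hm2 : MeasurableSet {ζ : E n | d ζ e < r / 10} := measurableSet_lt (d_cont e).measurable measurable_const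
  rw [sigS_apply _ _ hm2] at h1
  rw [sigS_apply _ _ hm1]
  refine (le_of_eq ?_).trans (h1.trans (measure_mono ?_))
  · congr 1
    rw [show r / 10 = 1 / 10 * r by ring, mul_pow]
    ring
  · intro ζ hζ
    have hζ1 : ‖(ζ : E n)‖ = 1 := by simpa using ζ.2
    rw [mem_preimage, mem_ofPred_eq] at hζ ⊢
    unfold dr
    rw [ret_of_le _ hζ1.le, hwe, d_smul]
    have hr1 := norm_ret_le w
    have hr0 := norm_nonneg (ret w)
    set t := ‖ret w‖ with ht
    have hs : 1 - t ≤ s (ret w) := by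
      unfold s
      rw [← ht]
      nlinarith
    set a : ℂ := inner ℂ (ζ : E n) e with ha
    have hd : ‖1 - a‖ < r / 10 := hζ
    have h3 : (1 : ℂ) - (t : ℂ) * a = ((1 - t : ℝ) : ℂ) + (t : ℂ) * (1 - a) := by
      push_cast
      ring
    rw [h3]
    calc _ ≤ ‖((1 - t : ℝ) : ℂ)‖ + ‖(t : ℂ) * (1 - a)‖ := norm_add_le _ _
      _ ≤ (1 - t) + 1 * ‖1 - a‖ := by
        rw [Complex.norm_real, Real.norm_eq_abs, abs_of_nonneg (by linarith), norm_mul, Complex.norm_real,
          Real.norm_eq_abs, abs_of_nonneg hr0]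
        gcongr
      _ < r := by linarith

theorem V_upper (n : ℕ) (hn : 1 ≤ n) : ∃ C : ℝ, 0 < C ∧ ∀ (z : E n) (r : ℝ), 0 < r →
    (volume.restrict (ball (0 : E n) 1)) {w | dr w z < r} ≤ ENNReal.ofReal (C * r ^ (n + 1)) := by
  have hne : Nonempty (Fin n) := ⟨⟨0, hn⟩⟩
  have hnt : Nontrivial (E n) := inferInstance
  obtain ⟨C, hC, h⟩ := capS_upper n hn
  set v := (volume (ball (0 : E n) 1)).toReal with hv
  have hvf : volume (ball (0 : E n) 1) ≠ ⊤ := measure_ball_lt_top.ne
  have hv0 : 0 ≤ v := ENNReal.toReal_nonneg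
  refine ⟨C * 2 ^ n + v, by positivity, fun z r hr => ?_⟩
  have hm1 : MeasurableSet {w : E n | dr w z < r} := measurableSet_lt (dr_meas z) measurable_const
  rw [Measure.restrict_apply hm1]
  rcases lt_or_ge r 1 with hr1 | hr1
  · obtain ⟨e, he, hwe⟩ := exists_unit hn (ret z)
    have hm2 : MeasurableSet {ζ : E n | d ζ e < 2 * r} := measurableSet_lt (d_cont e).measurable measurable_const
    have hm3 : MeasurableSet ({w : E n | dr w z < r} ∩ ball (0 : E n) 1) := hm1.inter measurableSet_ball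
    have hm4 : MeasurableSet (Subtype.val ⁻¹' {ζ : E n | d ζ e < 2 * r} : Set (sphere (0 : E n) 1)) :=
      measurable_subtype_coe hm2
    have h2 := shell_upper (volume : Measure (E n))
      (({w : E n | dr w z < r} ∩ ball (0 : E n) 1).indicator (fun _ => (1 : ℝ≥0∞)))
      (measurable_const.indicator hm3)
      ((Subtype.val ⁻¹' {ζ : E n | d ζ e < 2 * r} : Set (sphere (0 : E n) 1)).indicator (fun _ => (1 : ℝ≥0∞)))
      (measurable_const.indicator hm4) r hr hr1 (by
        intro ζ t ht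
        have hζ1 : ‖(ζ : E n)‖ = 1 := by simpa using ζ.2
        by_cases hz : t • (ζ : E n) ∈ {w : E n | dr w z < r} ∩ ball (0 : E n) 1
        · obtain ⟨h3, h4⟩ := hz
          rw [mem_ball_zero_iff, norm_smul, hζ1, Real.norm_eq_abs, abs_of_pos ht, mul_one] at h4
          have hsm : t • (ζ : E n) = (t : ℂ) • (ζ : E n) := by
            ext i
            simp
          have hnm : ‖t • (ζ : E n)‖ ≤ 1 := by
            rw [norm_smul, hζ1, Real.norm_eq_abs, abs_of_pos ht, mul_one]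
            exact h4.le
          rw [mem_ofPred_eq] at h3
          unfold dr at h3
          rw [ret_of_le _ hnm, hwe, d_smul, hsm, inner_smul_left, Complex.conj_ofReal] at h3
          have hin : ‖inner ℂ (ζ : E n) e‖ ≤ 1 := by
            calc ‖inner ℂ (ζ : E n) e‖ ≤ ‖(ζ : E n)‖ * ‖e‖ := norm_inner_le_norm _ _
              _ ≤ 1 := by rw [hζ1, he, one_mul]
          have hr' := norm_ret_le z
          have hr0' := norm_nonneg (ret z)
          have h5 : ‖1 - ((‖ret z‖ * t : ℝ) : ℂ) * inner ℂ (ζ : E n) e‖ < r := by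
            refine lt_of_le_of_lt (le_of_eq ?_) h3
            push_cast
            ring_nf
          have h6 := cap_comp hin (by positivity) (by nlinarith) h5
          rw [indicator_of_mem (s := _ ∩ _) ⟨by
            rw [mem_ofPred_eq]
            unfold dr
            rw [ret_of_le _ hnm, hwe, d_smul, hsm, inner_smul_left, Complex.conj_ofReal]
            exact h3, by
            rw [mem_ball_zero_iff, norm_smul, hζ1, Real.norm_eq_abs, abs_of_pos ht, mul_one]
            exact h4⟩]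
          rw [indicator_of_mem (s := Ico (1 - r) 1) ⟨by nlinarith [h6.1], h4⟩]
          rw [indicator_of_mem (by exact h6.2)]
        · rw [indicator_of_notMem hz]
          exact zero_le)
    rw [lintegral_indicator hm3, setLIntegral_const, one_mul, lintegral_indicator hm4, setLIntegral_const,
      one_mul] at h2
    have h7 := h e he (2 * r) (by linarith)
    rw [sigS_apply _ _ hm2] at h7
    calc _ ≤ _ := h2
      _ ≤ ENNReal.ofReal r * ENNReal.ofReal (C * (2 * r) ^ n) := by gcongr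
      _ = ENNReal.ofReal (C * 2 ^ n * r ^ (n + 1)) := by
        rw [← ENNReal.ofReal_mul hr.le]
        congr 1
        rw [mul_pow, pow_succ]
        ring
      _ ≤ _ := by
        apply ENNReal.ofReal_le_ofReal
        have : 0 ≤ v * r ^ (n + 1) := by positivity
        nlinarith
  · calc _ ≤ volume (ball (0 : E n) 1) := measure_mono inter_subset_right
      _ = ENNReal.ofReal v := (ENNReal.ofReal_toReal hvf).symm
      _ ≤ _ := by
        apply ENNReal.ofReal_le_ofReal
        have h1 : (1 : ℝ) ≤ r ^ (n + 1) := one_le_pow₀ hr1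
        have : 0 ≤ C * 2 ^ n * r ^ (n + 1) := by positivity
        nlinarith

/-- the constants -/
noncomputable def Cup (n : ℕ) (hn : 1 ≤ n) : ℝ := (sigma_upper n hn).choose
noncomputable def clo (n : ℕ) (hn : 1 ≤ n) : ℝ := (sigma_lower n hn).choose
noncomputable def CVu (n : ℕ) (hn : 1 ≤ n) : ℝ := (V_upper n hn).choose

/-- the ball as a tent space -/
noncomputable def ts (n : ℕ) (hn : 1 ≤ n) : H262RU.TS (E n) where
  n := n
  d := dr
  s := fun z => s (ret z)
  σ := sigS n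
  V := volume.restrict (ball (0 : E n) 1)
  Cσ := Cup n hn
  cσ := clo n hn
  CV := CVu n hn
  n_pos := hn
  Cσ_pos := (sigma_upper n hn).choose_spec.1
  cσ_pos := (sigma_lower n hn).choose_spec.1
  CV_pos := (V_upper n hn).choose_spec.1
  d_symm := fun z w => d_comm _ _
  s_nonneg := fun z => s_nonneg _ (norm_ret_le z)
  s_le_one := fun z => s_le_one _
  s_le := fun z w => s_le _ _ (norm_ret_le z) (norm_ret_le w)
  tri := fun z v w => by
    have h := d_triangle _ _ _ (norm_ret_le z) (norm_ret_le v) (norm_ret_le w)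
    have h1 := d_nonneg (ret z) (ret v)
    have h2 := d_nonneg (ret v) (ret w)
    unfold dr
    linarith
  d_self := fun w => d_self _ (norm_ret_le w)
  d_le := fun z w => d_le_two _ _ (norm_ret_le z) (norm_ret_le w)
  d_meas := dr_meas
  s_meas := by
    unfold s
    exact measurable_const.sub ((ret_meas.norm).pow_const 2)
  σ_le := (sigma_upper n hn).choose_spec.2
  σ_ge := fun w r h1 h2 h3 => (sigma_lower n hn).choose_spec.2 w r (by linarith) h2 h3
  V_le := (V_upper n hn).choose_spec.2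

theorem ts_d (n : ℕ) (hn : 1 ≤ n) (z w : E n) (hz : ‖z‖ ≤ 1) (hw : ‖w‖ ≤ 1) :
    (ts n hn).d z w = ‖1 - inner ℂ z w‖ := by
  show dr z w = _
  unfold dr
  rw [ret_of_le z hz, ret_of_le w hw]
  rfl

theorem ts_s (n : ℕ) (hn : 1 ≤ n) (z : E n) (hz : ‖z‖ ≤ 1) : (ts n hn).s z = 1 - ‖z‖ ^ 2 := by
  show s (ret z) = _
  rw [ret_of_le z hz]
  rfl

end Pool.Agent.Helper633.Geo
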