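import Pool.Agent.Helper262.RU1

set_option autoImplicit false
open MeasureTheory Set Filter
open scoped ENNReal NNReal BigOperators

namespace Pool.Agent.Helper633.RC
open H262RU

variable {E : Type*} [MeasurableSpace E] (T : TS E)

/-- the Poisson-type kernel `s^(b-n) / d^b = kap^b / s^n` -/
noncomputable def PP (b : ℕ) (v ζ : E) : ℝ := T.kap v ζ ^ b / T.s v ^ T.n

theorem PP_nonneg (b : ℕ) (v ζ : E) : 0 ≤ PP T b v ζ :=
  div_nonneg (pow_nonneg (TS.kap_nonneg _ _) _) (pow_nonneg (T.s_nonneg v) _)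

theorem PP_meas (b : ℕ) (v : E) : Measurable (fun ζ => PP T b v ζ) :=
  ((T.kap_meas v).pow_const b).div_const _

theorem meas_ball (z : E) (r : ℝ) : MeasurableSet {ζ | T.d ζ z < r} :=
  measurableSet_lt (T.d_meas z) measurable_const

/-- mass of the kernel -/
theorem PP_mass (b : ℕ) (hb : T.n + 1 ≤ b) (v : E) (hv : 0 < T.s v) :
    ∫⁻ ζ, ENNReal.ofReal (PP T b v ζ) ∂T.σ ≤ ENNReal.ofReal (T.Ci b) := by
  have h := T.int_kap b hb hv
  have hsn : 0 < T.s v ^ T.n := pow_pos hv _
  have h1 : ∀ ζ, ENNReal.ofReal (PP T b v ζ) =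
      ENNReal.ofReal (T.kap v ζ ^ b) * ENNReal.ofReal ((T.s v ^ T.n)⁻¹) := by
    intro ζ
    rw [← ENNReal.ofReal_mul (pow_nonneg (TS.kap_nonneg _ _) _)]
    rfl
  simp_rw [h1]
  rw [lintegral_mul_const' _ _ ENNReal.ofReal_ne_top]
  calc _ ≤ ENNReal.ofReal (3 ^ b * (2 ^ (b+1) * T.Cσ) * T.s v ^ T.n) * ENNReal.ofReal ((T.s v ^ T.n)⁻¹) := by
        gcongr
    _ = ENNReal.ofReal (T.Ci b) := by
      have := T.Cσ_pos
      rw [← ENNReal.ofReal_mul (by positivity)]
      congr 1
      unfold TS.Ci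
      field_simp

/-- a radius at which the average is large -/
theorem exists_radius (b : ℕ) (hb : T.n + 1 ≤ b) (v : E) (hv : 0 < T.s v) (h : E → ℝ≥0∞)
    (hh : Measurable h) (t : ℝ) (ht : 0 < t)
    (hge : ENNReal.ofReal t ≤ ∫⁻ ζ, h ζ * ENNReal.ofReal (PP T b v ζ) ∂T.σ) :
    ∃ r : ℝ, T.s v ≤ r ∧ ENNReal.ofReal ((1 / 2) ^ (b + 2) * t * r ^ T.n) ≤
      ∫⁻ ζ in {ζ | T.d ζ v < r}, h ζ ∂T.σ := by
  by_contra hcon
  push Not at hcon
  set s := T.s v with hs
  have hmeas : ∀ r, MeasurableSet {ζ | T.d ζ v < r} := fun r => meas_ball T v r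
  have hpt : ∀ ζ, ENNReal.ofReal (PP T b v ζ) ≤
      ∑' j : ℕ, ENNReal.ofReal (2 ^ b * (1/2) ^ (j * b) * (s ^ T.n)⁻¹) *
        (Set.indicator {ζ | T.d ζ v < 2 ^ j * s} (fun _ => (1:ℝ≥0∞)) ζ) := by
    intro ζ
    have hd := T.d_nonneg ζ v
    have hdp : 0 < T.d ζ v := TS.d_pos hv ζ
    have hex : ∃ j : ℕ, T.d ζ v < 2 ^ j * s := by
      obtain ⟨j, hj⟩ := pow_unbounded_of_one_lt (T.d ζ v / s) (by norm_num : (1:ℝ) < 2)
      exact ⟨j, by rwa [div_lt_iff₀ hv] at hj⟩
    classical
    let j := Nat.find hex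
    have hj : T.d ζ v < 2 ^ j * s := Nat.find_spec hex
    refine le_trans ?_ (ENNReal.le_tsum j)
    have hmem : ζ ∈ {ζ | T.d ζ v < 2 ^ j * s} := hj
    rw [Set.indicator_of_mem hmem, mul_one]
    apply ENNReal.ofReal_le_ofReal
    unfold PP
    rw [div_eq_mul_inv]
    refine mul_le_mul_of_nonneg_right ?_ (by positivity)
    rw [show (2:ℝ) ^ b * (1/2) ^ (j * b) = (2 * (1/2) ^ j) ^ b by rw [mul_pow, ← pow_mul]]
    refine pow_le_pow_left₀ (TS.kap_nonneg _ _) ?_ b
    rcases Nat.eq_zero_or_pos j with h0 | hpos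
    · rw [h0]
      simpa using TS.kap_le_two v ζ
    · obtain ⟨i, hi⟩ : ∃ i, j = i + 1 := ⟨j - 1, by omega⟩
      have hmin : ¬ T.d ζ v < 2 ^ i * s := Nat.find_min hex (by omega)
      push Not at hmin
      rw [hi, pow_succ]
      unfold TS.kap
      rw [div_le_iff₀ hdp]
      have : (1/2:ℝ)^i * 2^i = 1 := by rw [← mul_pow]; norm_num
      have h5 : (0:ℝ) < (1/2)^i := by positivity
      have h6 := mul_le_mul_of_nonneg_left hmin h5.le
      calc T.s v = (1/2:ℝ)^i * 2^i * s := by rw [this, one_mul]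
        _ ≤ (1/2)^i * T.d ζ v := by rw [mul_assoc]; exact h6
        _ = _ := by ring
  have hup : ∫⁻ ζ, h ζ * ENNReal.ofReal (PP T b v ζ) ∂T.σ ≤ ENNReal.ofReal (t / 2) := by
    calc ∫⁻ ζ, h ζ * ENNReal.ofReal (PP T b v ζ) ∂T.σ
        ≤ ∫⁻ ζ, ∑' j : ℕ, h ζ * (ENNReal.ofReal (2 ^ b * (1/2) ^ (j * b) * (s ^ T.n)⁻¹) *
          (Set.indicator {ζ | T.d ζ v < 2 ^ j * s} (fun _ => (1:ℝ≥0∞)) ζ)) ∂T.σ := by
          refine lintegral_mono fun ζ => ?_
          simp only
          rw [ENNReal.tsum_mul_left]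
          gcongr
          exact hpt ζ
      _ = ∑' j : ℕ, ENNReal.ofReal (2 ^ b * (1/2) ^ (j * b) * (s ^ T.n)⁻¹) *
          ∫⁻ ζ in {ζ | T.d ζ v < 2 ^ j * s}, h ζ ∂T.σ := by
          rw [lintegral_tsum]
          · congr 1; ext j
            rw [← lintegral_indicator (hmeas _), ← lintegral_const_mul _ (hh.indicator (hmeas _))]
            refine lintegral_congr fun ζ => ?_
            by_cases hζ : ζ ∈ {ζ | T.d ζ v < 2 ^ j * s}
            · rw [indicator_of_mem hζ, indicator_of_mem hζ]; ring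
            · rw [indicator_of_notMem hζ, indicator_of_notMem hζ]; simp
          · intro j
            exact (hh.mul ((measurable_const.indicator (hmeas _)).const_mul _)).aemeasurable
      _ ≤ ∑' j : ℕ, ENNReal.ofReal ((t / 4) * (1/2) ^ j) := by
          apply ENNReal.tsum_le_tsum
          intro j
          have h1 := (hcon (2 ^ j * s) (by
            have : (1:ℝ) ≤ 2 ^ j := one_le_pow₀ (by norm_num)
            nlinarith)).le
          calc _ ≤ ENNReal.ofReal (2 ^ b * (1/2) ^ (j * b) * (s ^ T.n)⁻¹) *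
                ENNReal.ofReal ((1 / 2) ^ (b + 2) * t * (2 ^ j * s) ^ T.n) := by gcongr
            _ = ENNReal.ofReal (2 ^ b * (1/2) ^ (j * b) * (s ^ T.n)⁻¹ *
                ((1 / 2) ^ (b + 2) * t * (2 ^ j * s) ^ T.n)) := (ENNReal.ofReal_mul (by positivity)).symm
            _ ≤ _ := by
                apply ENNReal.ofReal_le_ofReal
                obtain ⟨e, he⟩ := Nat.exists_eq_add_of_le hb
                have hsn : 0 < s ^ T.n := pow_pos hv _
                have h2 : (1/2:ℝ) ^ (j * b) * (2 ^ j) ^ T.n = (1/2) ^ j * (1/2) ^ (j * e) := by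
                  rw [he]
                  rw [show j * (T.n + 1 + e) = j * T.n + (j + j * e) by ring, pow_add, pow_add, ← pow_mul]
                  have : (1/2:ℝ) ^ (j * T.n) * 2 ^ (j * T.n) = 1 := by rw [← mul_pow]; norm_num
                  calc (1/2:ℝ) ^ (j * T.n) * ((1/2) ^ j * (1/2) ^ (j * e)) * 2 ^ (j * T.n)
                      = ((1/2:ℝ) ^ (j * T.n) * 2 ^ (j * T.n)) * ((1/2) ^ j * (1/2) ^ (j * e)) := by ring
                    _ = _ := by rw [this, one_mul]
                have h3 : (1/2:ℝ) ^ (j * e) ≤ 1 := pow_le_one₀ (by norm_num) (by norm_num)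
                have h4 : (2:ℝ) ^ b * (1/2) ^ (b + 2) = 1 / 4 := by
                  rw [pow_add, ← mul_assoc, ← mul_pow]; norm_num
                have h5 : (2:ℝ) ^ b * (1/2) ^ (j * b) * (s ^ T.n)⁻¹ *
                    ((1 / 2) ^ (b + 2) * t * (2 ^ j * s) ^ T.n) =
                    ((2:ℝ) ^ b * (1/2) ^ (b + 2)) * t * ((1/2:ℝ) ^ (j * b) * (2 ^ j) ^ T.n) *
                      ((s ^ T.n)⁻¹ * s ^ T.n) := by
                  rw [mul_pow (2 ^ j) s]; ring
                rw [h5, h4, h2, inv_mul_cancel₀ hsn.ne', mul_one]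
                have h6 : (0:ℝ) < (1/2)^j := by positivity
                calc 1 / 4 * t * ((1/2:ℝ) ^ j * (1/2) ^ (j * e)) ≤ 1 / 4 * t * ((1/2:ℝ) ^ j * 1) := by gcongr
                  _ = _ := by ring
      _ = ENNReal.ofReal (t / 2) := by
          rw [← ENNReal.ofReal_tsum_of_nonneg]
          · rw [tsum_mul_left, tsum_geometric_two]
            congr 1; ring
          · intro j; positivity
          · exact (summable_geometric_two).mul_left _
  have h1 := hge.trans hup
  rw [ENNReal.ofReal_le_ofReal_iff (by linarith)] at h1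
  linarith

/-- the V-lemma (weak type bound) -/
theorem vlemma {ι : Type*} (b : ℕ) (hb : T.n + 1 ≤ b) (I : Finset ι) (v : ι → E) (μ : ι → ℝ)
    (hμ : ∀ i ∈ I, 0 ≤ μ i) (hv : ∀ i ∈ I, 0 < T.s (v i)) (ε : ℝ) (hε : 0 ≤ ε)
    (hmass : ∀ (z : E) (r : ℝ), 0 < r → ∀ J ⊆ I, (∀ i ∈ J, T.d (v i) z < r) →
      ∑ i ∈ J, μ i ≤ ε * r ^ T.n)
    (h : E → ℝ≥0∞) (hh : Measurable h) (t : ℝ) (ht : 0 < t)
    (hge : ∀ i ∈ I, ENNReal.ofReal t ≤ ∫⁻ ζ, h ζ * ENNReal.ofReal (PP T b (v i) ζ) ∂T.σ) :
    ENNReal.ofReal t * ENNReal.ofReal (∑ i ∈ I, μ i) ≤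
      ENNReal.ofReal (12 ^ T.n * 2 ^ (b + 2) * ε) * ∫⁻ ζ, h ζ ∂T.σ := by
  classical
  have hex : ∀ i : ι, ∃ r : ℝ, i ∈ I → T.s (v i) ≤ r ∧ ENNReal.ofReal ((1 / 2) ^ (b + 2) * t * r ^ T.n) ≤
      ∫⁻ ζ in {ζ | T.d ζ (v i) < r}, h ζ ∂T.σ := by
    intro i
    by_cases hi : i ∈ I
    · obtain ⟨r, hr⟩ := exists_radius T b hb (v i) (hv i hi) h hh t ht (hge i hi)
      exact ⟨r, fun _ => hr⟩
    · exact ⟨0, fun h => absurd h hi⟩
  choose r hr using hex
  have hrpos : ∀ i ∈ I, 0 < r i := fun i hi => (hv i hi).trans_le (hr i hi).1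
  set B : ι → Set E := fun i => {ζ | T.d ζ (v i) < r i} with hB
  have hBne : ∀ i ∈ (I : Set ι), (B i).Nonempty := by
    intro i hi
    rw [nonempty_iff_ne_empty]
    intro h0
    have h1 := (hr i hi).2
    have h2 : {ζ | T.d ζ (v i) < r i} = ∅ := h0
    rw [h2] at h1
    simp only [Measure.restrict_empty, lintegral_zero_measure, nonpos_iff_eq_zero,
      ENNReal.ofReal_eq_zero] at h1
    have := hrpos i hi
    have : 0 < (1 / 2) ^ (b + 2) * t * r i ^ T.n := by positivity
    linarith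
  obtain ⟨R, hR⟩ : ∃ R, ∀ i ∈ (I : Set ι), r i ≤ R := by
    obtain ⟨R, hR⟩ := (I.image r).bddAbove
    exact ⟨R, fun i hi => hR (by simpa using ⟨i, hi, rfl⟩)⟩
  obtain ⟨u, hut, hdis, hcov⟩ := Vitali.exists_disjoint_subfamily_covering_enlargement B (I : Set ι) r 2
    (by norm_num) (fun i hi => (hrpos i hi).le) R hR hBne
  have huf : u.Finite := (I.finite_toSet).subset hut
  set J : Finset ι := huf.toFinset with hJ
  have hJI : J ⊆ I := fun i hi => by
    have : i ∈ u := by simpa [hJ] using hi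
    exact_mod_cast hut this
  -- each index is attached to one in `J`
  have hatt : ∀ i ∈ I, ∃ j ∈ J, T.d (v i) (v j) < 12 * r j := by
    intro i hi
    obtain ⟨j, hju, ⟨ζ, hζ1, hζ2⟩, hle⟩ := hcov i hi
    refine ⟨j, by simpa [hJ] using hju, ?_⟩
    have h1 := T.tri (v i) ζ (v j)
    have h2 : T.d ζ (v i) < r i := hζ1
    have h3 : T.d ζ (v j) < r j := hζ2
    rw [T.d_symm ζ (v i)] at h2
    linarith
  have hrJ : ∀ j ∈ J, 0 < r j := fun j hj => hrpos j (hJI hj)
  have hsum : ∑ i ∈ I, μ i ≤ ∑ j ∈ J, ε * (12 * r j) ^ T.n := by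
    calc ∑ i ∈ I, μ i ≤ ∑ i ∈ I, ∑ j ∈ J, (if T.d (v i) (v j) < 12 * r j then μ i else 0) := by
          refine Finset.sum_le_sum fun i hi => ?_
          obtain ⟨j, hj, hij⟩ := hatt i hi
          calc μ i = (if T.d (v i) (v j) < 12 * r j then μ i else 0) := by rw [if_pos hij]
            _ ≤ _ := Finset.single_le_sum (f := fun j => if T.d (v i) (v j) < 12 * r j then μ i else 0)
              (fun j _ => by
                show 0 ≤ (if T.d (v i) (v j) < 12 * r j then μ i else 0)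
                split_ifs
                · exact hμ i hi
                · exact le_rfl) hj
      _ = ∑ j ∈ J, ∑ i ∈ I, (if T.d (v i) (v j) < 12 * r j then μ i else 0) := Finset.sum_comm
      _ ≤ _ := by
          refine Finset.sum_le_sum fun j hj => ?_
          rw [← Finset.sum_filter]
          refine hmass (v j) (12 * r j) (by linarith [hrJ j hj]) _ (Finset.filter_subset _ _) ?_
          intro i hi
          exact (Finset.mem_filter.mp hi).2
  have hc : (2:ℝ) ^ (b + 2) * (1 / 2) ^ (b + 2) = 1 := by rw [← mul_pow]; norm_num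
  calc ENNReal.ofReal t * ENNReal.ofReal (∑ i ∈ I, μ i)
      ≤ ENNReal.ofReal t * ENNReal.ofReal (∑ j ∈ J, ε * (12 * r j) ^ T.n) := by gcongr
    _ = ∑ j ∈ J, ENNReal.ofReal (12 ^ T.n * 2 ^ (b + 2) * ε) *
          ENNReal.ofReal ((1 / 2) ^ (b + 2) * t * r j ^ T.n) := by
        rw [ENNReal.ofReal_sum_of_nonneg (fun j hj => by have := hrJ j hj; positivity), Finset.mul_sum]
        refine Finset.sum_congr rfl fun j hj => ?_
        have := hrJ j hj
        rw [← ENNReal.ofReal_mul ht.le, ← ENNReal.ofReal_mul (by positivity)]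
        congr 1
        rw [mul_pow]
        calc t * (ε * (12 ^ T.n * r j ^ T.n)) = 12 ^ T.n * ε * (t * r j ^ T.n) * 1 := by ring
          _ = 12 ^ T.n * ε * (t * r j ^ T.n) * ((2:ℝ) ^ (b + 2) * (1 / 2) ^ (b + 2)) := by rw [hc]
          _ = _ := by ring
    _ ≤ ∑ j ∈ J, ENNReal.ofReal (12 ^ T.n * 2 ^ (b + 2) * ε) *
          ∫⁻ ζ in B j, h ζ ∂T.σ := by
        refine Finset.sum_le_sum fun j hj => ?_
        gcongr
        exact (hr j (hJI hj)).2
    _ = ENNReal.ofReal (12 ^ T.n * 2 ^ (b + 2) * ε) * ∫⁻ ζ in ⋃ j ∈ J, B j, h ζ ∂T.σ := by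
        rw [← Finset.mul_sum, lintegral_biUnion_finset]
        · intro i hi j hj hij
          exact hdis (by simpa [hJ] using hi) (by simpa [hJ] using hj) hij
        · intro j _
          exact meas_ball T (v j) (r j)
    _ ≤ _ := by
        gcongr
        exact Measure.restrict_le_self

theorem layerA (y : ℝ≥0∞) :
    y ^ 2 ≤ ∫⁻ l in Ioi (0:ℝ), ({l : ℝ | ENNReal.ofReal l < y}.indicator (fun l => ENNReal.ofReal (2 * l)) l) := by
  have hreal : ∀ r : ℝ, 0 ≤ r → ENNReal.ofReal r ≤ y → ENNReal.ofReal (r ^ 2) ≤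
      ∫⁻ l in Ioi (0:ℝ), ({l : ℝ | ENNReal.ofReal l < y}.indicator (fun l => ENNReal.ofReal (2 * l)) l) := by
    intro r hr hry
    have h1 : ∫⁻ l in Ioo (0:ℝ) r, ENNReal.ofReal (2 * l) = ENNReal.ofReal (r ^ 2) := by
      rw [← ofReal_integral_eq_lintegral_ofReal]
      · congr 1
        rw [← integral_Ioc_eq_integral_Ioo, ← intervalIntegral.integral_of_le hr,
          intervalIntegral.integral_const_mul, integral_id]
        ring
      · apply IntegrableOn.mono_set (t := Icc 0 r) _ Ioo_subset_Icc_self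
        exact (continuous_const.mul continuous_id).continuousOn.integrableOn_Icc
      · refine (ae_restrict_iff' measurableSet_Ioo).mpr (Eventually.of_forall fun l hl => ?_)
        have := hl.1
        show 0 ≤ 2 * l
        linarith
    rw [← h1]
    rw [← lintegral_indicator measurableSet_Ioo, ← lintegral_indicator measurableSet_Ioi]
    refine lintegral_mono fun l => ?_
    by_cases hl : l ∈ Ioo (0:ℝ) r
    · rw [indicator_of_mem hl, indicator_of_mem (show l ∈ Ioi (0:ℝ) from hl.1), indicator_of_mem]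
      refine lt_of_lt_of_le ?_ hry
      exact (ENNReal.ofReal_lt_ofReal_iff (hl.1.trans hl.2)).mpr hl.2
    · rw [indicator_of_notMem hl]
      exact zero_le
  rcases eq_or_ne y ⊤ with hy | hy
  · rw [hy] at hreal ⊢
    have h2 : ∀ m : ℕ, (m : ℝ≥0∞) ≤ ∫⁻ l in Ioi (0:ℝ), ({l : ℝ | ENNReal.ofReal l < ⊤}.indicator
        (fun l => ENNReal.ofReal (2 * l)) l) := by
      intro m
      refine le_trans ?_ (hreal m (Nat.cast_nonneg m) le_top)
      rw [← ENNReal.ofReal_natCast]
      apply ENNReal.ofReal_le_ofReal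
      rcases Nat.eq_zero_or_pos m with h0 | h0
      · rw [h0]; simp
      · have : (1:ℝ) ≤ m := by exact_mod_cast h0
        nlinarith
    have h3 : ∫⁻ l in Ioi (0:ℝ), ({l : ℝ | ENNReal.ofReal l < ⊤}.indicator
        (fun l => ENNReal.ofReal (2 * l)) l) = ⊤ := by
      refine ENNReal.eq_top_of_forall_nnreal_le fun q => ?_
      obtain ⟨m, hm⟩ := exists_nat_gt q
      refine le_trans ?_ (h2 m)
      exact_mod_cast hm.le
    rw [h3]
    exact le_top
  · have h4 := hreal y.toReal ENNReal.toReal_nonneg (by rw [ENNReal.ofReal_toReal hy])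
    rwa [ENNReal.ofReal_pow ENNReal.toReal_nonneg, ENNReal.ofReal_toReal hy] at h4

theorem layerB (x : ℝ≥0∞) (c : ℝ) (hc : 0 < c) :
    ∫⁻ l in Ioi (0:ℝ), ({l : ℝ | ENNReal.ofReal (c * l) < x}.indicator (fun _ => (1:ℝ≥0∞)) l) ≤
      x * ENNReal.ofReal c⁻¹ := by
  rcases eq_or_ne x ⊤ with hx | hx
  · rw [hx, ENNReal.top_mul]
    · exact le_top
    · rw [Ne, ENNReal.ofReal_eq_zero, not_le]
      positivity
  · have hm : MeasurableSet {l : ℝ | ENNReal.ofReal (c * l) < x} :=
      measurableSet_lt (by fun_prop) measurable_const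
    rw [lintegral_indicator hm, setLIntegral_const, one_mul, Measure.restrict_apply hm]
    have h1 : {l : ℝ | ENNReal.ofReal (c * l) < x} ∩ Ioi 0 ⊆ Ioo 0 (x.toReal * c⁻¹) := by
      rintro l ⟨h1, h2⟩
      refine ⟨h2, ?_⟩
      rw [mem_ofPred_eq] at h1
      have hl : 0 < l := h2
      rw [← ENNReal.ofReal_toReal hx, ENNReal.ofReal_lt_ofReal_iff_of_nonneg (by positivity)] at h1
      rw [← div_eq_mul_inv, lt_div_iff₀ hc]
      linarith
    refine (measure_mono h1).trans ?_
    rw [Real.volume_Ioo, sub_zero, ENNReal.ofReal_mul ENNReal.toReal_nonneg, ENNReal.ofReal_toReal hx]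

/-- the Carleson embedding -/
theorem carleson {ι : Type*} (b : ℕ) (hb : T.n + 1 ≤ b) (I : Finset ι) (v : ι → E) (μ : ι → ℝ)
    (hμ : ∀ i ∈ I, 0 ≤ μ i) (hv : ∀ i ∈ I, 0 < T.s (v i)) (ε : ℝ) (hε : 0 ≤ ε)
    (hmass : ∀ (z : E) (r : ℝ), 0 < r → ∀ J ⊆ I, (∀ i ∈ J, T.d (v i) z < r) →
      ∑ i ∈ J, μ i ≤ ε * r ^ T.n)
    (x : E → ℝ≥0∞) (hx : Measurable x) (y : ι → ℝ≥0∞)
    (hy : ∀ i ∈ I, y i ≤ ∫⁻ ζ, x ζ * ENNReal.ofReal (PP T b (v i) ζ) ∂T.σ) :
    ∑ i ∈ I, ENNReal.ofReal (μ i) * y i ^ 2 ≤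
      ENNReal.ofReal (8 * T.Ci b * 12 ^ T.n * 2 ^ (b + 2) * ε) * ∫⁻ ζ, x ζ ^ 2 ∂T.σ := by
  classical
  have hCi := T.Ci_pos b
  set K : ℝ := 12 ^ T.n * 2 ^ (b + 2) * ε with hK
  have hK0 : 0 ≤ K := by positivity
  set c : ℝ := (2 * T.Ci b)⁻¹ with hc
  have hc0 : 0 < c := by positivity
  set Sx : ℝ → Set E := fun l => {ζ | ENNReal.ofReal (c * l) < x ζ} with hSx
  have hSxm : ∀ l, MeasurableSet (Sx l) := fun l => measurableSet_lt measurable_const hx
  -- the weak type bound at height `l`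
  have hweak : ∀ l : ℝ, 0 < l → ENNReal.ofReal (2 * l) *
      ENNReal.ofReal (∑ i ∈ I.filter (fun i => ENNReal.ofReal l < y i), μ i) ≤
      4 * (ENNReal.ofReal K * ∫⁻ ζ, (Sx l).indicator x ζ ∂T.σ) := by
    intro l hl
    have h1 := vlemma T b hb (I.filter (fun i => ENNReal.ofReal l < y i)) v μ
      (fun i hi => hμ i (Finset.mem_filter.mp hi).1) (fun i hi => hv i (Finset.mem_filter.mp hi).1) ε hε
      (fun z r hr J hJ h => hmass z r hr J (hJ.trans (Finset.filter_subset _ _)) h)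
      ((Sx l).indicator x) (hx.indicator (hSxm l)) (l / 2) (by linarith) (by
        intro i hi
        obtain ⟨hiI, hil⟩ := Finset.mem_filter.mp hi
        have hsplit : ∫⁻ ζ, x ζ * ENNReal.ofReal (PP T b (v i) ζ) ∂T.σ ≤
            ENNReal.ofReal (l / 2) + ∫⁻ ζ, (Sx l).indicator x ζ * ENNReal.ofReal (PP T b (v i) ζ) ∂T.σ := by
          calc _ ≤ ∫⁻ ζ, (ENNReal.ofReal (c * l) * ENNReal.ofReal (PP T b (v i) ζ) +
                (Sx l).indicator x ζ * ENNReal.ofReal (PP T b (v i) ζ)) ∂T.σ := by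
                refine lintegral_mono fun ζ => ?_
                by_cases hζ : ζ ∈ Sx l
                · rw [indicator_of_mem hζ]
                  exact le_add_self
                · rw [indicator_of_notMem hζ, zero_mul, add_zero]
                  gcongr
                  exact not_lt.mp hζ
            _ = ENNReal.ofReal (c * l) * ∫⁻ ζ, ENNReal.ofReal (PP T b (v i) ζ) ∂T.σ +
                ∫⁻ ζ, (Sx l).indicator x ζ * ENNReal.ofReal (PP T b (v i) ζ) ∂T.σ := by
                rw [lintegral_add_left, lintegral_const_mul' _ _ ENNReal.ofReal_ne_top]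
                exact (PP_meas T b (v i)).ennreal_ofReal.const_mul _
            _ ≤ _ := by
                gcongr
                calc _ ≤ ENNReal.ofReal (c * l) * ENNReal.ofReal (T.Ci b) := by
                      gcongr
                      exact PP_mass T b hb (v i) (hv i hiI)
                  _ = ENNReal.ofReal (l / 2) := by
                      rw [← ENNReal.ofReal_mul (by positivity)]
                      congr 1
                      rw [hc]
                      field_simp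
        have h2 := (hil.trans_le (hy i hiI)).trans_le hsplit
        rw [show l = l / 2 + l / 2 by ring, ENNReal.ofReal_add (by linarith) (by linarith)] at h2
        rw [show l / 2 + l / 2 = l by ring] at h2
        exact ((ENNReal.add_lt_add_iff_left ENNReal.ofReal_ne_top).mp h2).le)
    rw [← hK] at h1
    calc _ = 4 * (ENNReal.ofReal (l / 2) *
          ENNReal.ofReal (∑ i ∈ I.filter (fun i => ENNReal.ofReal l < y i), μ i)) := by
          rw [show (2:ℝ) * l = 4 * (l / 2) by ring, ENNReal.ofReal_mul (by norm_num)]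
          rw [show ENNReal.ofReal 4 = 4 by norm_num]
          ring
      _ ≤ _ := by gcongr
  -- layer cake
  have hsm : ∀ i, MeasurableSet {l : ℝ | ENNReal.ofReal l < y i} := fun i =>
    measurableSet_lt (by fun_prop) measurable_const
  have h2m : Measurable (fun l : ℝ => ENNReal.ofReal (2 * l)) := by fun_prop
  calc ∑ i ∈ I, ENNReal.ofReal (μ i) * y i ^ 2
      ≤ ∑ i ∈ I, ENNReal.ofReal (μ i) * ∫⁻ l in Ioi (0:ℝ), ({l : ℝ | ENNReal.ofReal l < y i}.indicator
          (fun l => ENNReal.ofReal (2 * l)) l) := by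
        refine Finset.sum_le_sum fun i _ => ?_
        gcongr
        exact layerA (y i)
    _ = ∫⁻ l in Ioi (0:ℝ), ∑ i ∈ I, ENNReal.ofReal (μ i) * ({l : ℝ | ENNReal.ofReal l < y i}.indicator
          (fun l => ENNReal.ofReal (2 * l)) l) := by
        rw [lintegral_finsetSum]
        · refine Finset.sum_congr rfl fun i _ => ?_
          rw [lintegral_const_mul' _ _ ENNReal.ofReal_ne_top]
        · intro i _
          exact (h2m.indicator (hsm i)).const_mul _
    _ ≤ ∫⁻ l in Ioi (0:ℝ), 4 * (ENNReal.ofReal K * ∫⁻ ζ, (Sx l).indicator x ζ ∂T.σ) := by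
        refine setLIntegral_mono' measurableSet_Ioi fun l hl => ?_
        refine le_trans (le_of_eq ?_) (hweak l hl)
        rw [ENNReal.ofReal_sum_of_nonneg (fun i hi => hμ i (Finset.mem_filter.mp hi).1), Finset.mul_sum,
          Finset.sum_filter]
        refine Finset.sum_congr rfl fun i _ => ?_
        by_cases h : ENNReal.ofReal l < y i
        · rw [if_pos h, indicator_of_mem (by exact h), mul_comm]
        · rw [if_neg h, indicator_of_notMem (by exact h), mul_zero]
    _ = 4 * (ENNReal.ofReal K * ∫⁻ l in Ioi (0:ℝ), ∫⁻ ζ, (Sx l).indicator x ζ ∂T.σ) := by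
        rw [lintegral_const_mul' _ _ (by norm_num), lintegral_const_mul' _ _ ENNReal.ofReal_ne_top]
    _ = 4 * (ENNReal.ofReal K * ∫⁻ ζ, (∫⁻ l in Ioi (0:ℝ), (Sx l).indicator x ζ) ∂T.σ) := by
        rw [lintegral_lintegral_swap]
        apply Measurable.aemeasurable
        have hset : MeasurableSet {p : ℝ × E | ENNReal.ofReal (c * p.1) < x p.2} :=
          measurableSet_lt (by fun_prop) (hx.comp measurable_snd)
        have : Function.uncurry (fun (l : ℝ) (ζ : E) => (Sx l).indicator x ζ) =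
            {p : ℝ × E | ENNReal.ofReal (c * p.1) < x p.2}.indicator (fun p => x p.2) := by
          funext p
          rfl
        rw [this]
        exact (hx.comp measurable_snd).indicator hset
    _ ≤ 4 * (ENNReal.ofReal K * ∫⁻ ζ, x ζ ^ 2 * ENNReal.ofReal c⁻¹ ∂T.σ) := by
        gcongr with ζ
        have h3 : ∀ l, (Sx l).indicator x ζ =
            x ζ * ({l : ℝ | ENNReal.ofReal (c * l) < x ζ}.indicator (fun _ => (1:ℝ≥0∞)) l) := by
          intro l
          by_cases h : ENNReal.ofReal (c * l) < x ζ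
          · rw [indicator_of_mem (by exact h), indicator_of_mem (by exact h), mul_one]
          · rw [indicator_of_notMem (by exact h), indicator_of_notMem (by exact h), mul_zero]
        simp_rw [h3]
        rw [lintegral_const_mul]
        · calc _ ≤ x ζ * (x ζ * ENNReal.ofReal c⁻¹) := by
                gcongr
                exact layerB (x ζ) c hc0
            _ = _ := by ring
        · exact measurable_const.indicator (measurableSet_lt (by fun_prop) measurable_const)
    _ = _ := by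
        rw [lintegral_mul_const' _ _ ENNReal.ofReal_ne_top, hc, inv_inv]
        rw [show (8:ℝ) * T.Ci b * 12 ^ T.n * 2 ^ (b + 2) * ε = 4 * (K * (2 * T.Ci b)) by rw [hK]; ring,
          ENNReal.ofReal_mul (by norm_num : (0:ℝ) ≤ 4), ENNReal.ofReal_mul hK0 (q := 2 * T.Ci b),
          show ENNReal.ofReal 4 = 4 by norm_num]
        ring

end Pool.Agent.Helper633.RC
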