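import Pool.Agent.Helper633.SubMean

set_option autoImplicit false
open MeasureTheory Metric Set Filter Topology Real
open scoped ENNReal Pointwise

namespace Pool.Agent.Helper633.Geo
open Pool.Agent.Helper633.SubMean

section abs
variable {H : Type*} [NormedAddCommGroup H] [InnerProductSpace ℂ H]

/-- the nonisotropic quasi-distance `|1 - <z,w>|` -/
noncomputable def d (z w : H) : ℝ := ‖1 - inner ℂ z w‖

/-- depth -/
noncomputable def s (z : H) : ℝ := 1 - ‖z‖ ^ 2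

theorem d_nonneg (z w : H) : 0 ≤ d z w := norm_nonneg _

theorem d_comm (z w : H) : d z w = d w z := by
  unfold d
  rw [← inner_conj_symm w z, ← RCLike.norm_conj (1 - inner ℂ z w)]
  simp

theorem d_self (z : H) (hz : ‖z‖ ≤ 1) : d z z = s z := by
  unfold d s
  rw [inner_self_eq_norm_sq_to_K]
  have h1 : (1 : ℂ) - ((‖z‖ : ℝ) : ℂ) ^ 2 = ((1 - ‖z‖ ^ 2 : ℝ) : ℂ) := by push_cast; ring
  have h2 : (0 : ℝ) ≤ 1 - ‖z‖ ^ 2 := by nlinarith [norm_nonneg z]
  calc ‖(1 : ℂ) - ((‖z‖ : ℝ) : ℂ) ^ 2‖ = ‖((1 - ‖z‖ ^ 2 : ℝ) : ℂ)‖ := by rw [h1]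
    _ = 1 - ‖z‖ ^ 2 := by rw [Complex.norm_real, Real.norm_eq_abs, abs_of_nonneg h2]

omit [InnerProductSpace ℂ H] in
theorem s_nonneg (z : H) (hz : ‖z‖ ≤ 1) : 0 ≤ s z := by
  unfold s
  nlinarith [norm_nonneg z]

omit [InnerProductSpace ℂ H] in
theorem s_le_one (z : H) : s z ≤ 1 := by
  unfold s
  nlinarith [sq_nonneg ‖z‖]

theorem one_sub_norm_le_d (z w : H) (hw : ‖w‖ ≤ 1) : 1 - ‖z‖ ≤ d z w := by
  unfold d
  have h1 : ‖inner ℂ z w‖ ≤ ‖z‖ := by
    calc ‖inner ℂ z w‖ ≤ ‖z‖ * ‖w‖ := norm_inner_le_norm _ _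
      _ ≤ ‖z‖ * 1 := by gcongr
      _ = ‖z‖ := mul_one _
  calc 1 - ‖z‖ ≤ ‖(1 : ℂ)‖ - ‖inner ℂ z w‖ := by rw [norm_one]; linarith
    _ ≤ _ := norm_sub_norm_le _ _

theorem s_le (z w : H) (hz : ‖z‖ ≤ 1) (hw : ‖w‖ ≤ 1) : s z ≤ 2 * d z w := by
  have h := one_sub_norm_le_d z w hw
  unfold s
  nlinarith [norm_nonneg z]

theorem d_le_two (z w : H) (hz : ‖z‖ ≤ 1) (hw : ‖w‖ ≤ 1) : d z w ≤ 2 := by
  unfold d
  have h1 : ‖inner ℂ z w‖ ≤ 1 := by
    calc ‖inner ℂ z w‖ ≤ ‖z‖ * ‖w‖ := norm_inner_le_norm _ _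
      _ ≤ 1 * 1 := by gcongr
      _ = 1 := mul_one _
  calc ‖1 - inner ℂ z w‖ ≤ ‖(1 : ℂ)‖ + ‖inner ℂ z w‖ := norm_sub_le _ _
    _ ≤ 2 := by rw [norm_one]; linarith

/-- pseudohyperbolic inequality in the disc -/
theorem disc_ineq (r : ℝ) (a : ℂ) (hr0 : 0 ≤ r) (hr : r ≤ 1) (ha : ‖a‖ ≤ 1) :
    ‖(r : ℂ) - a‖ ≤ ‖1 - (r : ℂ) * a‖ := by
  have h1 : ‖(r : ℂ) - a‖ ^ 2 ≤ ‖1 - (r : ℂ) * a‖ ^ 2 := by
    rw [← Complex.normSq_eq_norm_sq, ← Complex.normSq_eq_norm_sq, Complex.normSq_apply, Complex.normSq_apply]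
    have h2 : a.re * a.re + a.im * a.im ≤ 1 := by
      rw [← Complex.normSq_apply, Complex.normSq_eq_norm_sq]
      nlinarith [norm_nonneg a]
    simp only [Complex.sub_re, Complex.sub_im, Complex.ofReal_re, Complex.ofReal_im, Complex.one_re,
      Complex.one_im, Complex.mul_re, Complex.mul_im, zero_mul, sub_zero, zero_sub, add_zero]
    nlinarith [mul_nonneg (show 0 ≤ 1 - r * r by nlinarith) (show 0 ≤ 1 - (a.re * a.re + a.im * a.im) by linarith)]
  exact le_of_sq_le_sq h1 (norm_nonneg _)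

theorem d_triangle (z v w : H) (hz : ‖z‖ ≤ 1) (hv : ‖v‖ ≤ 1) (hw : ‖w‖ ≤ 1) :
    d z w ≤ 2 * (d z v + d v w) := by
  rcases eq_or_ne v 0 with h0 | h0
  · have h1 : d z v = 1 := by simp [d, h0]
    have h2 : d v w = 1 := by simp [d, h0]
    have h3 := d_le_two z w hz hw
    rw [h1, h2]
    linarith
  · set r := ‖v‖ with hr
    have hr0 : 0 < r := norm_pos_iff.mpr h0
    set e : H := ((r : ℂ)⁻¹) • v with he
    have hve : v = (r : ℂ) • e := by
      rw [he, smul_smul, mul_inv_cancel₀ (by exact_mod_cast hr0.ne'), one_smul]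
    have hen : ‖e‖ = 1 := by
      rw [he, norm_smul, norm_inv, Complex.norm_real, Real.norm_eq_abs, abs_of_pos hr0]
      exact inv_mul_cancel₀ hr0.ne'
    set a : ℂ := inner ℂ e z with ha
    set b : ℂ := inner ℂ e w with hb
    have hee : inner ℂ e e = (1 : ℂ) := by
      rw [inner_self_eq_norm_sq_to_K, hen]
      simp
    have ha1 : ‖a‖ ≤ 1 := by
      calc ‖a‖ ≤ ‖e‖ * ‖z‖ := norm_inner_le_norm _ _
        _ ≤ 1 := by rw [hen]; linarith
    have hb1 : ‖b‖ ≤ 1 := by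
      calc ‖b‖ ≤ ‖e‖ * ‖w‖ := norm_inner_le_norm _ _
        _ ≤ 1 := by rw [hen]; linarith
    have hdz : d z v = ‖1 - (r : ℂ) * a‖ := by
      rw [d_comm]
      unfold d
      rw [hve, inner_smul_left, Complex.conj_ofReal]
    have hdw : d v w = ‖1 - (r : ℂ) * b‖ := by
      unfold d
      rw [hve, inner_smul_left, Complex.conj_ofReal]
    have hcz : inner ℂ z e = (starRingEnd ℂ) a := by rw [ha, inner_conj_symm]
    -- norms of the remainders
    have hz' : ‖z - a • e‖ ^ 2 ≤ 1 - ‖a‖ ^ 2 := by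
      have h1 : ‖z - a • e‖ ^ 2 = ‖z‖ ^ 2 - ‖a‖ ^ 2 := by
        rw [@norm_sub_sq ℂ, inner_smul_right, hcz, norm_smul, hen]
        have : (RCLike.re (a * (starRingEnd ℂ) a) : ℝ) = ‖a‖ ^ 2 := by
          rw [Complex.mul_conj]
          simp [Complex.normSq_eq_norm_sq]
          norm_cast
        rw [this]
        ring
      rw [h1]
      nlinarith [norm_nonneg z]
    have hw' : ‖w - b • e‖ ^ 2 ≤ 1 - ‖b‖ ^ 2 := by
      have h1 : ‖w - b • e‖ ^ 2 = ‖w‖ ^ 2 - ‖b‖ ^ 2 := by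
        rw [@norm_sub_sq ℂ, inner_smul_right, show inner ℂ w e = (starRingEnd ℂ) b by rw [hb, inner_conj_symm],
          norm_smul, hen]
        have : (RCLike.re (b * (starRingEnd ℂ) b) : ℝ) = ‖b‖ ^ 2 := by
          rw [Complex.mul_conj]
          simp [Complex.normSq_eq_norm_sq]
          norm_cast
        rw [this]
        ring
      rw [h1]
      nlinarith [norm_nonneg w]
    have hinner : inner ℂ z w = (starRingEnd ℂ) a * b + inner ℂ (z - a • e) (w - b • e) := by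
      rw [inner_sub_left, inner_sub_right, inner_sub_right, inner_smul_right z e b, inner_smul_left e w a,
        inner_smul_left e (b • e) a, inner_smul_right e e b, hee, hcz, ← hb]
      ring
    have hx : 1 - ‖a‖ ^ 2 ≤ 2 * ‖1 - (r : ℂ) * a‖ := by
      have h1 : 1 - r * ‖a‖ ≤ ‖1 - (r : ℂ) * a‖ := by
        have := norm_sub_norm_le (1 : ℂ) ((r : ℂ) * a)
        rw [norm_one, norm_mul, Complex.norm_real, Real.norm_eq_abs, abs_of_pos hr0] at this
        exact this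
      nlinarith [norm_nonneg a]
    have hy : 1 - ‖b‖ ^ 2 ≤ 2 * ‖1 - (r : ℂ) * b‖ := by
      have h1 : 1 - r * ‖b‖ ≤ ‖1 - (r : ℂ) * b‖ := by
        have := norm_sub_norm_le (1 : ℂ) ((r : ℂ) * b)
        rw [norm_one, norm_mul, Complex.norm_real, Real.norm_eq_abs, abs_of_pos hr0] at this
        exact this
      nlinarith [norm_nonneg b]
    have h1 : ‖1 - (starRingEnd ℂ) a * b‖ ≤ d z v + d v w := by
      have h2 : (1 : ℂ) - (starRingEnd ℂ) a * b = (1 - (r : ℂ) * b) + b * ((r : ℂ) - (starRingEnd ℂ) a) := by ring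
      have h3 : ‖(r : ℂ) - (starRingEnd ℂ) a‖ = ‖(r : ℂ) - a‖ := by
        rw [← RCLike.norm_conj ((r : ℂ) - a)]
        simp
      rw [h2]
      calc _ ≤ ‖1 - (r : ℂ) * b‖ + ‖b * ((r : ℂ) - (starRingEnd ℂ) a)‖ := norm_add_le _ _
        _ ≤ ‖1 - (r : ℂ) * b‖ + 1 * ‖1 - (r : ℂ) * a‖ := by
          rw [norm_mul, h3]
          gcongr
          exact disc_ineq r a hr0.le hv ha1
        _ = d z v + d v w := by rw [hdz, hdw]; ring
    have h2 : ‖inner ℂ (z - a • e) (w - b • e)‖ ≤ d z v + d v w := by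
      have h3 : ‖inner ℂ (z - a • e) (w - b • e)‖ ≤ ‖z - a • e‖ * ‖w - b • e‖ := norm_inner_le_norm _ _
      have h4 : ‖z - a • e‖ * ‖w - b • e‖ ≤ (‖z - a • e‖ ^ 2 + ‖w - b • e‖ ^ 2) / 2 := by
        nlinarith [sq_nonneg (‖z - a • e‖ - ‖w - b • e‖)]
      rw [hdz, hdw]
      linarith
    calc d z w = ‖(1 - (starRingEnd ℂ) a * b) - inner ℂ (z - a • e) (w - b • e)‖ := by
          unfold d
          rw [hinner]
          congr 1
          ring
      _ ≤ _ := norm_sub_le _ _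
      _ ≤ 2 * (d z v + d v w) := by linarith

end abs

end Pool.Agent.Helper633.Geo
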