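import Pool.Agent.Helper633.MinPrinciple

set_option autoImplicit false

namespace Helper633.MinP

open Filter Topology Complex Metric Set MeasureTheory

noncomputable section

instance : Fact ((0:ℝ) < 1) := ⟨one_pos⟩

/-- the circle point -/
def ec (x : AddCircle (1:ℝ)) : ℂ := (AddCircle.toCircle x : ℂ)

lemma ec_norm (x : AddCircle (1:ℝ)) : ‖ec x‖ = 1 := Circle.norm_coe _

lemma ec_cont : Continuous ec := by
  unfold ec
  exact continuous_subtype_val.comp AddCircle.continuous_toCircle

lemma ec_surj {s : ℂ} (hs : ‖s‖ = 1) : ∃ x, ec x = s := by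
  obtain ⟨x, hx⟩ := (AddCircle.homeomorphCircle (T := (1:ℝ)) one_ne_zero).surjective ⟨s, by simpa [Submonoid.unitSphere] using hs⟩
  refine ⟨x, ?_⟩
  unfold ec
  have := congrArg (fun c : Circle => (c : ℂ)) hx
  rw [AddCircle.homeomorphCircle_apply] at this
  exact this

lemma fourier_nat (n : ℕ) (x : AddCircle (1:ℝ)) : (fourier (n:ℤ) : C(AddCircle (1:ℝ), ℂ)) x = ec x ^ n := by
  rw [fourier_apply, natCast_zsmul]
  unfold ec
  rw [AddCircle.toCircle_nsmul, Circle.coe_pow]

/-- trigonometric polynomials have the harmonic form `P + conj Q` -/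
lemma trig_form (q : C(AddCircle (1:ℝ), ℂ)) (hq : q ∈ Submodule.span ℂ (range (@fourier (1:ℝ)))) :
    ∃ P Q : ℂ → ℂ, Differentiable ℂ P ∧ Differentiable ℂ Q ∧
      (∀ x, q x = P (ec x) + starRingEnd ℂ (Q (ec x))) ∧
      ∫ x, q x ∂AddCircle.haarAddCircle = P 0 + starRingEnd ℂ (Q 0) := by
  induction hq using Submodule.span_induction with
  | mem q hq =>
    obtain ⟨n, rfl⟩ := hq
    have hint : ∫ x, (fourier n : C(AddCircle (1:ℝ), ℂ)) x ∂AddCircle.haarAddCircle = if n = 0 then 1 else 0 := by
      have h := congrFun (fourierCoeff_fourier (T := 1) n) 0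
      rw [fourierCoeff] at h
      simp only [neg_zero, fourier_zero, one_smul] at h
      rw [h]
      by_cases hn : n = 0
      · subst hn; simp
      · simp [hn, Ne.symm hn]
    rcases lt_trichotomy n 0 with hn | hn | hn
    · refine ⟨fun _ => 0, fun z => z ^ n.natAbs, differentiable_const _, by fun_prop, ?_, ?_⟩
      · intro x
        have h1 : n = -(n.natAbs : ℤ) := by omega
        conv_lhs => rw [h1]
        rw [fourier_neg, fourier_nat]
        simp
      · rw [hint, if_neg hn.ne]
        have : n.natAbs ≠ 0 := by omega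
        simp [this]
    · subst hn
      refine ⟨fun _ => 1, fun z => 0, differentiable_const _, differentiable_const _, ?_, ?_⟩
      · intro x; simp
      · rw [hint]; simp
    · refine ⟨fun z => z ^ n.natAbs, fun _ => 0, by fun_prop, differentiable_const _, ?_, ?_⟩
      · intro x
        have h1 : n = (n.natAbs : ℤ) := by omega
        conv_lhs => rw [h1]
        rw [fourier_nat]
        simp
      · rw [hint, if_neg hn.ne']
        have : n.natAbs ≠ 0 := by omega
        simp [this]
  | zero =>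
    refine ⟨fun _ => 0, fun _ => 0, differentiable_const _, differentiable_const _, by simp, by simp⟩
  | add q1 q2 _ _ h1 h2 =>
    obtain ⟨P1, Q1, a1, b1, c1, d1⟩ := h1
    obtain ⟨P2, Q2, a2, b2, c2, d2⟩ := h2
    refine ⟨fun z => P1 z + P2 z, fun z => Q1 z + Q2 z, a1.add a2, b1.add b2, ?_, ?_⟩
    · intro x
      simp only [ContinuousMap.add_apply, c1, c2, map_add]
      ring
    · simp only [ContinuousMap.add_apply]
      rw [integral_add, d1, d2]
      · simp only [map_add]; ring
      · exact q1.continuous.integrable_of_hasCompactSupport (HasCompactSupport.of_compactSpace _)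
      · exact q2.continuous.integrable_of_hasCompactSupport (HasCompactSupport.of_compactSpace _)
  | smul c q _ h =>
    obtain ⟨P1, Q1, a1, b1, c1, d1⟩ := h
    refine ⟨fun z => c * P1 z, fun z => starRingEnd ℂ c * Q1 z, a1.const_mul c, b1.const_mul _, ?_, ?_⟩
    · intro x
      simp only [ContinuousMap.smul_apply, c1, map_mul, smul_eq_mul, Complex.conj_conj]
      ring
    · simp only [ContinuousMap.smul_apply, smul_eq_mul]
      rw [integral_const_mul, d1]
      simp only [map_mul, Complex.conj_conj]; ring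




/-- Lower bound from a continuous minorant. -/
lemma lower_of_cont {v : ℂ → ℝ} {Ω : Set ℂ} (hΩ : IsOpen Ω) (hv : RSH v Ω)
    {F : ℂ → ℂ} (hF : ∀ s, ‖s‖ ≤ 1 → AnalyticAt ℂ F s) (hF' : ∀ s, ‖s‖ ≤ 1 → deriv F s ≠ 0)
    (hmap : ∀ s, ‖s‖ ≤ 1 → F s ∈ Ω) (φ : C(AddCircle (1:ℝ), ℝ))
    (hφ : ∀ x, φ x ≤ v (F (ec x))) :
    ∫ x, φ x ∂(AddCircle.haarAddCircle : Measure (AddCircle (1:ℝ))) ≤ v (F 0) := by
  apply le_of_forall_pos_le_add
  intro ε hε
  set φc : C(AddCircle (1:ℝ), ℂ) := ⟨fun x => (φ x : ℂ), Complex.continuous_ofReal.comp φ.continuous⟩ with hφc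
  have hmem : φc ∈ (Submodule.span ℂ (range (@fourier (1:ℝ)))).topologicalClosure := by
    rw [span_fourier_closure_eq_top]
    trivial
  have hcl : φc ∈ closure ((Submodule.span ℂ (range (@fourier (1:ℝ))) : Set C(AddCircle (1:ℝ), ℂ))) := by
    rw [← Submodule.topologicalClosure_coe]
    exact hmem
  obtain ⟨q, hq, hdist⟩ := Metric.mem_closure_iff.1 hcl (ε/2) (by positivity)
  obtain ⟨P, Q, hP, hQ, hform, hintq⟩ := trig_form q hq
  have hpt : ∀ x, |φ x - (q x).re| ≤ ε/2 := by
    intro x
    have h1 : dist (φc x) (q x) ≤ dist φc q := ContinuousMap.dist_apply_le_dist x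
    rw [dist_eq_norm] at h1
    have h2 := Complex.abs_re_le_norm (φc x - q x)
    have h3 : (φc x - q x).re = φ x - (q x).re := by simp [hφc]
    rw [h3] at h2
    linarith
  have hre : ∀ x, (q x).re = (P (ec x) + Q (ec x)).re := by
    intro x
    rw [hform x]
    simp
  have hmp := min_principle hΩ hv hF hF' hmap (p := fun z => P z + Q z) (hP.add hQ) (e := ε/2) (by
    intro s hs
    obtain ⟨x, rfl⟩ := ec_surj hs
    have h1 := hpt x
    rw [hre x] at h1
    have h2 := abs_le.1 h1
    have h3 := hφ x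
    linarith [h2.1])
  have hqint : Integrable (fun x => q x) (AddCircle.haarAddCircle : Measure (AddCircle (1:ℝ))) :=
    q.continuous.integrable_of_hasCompactSupport (HasCompactSupport.of_compactSpace _)
  have hφint : Integrable (fun x => φ x) (AddCircle.haarAddCircle : Measure (AddCircle (1:ℝ))) :=
    φ.continuous.integrable_of_hasCompactSupport (HasCompactSupport.of_compactSpace _)
  have hqre : Integrable (fun x => (q x).re) (AddCircle.haarAddCircle : Measure (AddCircle (1:ℝ))) :=
    (Complex.continuous_re.comp q.continuous).integrable_of_hasCompactSupport (HasCompactSupport.of_compactSpace _)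
  have h1 : ∫ x, (q x).re ∂(AddCircle.haarAddCircle : Measure (AddCircle (1:ℝ))) = (P 0 + Q 0).re := by
    have h2 : ∫ x, (q x).re ∂(AddCircle.haarAddCircle : Measure (AddCircle (1:ℝ))) = (∫ x, q x ∂(AddCircle.haarAddCircle : Measure (AddCircle (1:ℝ)))).re := by
      have := integral_re (𝕜 := ℂ) hqint
      simpa using this
    rw [h2, hintq]
    simp
  have h2 : ∫ x, φ x ∂(AddCircle.haarAddCircle : Measure (AddCircle (1:ℝ))) ≤ ∫ x, ((q x).re + ε/2) ∂(AddCircle.haarAddCircle : Measure (AddCircle (1:ℝ))) := by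
    apply integral_mono hφint
    · exact hqre.add (integrable_const _)
    · intro x
      have := abs_le.1 (hpt x)
      simp only
      linarith [this.2]
  rw [integral_add hqre (integrable_const _)] at h2
  have h3 : ∫ x, (q x).re ∂(AddCircle.haarAddCircle : Measure (AddCircle (1:ℝ))) + ε/2 ≤ v (F 0) + ε := by
    rw [h1]
    linarith
  have h4 : ∫ x : AddCircle (1:ℝ), (ε/2 : ℝ) ∂(AddCircle.haarAddCircle : Measure (AddCircle (1:ℝ))) = ε/2 := by simp
  rw [h4] at h2
  exact le_trans h2 h3

/-- **Key lemma**: positivity of harmonic measure for boundary sets of positive angle measure. -/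
lemma pos_lemma {Ω : Set ℂ} (hΩ : IsOpen Ω) {F : ℂ → ℂ} (hFc : ContinuousOn F (closedBall 0 1))
    (hF : ∀ s ∈ ball (0:ℂ) 1, AnalyticAt ℂ F s) (hF' : ∀ s ∈ ball (0:ℂ) 1, deriv F s ≠ 0)
    (hmap : ∀ s ∈ ball (0:ℂ) 1, F s ∈ Ω) (T : Set (AddCircle (1:ℝ)))
    {u : ℂ → ENNReal} (hu : SH u Ω)
    (hT : ∀ x ∈ T, 1 ≤ Filter.liminf u (nhdsWithin (F (ec x)) Ω))
    (hpos : 0 < (AddCircle.haarAddCircle : Measure (AddCircle (1:ℝ))) T) :
    ((AddCircle.haarAddCircle : Measure (AddCircle (1:ℝ))) T).toReal / 4 ≤ tr u (F 0) := by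
  set A : ℕ → Set (AddCircle (1:ℝ)) := fun n =>
    {x | ∀ z ∈ Ω, dist z (F (ec x)) < 1/((n:ℝ)+1) → 1/2 ≤ u z} with hA
  have hcomp : Continuous (fun x => F (ec x)) := by
    rw [← continuousOn_univ]
    exact hFc.comp ec_cont.continuousOn (fun x _ => by simp [ec_norm])
  have hclosed : ∀ n, IsClosed (A n) := by
    intro n
    rw [← isOpen_compl_iff]
    rw [isOpen_iff_mem_nhds]
    intro x hx
    simp only [hA, mem_compl_iff, mem_ofPred_eq, not_forall] at hx
    obtain ⟨z, hz, hd, hlt⟩ := hx
    have h1 : ∀ᶠ y in 𝓝 x, dist z (F (ec y)) < 1/((n:ℝ)+1) := by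
      have : Continuous (fun y => dist z (F (ec y))) := continuous_const.dist hcomp
      exact this.continuousAt.eventually (gt_mem_nhds hd)
    filter_upwards [h1] with y hy
    simp only [hA, mem_compl_iff, mem_ofPred_eq, not_forall]
    exact ⟨z, hz, hy, hlt⟩
  have hmono : Monotone A := by
    intro m n hmn x hx z hz hd
    apply hx z hz
    refine lt_of_lt_of_le hd ?_
    apply one_div_le_one_div_of_le (by positivity)
    have : (m:ℝ) ≤ n := by exact_mod_cast hmn
    linarith
  have hTsub : T ⊆ ⋃ n, A n := by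
    intro x hx
    have h1 := hT x hx
    have h2 : (1/2 : ENNReal) < Filter.liminf u (nhdsWithin (F (ec x)) Ω) := by
      refine lt_of_lt_of_le ?_ h1
      simp
    have h3 := Filter.eventually_lt_of_lt_liminf h2
    rw [eventually_nhdsWithin_iff, Metric.eventually_nhds_iff] at h3
    obtain ⟨δ, hδ, h4⟩ := h3
    obtain ⟨n, hn⟩ := exists_nat_one_div_lt hδ
    rw [mem_iUnion]
    exact ⟨n, fun z hz hd => (h4 (lt_trans hd hn) hz).le⟩
  have hfinT : (AddCircle.haarAddCircle : Measure (AddCircle (1:ℝ))) T ≠ ⊤ := measure_ne_top _ _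
  have hhalf : (AddCircle.haarAddCircle : Measure (AddCircle (1:ℝ))) T / 2 < (AddCircle.haarAddCircle : Measure (AddCircle (1:ℝ))) T := ENNReal.half_lt_self hpos.ne' hfinT
  have hsup : (AddCircle.haarAddCircle : Measure (AddCircle (1:ℝ))) T ≤ ⨆ n, (AddCircle.haarAddCircle : Measure (AddCircle (1:ℝ))) (A n) := by
    rw [← hmono.measure_iUnion]
    exact measure_mono hTsub
  obtain ⟨n, hn⟩ := lt_iSup_iff.1 (lt_of_lt_of_le hhalf hsup)
  -- nonempty
  have hne : (A n).Nonempty := by
    by_contra hcon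
    rw [not_nonempty_iff_eq_empty] at hcon
    rw [hcon] at hn
    simp at hn
  -- uniform continuity
  have huc : UniformContinuousOn F (closedBall 0 1) :=
    (isCompact_closedBall 0 1).uniformContinuousOn_of_continuous hFc
  rw [Metric.uniformContinuousOn_iff] at huc
  obtain ⟨η, hη, huc⟩ := huc (1/((n:ℝ)+1)) (by positivity)
  have hue : UniformContinuous ec := CompactSpace.uniformContinuous_of_continuous ec_cont
  rw [Metric.uniformContinuous_iff] at hue
  obtain ⟨δ, hδ, hue⟩ := hue (η/2) (by positivity)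
  -- radius
  set ρ : ℝ := 1 - min (η/4) (1/2) with hρ
  have hρ1 : ρ < 1 := by
    have : 0 < min (η/4) (1/2) := by positivity
    linarith
  have hρ0 : 0 < ρ := by
    have : min (η/4) (1/2) ≤ (1/2:ℝ) := min_le_right _ _
    linarith
  have hρη : 1 - ρ < η/2 := by
    have : min (η/4) (1/2) ≤ η/4 := min_le_left _ _
    linarith
  -- bump
  set φ : C(AddCircle (1:ℝ), ℝ) := ⟨fun x => 1/2 * max 0 (1 - infDist x (A n) / δ), by
    have := continuous_infDist_pt (A n)
    fun_prop⟩ with hφ
  have hφle : ∀ x, φ x ≤ 1/2 := by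
    intro x
    simp only [hφ, ContinuousMap.coe_mk]
    have : max 0 (1 - infDist x (A n) / δ) ≤ 1 := by
      apply max_le (by norm_num)
      have : 0 ≤ infDist x (A n) / δ := div_nonneg infDist_nonneg hδ.le
      linarith
    linarith
  have hφ0 : ∀ x, 0 ≤ φ x := by
    intro x
    simp only [hφ, ContinuousMap.coe_mk]
    positivity
  have hkey : ∀ x, φ x ≤ tr u (F ((ρ:ℂ) * ec x)) := by
    intro x
    by_cases hx : infDist x (A n) < δ
    · obtain ⟨y, hy, hxy⟩ := (infDist_lt_iff hne).1 hx
      have h1 : dist ((ρ:ℂ) * ec x) (ec y) < η := by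
        calc dist ((ρ:ℂ) * ec x) (ec y) ≤ dist ((ρ:ℂ) * ec x) (ec x) + dist (ec x) (ec y) := dist_triangle _ _ _
          _ < η/2 + η/2 := by
            apply add_lt_add _ (hue hxy)
            rw [dist_eq_norm]
            have : (ρ:ℂ) * ec x - ec x = ((ρ - 1 : ℝ) : ℂ) * ec x := by push_cast; ring
            rw [this, norm_mul, ec_norm, mul_one, Complex.norm_real, Real.norm_eq_abs, abs_of_neg (by linarith)]
            linarith
          _ = η := by ring
      have h2 : (ρ:ℂ) * ec x ∈ ball (0:ℂ) 1 := by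
        rw [mem_ball_zero_iff, norm_mul, ec_norm, mul_one, Complex.norm_real, Real.norm_eq_abs, abs_of_pos hρ0]
        exact hρ1
      have h3 := huc _ (ball_subset_closedBall h2) (ec y) (by simp [ec_norm]) h1
      have h4 := hy _ (hmap _ h2) h3
      have h5 : tr u (F ((ρ:ℂ) * ec x)) = 1/2 := by
        unfold tr
        rw [min_eq_right h4]
        simp
      rw [h5]
      exact hφle x
    · push Not at hx
      have h1 : φ x = 0 := by
        simp only [hφ, ContinuousMap.coe_mk]
        rw [max_eq_left, mul_zero]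
        have : 1 ≤ infDist x (A n) / δ := by rwa [le_div_iff₀ hδ, one_mul]
        linarith
      rw [h1]
      exact tr_nonneg _ _
  -- apply
  have hin : ∀ s : ℂ, ‖s‖ ≤ 1 → (ρ:ℂ) * s ∈ ball (0:ℂ) 1 := by
    intro s hs
    rw [mem_ball_zero_iff, norm_mul, Complex.norm_real, Real.norm_eq_abs, abs_of_pos hρ0]
    calc ρ * ‖s‖ ≤ ρ * 1 := mul_le_mul_of_nonneg_left hs hρ0.le
      _ < 1 := by linarith
  have hfinal := lower_of_cont hΩ (tr_RSH hu) (F := fun s => F ((ρ:ℂ) * s))
    (by
      intro s hs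
      have h1 := hF _ (hin s hs)
      exact AnalyticAt.fun_comp h1 (by fun_prop))
    (by
      intro s hs
      have h1 := (hF _ (hin s hs)).differentiableAt.hasDerivAt
      have h2 : HasDerivAt (fun s : ℂ => (ρ:ℂ) * s) (ρ:ℂ) s := by
        simpa using (hasDerivAt_id s).const_mul (ρ:ℂ)
      have h3 := HasDerivAt.comp s h1 h2
      have h4 : deriv (fun s => F ((ρ:ℂ) * s)) s = deriv F ((ρ:ℂ) * s) * ρ := h3.deriv
      rw [h4]
      apply mul_ne_zero (hF' _ (hin s hs))
      exact_mod_cast hρ0.ne')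
    (fun s hs => hmap _ (hin s hs)) φ hkey
  simp only [mul_zero] at hfinal
  refine le_trans ?_ hfinal
  have hφint : Integrable (fun x => φ x) (AddCircle.haarAddCircle : Measure (AddCircle (1:ℝ))) :=
    φ.continuous.integrable_of_hasCompactSupport (HasCompactSupport.of_compactSpace _)
  have h5 : ((AddCircle.haarAddCircle : Measure (AddCircle (1:ℝ))) (A n)).toReal * (1/2) ≤ ∫ x, φ x ∂(AddCircle.haarAddCircle : Measure (AddCircle (1:ℝ))) := by
    have h6 : ∫ x in A n, φ x ∂(AddCircle.haarAddCircle : Measure (AddCircle (1:ℝ))) ≤ ∫ x, φ x ∂(AddCircle.haarAddCircle : Measure (AddCircle (1:ℝ))) :=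
      setIntegral_le_integral hφint (Eventually.of_forall hφ0)
    have h7 : ∫ x in A n, φ x ∂(AddCircle.haarAddCircle : Measure (AddCircle (1:ℝ))) = ∫ x in A n, (1/2 : ℝ) ∂(AddCircle.haarAddCircle : Measure (AddCircle (1:ℝ))) := by
      apply setIntegral_congr_fun (hclosed n).measurableSet
      intro x hx
      simp only [hφ, ContinuousMap.coe_mk]
      rw [infDist_zero_of_mem hx]
      norm_num
    rw [h7] at h6
    simp only [setIntegral_const, smul_eq_mul] at h6
    exact h6
  have h8 : ((AddCircle.haarAddCircle : Measure (AddCircle (1:ℝ))) T).toReal / 2 ≤ ((AddCircle.haarAddCircle : Measure (AddCircle (1:ℝ))) (A n)).toReal := by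
    have h9 := ENNReal.toReal_mono (measure_ne_top _ _) hn.le
    rw [ENNReal.toReal_div] at h9
    simpa using h9
  linarith

end

end Helper633.MinP
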