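import Pool.Agent.Helper633.Transport
import Pool.Agent.Helper633.PosLemma

set_option autoImplicit false

namespace Helper633.Boe

open Filter Topology Complex Metric Set MeasureTheory

noncomputable section

/-- arcs avoiding the cone are short -/
lemma arc_short {A : ℂ} {a b : ℝ}
    (h : ∀ t ∈ Ioo a b, ¬ ((A * Complex.exp ((t:ℂ) * Complex.I)).re ≤ 1/800 * |(A * Complex.exp ((t:ℂ) * Complex.I)).im|)) :
    b - a ≤ Real.pi - 2 * Real.arctan (1/800) := by
  by_contra hcon
  push Not at hcon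
  set η := Real.arctan (1/800) with hη
  set L := Real.pi - 2 * η with hL
  have hηlt : η < Real.pi / 2 := Real.arctan_lt_pi_div_two _
  have hLpos : 0 < L := by rw [hL]; linarith
  -- polar form
  have hform : ∀ t : ℝ, A * Complex.exp ((t:ℂ) * Complex.I) = (‖A‖ : ℂ) * Complex.exp (((t + A.arg : ℝ) : ℂ) * Complex.I) := by
    intro t
    conv_lhs => rw [← Complex.norm_mul_exp_arg_mul_I A]
    rw [mul_assoc, ← Complex.exp_add]
    congr 2
    push_cast
    ring
  have hre : ∀ t : ℝ, (A * Complex.exp ((t:ℂ) * Complex.I)).re = ‖A‖ * Real.cos (t + A.arg) := by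
    intro t
    rw [hform t, Complex.re_ofReal_mul, Complex.exp_ofReal_mul_I_re]
  have him : ∀ t : ℝ, (A * Complex.exp ((t:ℂ) * Complex.I)).im = ‖A‖ * Real.sin (t + A.arg) := by
    intro t
    rw [hform t, Complex.im_ofReal_mul, Complex.exp_ofReal_mul_I_im]
  have hA0 : 0 ≤ ‖A‖ := norm_nonneg A
  have key : ∀ t ∈ Ioo a b, 1/800 * |Real.sin (t + A.arg)| < Real.cos (t + A.arg) := by
    intro t ht
    have h1 := h t ht
    rw [hre, him, abs_mul, abs_of_nonneg hA0] at h1
    push Not at h1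
    have h2 : ‖A‖ * (1/800 * |Real.sin (t + A.arg)|) < ‖A‖ * Real.cos (t + A.arg) := by linarith
    exact lt_of_mul_lt_mul_left h2 hA0
  set m := (a + b) / 2 with hm
  have k1 := key (m - L/2) ⟨by rw [hm]; linarith, by rw [hm]; linarith⟩
  have k2 := key (m + L/2) ⟨by rw [hm]; linarith, by rw [hm]; linarith⟩
  set s := m + A.arg with hs
  have e1 : m - L/2 + A.arg = s - L/2 := by rw [hs]; ring
  have e2 : m + L/2 + A.arg = s + L/2 := by rw [hs]; ring
  rw [e1] at k1
  rw [e2] at k2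
  have hsinL : Real.sin (L/2) = Real.cos η := by
    have : L/2 = Real.pi/2 - η := by rw [hL]; ring
    rw [this, Real.sin_pi_div_two_sub]
  have hcosL : Real.cos (L/2) = Real.sin η := by
    have : L/2 = Real.pi/2 - η := by rw [hL]; ring
    rw [this, Real.cos_pi_div_two_sub]
  have hcosη : 0 < Real.cos η := Real.cos_arctan_pos _
  have htan : Real.sin η = 1/800 * Real.cos η := by
    have h1 : Real.tan η = 1/800 := Real.tan_arctan _
    rw [Real.tan_eq_sin_div_cos, div_eq_iff hcosη.ne'] at h1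
    exact h1
  rw [Real.cos_sub, Real.sin_sub, hsinL, hcosL] at k1
  rw [Real.cos_add, Real.sin_add, hsinL, hcosL] at k2
  rw [htan] at k1 k2
  have k3 : |2 * (Real.cos s * Real.cos η)| ≤ |Real.sin s * (1/800 * Real.cos η) - Real.cos s * Real.cos η| + |Real.sin s * (1/800 * Real.cos η) + Real.cos s * Real.cos η| := by
    have : 2 * (Real.cos s * Real.cos η) = (Real.sin s * (1/800 * Real.cos η) + Real.cos s * Real.cos η) - (Real.sin s * (1/800 * Real.cos η) - Real.cos s * Real.cos η) := by ring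
    rw [this]
    have := abs_sub (Real.sin s * (1/800 * Real.cos η) + Real.cos s * Real.cos η) (Real.sin s * (1/800 * Real.cos η) - Real.cos s * Real.cos η)
    linarith
  have k4 := le_abs_self (2 * (Real.cos s * Real.cos η))
  linarith


/-- the half-angle gain -/
def eta : ℝ := Real.arctan (1/800)

lemma eta_pos : 0 < eta := Real.arctan_pos.2 (by norm_num)
lemma eta_lt : eta < Real.pi / 2 := Real.arctan_lt_pi_div_two _

/-- averaging estimate -/
lemma avg_bound {θ : ℝ → ℝ} (hm : Measurable θ) (h0 : ∀ r, 0 < r → 0 ≤ θ r)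
    (h2 : ∀ r, 0 < r → θ r ≤ 2 * Real.pi) {R τ : ℝ} (hR : 0 < R) (hτ0 : 0 < τ) (hτ1 : τ ≤ 1)
    (hτ : τ^2 ≤ eta / (2 * Real.pi))
    (hw : ∀ r, τ * R ≤ r → r ≤ R → θ r ≤ Real.pi - 2 * eta) :
    (Real.pi * R ^ 2)⁻¹ * ∫ r in (0:ℝ)..R, θ r * r ≤ 1/2 - eta / (2 * Real.pi) := by
  have hpi := Real.pi_pos
  have hτR : 0 < τ * R := by positivity
  have hτR2 : τ * R ≤ R := by nlinarith
  have hint : ∀ a b : ℝ, 0 ≤ a → a ≤ b → IntervalIntegrable (fun r => θ r * r) volume a b := by
    intro a b ha hab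
    rw [intervalIntegrable_iff_integrableOn_Ioc_of_le hab]
    refine Measure.integrableOn_of_bounded (M := 2 * Real.pi * b) (measure_Ioc_lt_top).ne (hm.mul measurable_id).aestronglyMeasurable ?_
    rw [ae_restrict_iff' measurableSet_Ioc]
    refine Eventually.of_forall (fun r hr => ?_)
    have hr0 : 0 < r := lt_of_le_of_lt ha hr.1
    have e1 := h0 r hr0
    have e2 := h2 r hr0
    rw [Real.norm_eq_abs, abs_of_nonneg (mul_nonneg e1 hr0.le)]
    exact mul_le_mul e2 hr.2 hr0.le (by positivity)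
  have hsplit : ∫ r in (0:ℝ)..R, θ r * r = (∫ r in (0:ℝ)..(τ * R), θ r * r) + ∫ r in (τ * R)..R, θ r * r :=
    (intervalIntegral.integral_add_adjacent_intervals (hint _ _ le_rfl hτR.le) (hint _ _ hτR.le hτR2)).symm
  have hI1 : ∫ r in (0:ℝ)..(τ * R), θ r * r ≤ ∫ r in (0:ℝ)..(τ * R), 2 * Real.pi * r := by
    apply intervalIntegral.integral_mono_on_of_le_Ioo hτR.le (hint _ _ le_rfl hτR.le)
    · exact (by fun_prop : Continuous (fun r : ℝ => 2 * Real.pi * r)).intervalIntegrable _ _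
    · intro r hr
      exact mul_le_mul_of_nonneg_right (h2 r hr.1) hr.1.le
  have hI2 : ∫ r in (τ * R)..R, θ r * r ≤ ∫ r in (τ * R)..R, (Real.pi - 2 * eta) * r := by
    apply intervalIntegral.integral_mono_on_of_le_Ioo hτR2 (hint _ _ hτR.le hτR2)
    · exact (by fun_prop : Continuous (fun r : ℝ => (Real.pi - 2 * eta) * r)).intervalIntegrable _ _
    · intro r hr
      exact mul_le_mul_of_nonneg_right (hw r hr.1.le hr.2.le) (lt_trans hτR hr.1).le
  rw [intervalIntegral.integral_const_mul, integral_id] at hI1 hI2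
  have hη := eta_pos
  have hη2 := eta_lt
  have htot : ∫ r in (0:ℝ)..R, θ r * r ≤ Real.pi * R^2 * (1/2 - eta / (2 * Real.pi)) := by
    rw [hsplit]
    have e1 : Real.pi * R^2 * (1/2 - eta / (2 * Real.pi)) = Real.pi * R^2 / 2 - eta * R^2 / 2 := by
      field_simp
    rw [e1]
    have e2 : Real.pi * (τ^2 * R^2) ≤ eta * R^2 / 2 := by
      have : τ^2 * (2 * Real.pi) ≤ eta := by
        rw [le_div_iff₀ (by positivity)] at hτ
        exact hτ
      nlinarith [sq_nonneg R]
    have e3 : 0 ≤ (Real.pi - 2 * eta) * (τ * R)^2 := by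
      have : 0 ≤ Real.pi - 2 * eta := by linarith
      positivity
    nlinarith
  rw [inv_mul_le_iff₀ (by positivity)]
  exact htot

/-- **Bad points**: if the orbit of `Z s` returns to a small neighbourhood of `3/4` infinitely
often, then no choice of arcs at `H s` has average density tending to `1/2`. -/
lemma bad_point {s : ℂ} (hs : ‖s‖ = 1) {τ : ℝ} (hτ0 : 0 < τ) (hτ1 : τ ≤ 1)
    (hτ : τ^2 ≤ eta / (2 * Real.pi))
    (hfreq : ∃ᶠ n in atTop, ‖f^[n] (Z s) - 3/4‖ ≤ τ / 384000000)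
    (a b : ℝ → ℝ) (hm : Measurable (fun r => b r - a r))
    (hab : ∀ r : ℝ, 0 < r → a r ≤ b r ∧ b r - a r ≤ 2 * Real.pi ∧
          ∀ t ∈ Set.Ioo (a r) (b r), H s + (r:ℂ) * Complex.exp ((t:ℂ) * Complex.I) ∈ Om) :
    ¬ Filter.Tendsto (fun R : ℝ => (Real.pi * R ^ 2)⁻¹ * ∫ r in (0:ℝ)..R, (b r - a r) * r)
          (nhdsWithin 0 (Set.Ioi 0)) (nhds (1/2)) := by
  intro hlim
  have hpi := Real.pi_pos
  have hη := eta_pos
  have horb := fun j => Z_orbit_ge hs j
  set z := Z s with hz
  have hz1 : 3/4 ≤ ‖z‖ := horb 0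
  have hDpos : ∀ n, 0 < ‖D z n‖ := fun n => lt_of_lt_of_le (by positivity) (D_ge horb n)
  set q : ℕ → ℝ := fun n => ‖z‖^2 * ‖D z n‖ with hq
  have hqpos : ∀ n, 0 < q n := by
    intro n
    have := hDpos n
    have : 0 < ‖z‖ := by linarith
    simp only [hq]
    positivity
  set Rn : ℕ → ℝ := fun n => (1/48000) / q n with hRn
  have hRpos : ∀ n, 0 < Rn n := fun n => div_pos (by norm_num) (hqpos n)
  have hqtop : Tendsto q atTop atTop := by
    have h1 : Tendsto (fun n : ℕ => (3/2 : ℝ)^n) atTop atTop := tendsto_pow_atTop_atTop_of_one_lt (by norm_num)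
    have h2 : Tendsto (fun n : ℕ => ‖z‖^2 * (3/2 : ℝ)^n) atTop atTop := by
      apply Tendsto.const_mul_atTop _ h1
      have : 0 < ‖z‖ := by linarith
      positivity
    apply tendsto_atTop_mono _ h2
    intro n
    exact mul_le_mul_of_nonneg_left (D_ge horb n) (by positivity)
  have hR0 : Tendsto Rn atTop (nhdsWithin 0 (Set.Ioi 0)) := by
    rw [tendsto_nhdsWithin_iff]
    refine ⟨?_, Eventually.of_forall hRpos⟩
    exact hqtop.const_div_atTop _
  have hev := (hlim.comp hR0).eventually (lt_mem_nhds (show 1/2 - eta / (2 * Real.pi) < 1/2 by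
    have : 0 < eta / (2 * Real.pi) := by positivity
    linarith))
  obtain ⟨n, hn1, hn2⟩ := (hfreq.and_eventually hev).exists
  simp only [Function.comp] at hn2
  refine absurd hn2 (not_lt.2 ?_)
  apply avg_bound hm (fun r hr => by have := (hab r hr).1; linarith) (fun r hr => (hab r hr).2.1) (hRpos n) hτ0 hτ1 hτ
  intro r hr1 hr2
  have hr0 : 0 < r := lt_of_lt_of_le (mul_pos hτ0 (hRpos n)) hr1
  have hqn := hqpos n
  have e1 : r * q n ≤ 1/48000 := by
    calc r * q n ≤ Rn n * q n := mul_le_mul_of_nonneg_right hr2 hqn.le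
      _ = 1/48000 := by simp only [hRn]; field_simp
  have e2 : τ / 48000 ≤ r * q n := by
    calc τ / 48000 = τ * Rn n * q n := by simp only [hRn]; field_simp
      _ ≤ r * q n := mul_le_mul_of_nonneg_right hr1 hqn.le
  apply arc_short (A := -(z^2 * D z n * r))
  intro t ht hcon
  have hmem := (hab r hr0).2.2 t ht
  have hnorm : ‖z^2 * D z n * ((r:ℂ) * Complex.exp ((t:ℂ) * Complex.I))‖ = r * q n := by
    rw [norm_mul, norm_mul, norm_pow, norm_mul, Complex.norm_exp_ofReal_mul_I, Complex.norm_real,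
      Real.norm_eq_abs, abs_of_pos hr0]
    simp only [hq]
    ring
  have hcon' : (-(z^2 * D z n * ((r:ℂ) * Complex.exp ((t:ℂ) * Complex.I)))).re
      ≤ 1/800 * |(-(z^2 * D z n * ((r:ℂ) * Complex.exp ((t:ℂ) * Complex.I)))).im| := by
    have : -(z^2 * D z n * ((r:ℂ) * Complex.exp ((t:ℂ) * Complex.I))) = -(z^2 * D z n * r) * Complex.exp ((t:ℂ) * Complex.I) := by ring
    rw [this]
    exact hcon
  exact window hs (n := n) (k := (r:ℂ) * Complex.exp ((t:ℂ) * Complex.I))
    (by rw [← hz, hnorm]; exact e1)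
    (by
      rw [← hz, hnorm]
      refine le_trans hn1 ?_
      linarith)
    (by rw [← hz]; exact hcon') hmem

end

end Helper633.Boe
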