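import Mathlib

set_option autoImplicit false

namespace Helper633.Boe

open Filter Topology Complex Metric Set

noncomputable section

/-- principal square root -/
def csq (x : ℂ) : ℂ := x ^ (1/2 : ℂ)

lemma csq_sq (x : ℂ) : csq x ^ 2 = x := by
  unfold csq
  rw [← Complex.cpow_nat_mul]
  norm_num

lemma csq_re_nonneg (x : ℂ) : 0 ≤ (csq x).re := by
  unfold csq
  by_cases hx : x = 0
  · subst hx
    rw [Complex.zero_cpow (by norm_num)]
    simp
  rw [Complex.cpow_def_of_ne_zero hx, Complex.exp_re]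
  have h1 : (Complex.log x * (1/2)).im = x.arg / 2 := by
    simp [Complex.mul_im, Complex.log_im]
    ring
  rw [h1]
  apply mul_nonneg (Real.exp_pos _).le
  apply Real.cos_nonneg_of_neg_pi_div_two_le_of_le
  · have := Complex.neg_pi_lt_arg x
    linarith
  · have := Complex.arg_le_pi x
    linarith

lemma csq_bound {x : ℂ} (hx : ‖x - 1‖ ≤ 7/16) : ‖csq x - 1‖ ≤ 1/4 := by
  set y := csq x with hy
  have hsq : y ^ 2 = x := csq_sq x
  have hre : 0 ≤ y.re := csq_re_nonneg x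
  have hfac : x - 1 = (y - 1) * (y + 1) := by rw [← hsq]; ring
  have hprod : ‖y - 1‖ * ‖y + 1‖ ≤ 7/16 := by
    rw [← norm_mul, ← hfac]; exact hx
  have h1 : 1 ≤ ‖y + 1‖ := by
    calc (1:ℝ) ≤ (y + 1).re := by simp [hre]
      _ ≤ ‖y + 1‖ := Complex.re_le_norm _
  have h2 : 2 - ‖y - 1‖ ≤ ‖y + 1‖ := by
    have : ‖(2:ℂ)‖ ≤ ‖y + 1‖ + ‖y - 1‖ := by
      calc ‖(2:ℂ)‖ = ‖(y + 1) - (y - 1)‖ := by congr 1; ring
        _ ≤ _ := norm_sub_le _ _
    simp at this
    linarith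
  by_contra hcon
  push Not at hcon
  have hn : 0 ≤ ‖y - 1‖ := norm_nonneg _
  by_cases h3 : ‖y - 1‖ ≤ 7/4
  · have : ‖y - 1‖ * (2 - ‖y - 1‖) ≤ 7/16 := le_trans (mul_le_mul_of_nonneg_left h2 hn) hprod
    nlinarith
  · push Not at h3
    nlinarith

lemma re_ge_of_near {y : ℂ} (h : ‖y - 1‖ ≤ 1/4) : 3/4 ≤ y.re := by
  have := Complex.abs_re_le_norm (y - 1)
  rw [Complex.sub_re, Complex.one_re] at this
  have := abs_le.1 (le_trans this h)
  linarith [this.1]

lemma norm_ge_of_near {y : ℂ} (h : ‖y - 1‖ ≤ 1/4) : 3/4 ≤ ‖y‖ :=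
  le_trans (re_ge_of_near h) (Complex.re_le_norm _)

lemma norm_le_of_near {y : ℂ} (h : ‖y - 1‖ ≤ 1/4) : ‖y‖ ≤ 5/4 := by
  have : ‖y‖ ≤ ‖y - 1‖ + ‖(1:ℂ)‖ := by
    calc ‖y‖ = ‖(y - 1) + 1‖ := by congr 1; ring
      _ ≤ _ := norm_add_le _ _
  simp at this
  linarith

lemma csq_contr {a b : ℂ} (ha : ‖a - 1‖ ≤ 7/16) (hb : ‖b - 1‖ ≤ 7/16) :
    ‖csq a - csq b‖ ≤ 2/3 * ‖a - b‖ := by
  have h1 := re_ge_of_near (csq_bound ha)
  have h2 := re_ge_of_near (csq_bound hb)
  have h3 : 3/2 ≤ ‖csq a + csq b‖ := by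
    calc (3:ℝ)/2 ≤ (csq a + csq b).re := by rw [Complex.add_re]; linarith
      _ ≤ _ := Complex.re_le_norm _
  have h4 : a - b = (csq a - csq b) * (csq a + csq b) := by
    have e1 := csq_sq a
    have e2 := csq_sq b
    calc a - b = csq a ^ 2 - csq b ^ 2 := by rw [e1, e2]
      _ = _ := by ring
  have h5 : ‖a - b‖ = ‖csq a - csq b‖ * ‖csq a + csq b‖ := by rw [h4, norm_mul]
  rw [h5]
  nlinarith [norm_nonneg (csq a - csq b)]

/-- iterates -/
def Gs : ℕ → ℂ → ℂ
  | 0, _ => 1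
  | n+1, s => csq (Gs n (s^2) - 3/16 * s^2)

lemma sq_mem {s : ℂ} (hs : ‖s‖ ≤ 1) : ‖s^2‖ ≤ 1 := by
  rw [norm_pow]
  exact pow_le_one₀ (norm_nonneg _) hs

lemma arg_near {g s : ℂ} (hg : ‖g - 1‖ ≤ 1/4) (hs : ‖s‖ ≤ 1) : ‖g - 3/16 * s^2 - 1‖ ≤ 7/16 := by
  have h1 : ‖(3/16 : ℂ) * s^2‖ ≤ 3/16 := by
    rw [norm_mul]
    have : ‖(3/16 : ℂ)‖ = 3/16 := by norm_num
    rw [this]
    have := sq_mem hs
    linarith
  calc ‖g - 3/16 * s^2 - 1‖ = ‖(g - 1) - 3/16 * s^2‖ := by congr 1; ring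
    _ ≤ ‖g - 1‖ + ‖(3/16 : ℂ) * s^2‖ := norm_sub_le _ _
    _ ≤ 7/16 := by linarith

lemma Gs_near (n : ℕ) : ∀ s : ℂ, ‖s‖ ≤ 1 → ‖Gs n s - 1‖ ≤ 1/4 := by
  induction n with
  | zero => intro s _; simp [Gs]
  | succ n ih =>
    intro s hs
    exact csq_bound (arg_near (ih _ (sq_mem hs)) hs)

lemma Gs_step (n : ℕ) : ∀ s : ℂ, ‖s‖ ≤ 1 → dist (Gs n s) (Gs (n+1) s) ≤ 1/4 * (2/3)^n := by
  induction n with
  | zero =>
    intro s hs
    have := Gs_near 1 s hs
    rw [dist_comm, dist_eq_norm]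
    simpa [Gs] using this
  | succ n ih =>
    intro s hs
    have h1 := ih _ (sq_mem hs)
    rw [dist_eq_norm] at h1 ⊢
    have h2 : Gs (n+1) s = csq (Gs n (s^2) - 3/16 * s^2) := rfl
    have h3 : Gs (n+2) s = csq (Gs (n+1) (s^2) - 3/16 * s^2) := rfl
    rw [h2, h3]
    have h4 := csq_contr (arg_near (Gs_near n _ (sq_mem hs)) hs) (arg_near (Gs_near (n+1) _ (sq_mem hs)) hs)
    have h5 : Gs n (s^2) - 3/16 * s^2 - (Gs (n+1) (s^2) - 3/16 * s^2) = Gs n (s^2) - Gs (n+1) (s^2) := by ring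
    rw [h5] at h4
    calc _ ≤ _ := h4
      _ ≤ 2/3 * (1/4 * (2/3)^n) := by linarith
      _ = _ := by ring

lemma Gs_diff (n : ℕ) : DifferentiableOn ℂ (Gs n) (ball 0 1) := by
  induction n with
  | zero => exact differentiableOn_const 1
  | succ n ih =>
    intro s hs
    have hs' : ‖s‖ < 1 := by simpa using hs
    have hs2 : s^2 ∈ ball (0:ℂ) 1 := by
      rw [mem_ball_zero_iff, norm_pow]
      exact pow_lt_one₀ (norm_nonneg _) hs' (by norm_num)
    have h1 : DifferentiableAt ℂ (Gs n) (s^2) := (ih _ hs2).differentiableAt (isOpen_ball.mem_nhds hs2)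
    have h2 : DifferentiableAt ℂ (fun s : ℂ => Gs n (s^2) - 3/16 * s^2) s := by
      apply DifferentiableAt.sub
      · exact DifferentiableAt.comp s h1 (by fun_prop)
      · fun_prop
    have h3 : (Gs n (s^2) - 3/16 * s^2) ∈ slitPlane := by
      left
      have := arg_near (Gs_near n _ (sq_mem hs'.le)) hs'.le
      have h4 := Complex.abs_re_le_norm (Gs n (s^2) - 3/16 * s^2 - 1)
      have h5 := abs_le.1 (le_trans h4 this)
      rw [Complex.sub_re _ 1, Complex.one_re] at h5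
      linarith [h5.1]
    have h4 : DifferentiableAt ℂ (fun s => csq (Gs n (s^2) - 3/16 * s^2)) s := by
      unfold csq
      exact h2.cpow_const h3
    exact h4.differentiableWithinAt

lemma Gs_cont (n : ℕ) : ContinuousOn (Gs n) (closedBall 0 1) := by
  induction n with
  | zero => exact continuousOn_const
  | succ n ih =>
    intro s hs
    have hs' : ‖s‖ ≤ 1 := by simpa using hs
    have hmap : MapsTo (fun s : ℂ => s^2) (closedBall 0 1) (closedBall 0 1) := by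
      intro x hx
      simp only [mem_closedBall_zero_iff] at hx ⊢
      exact sq_mem hx
    have h2 : ContinuousOn (fun s : ℂ => Gs n (s^2) - 3/16 * s^2) (closedBall 0 1) := by
      apply ContinuousOn.sub
      · exact ih.comp (by fun_prop) hmap
      · fun_prop
    have h3 : (Gs n (s^2) - 3/16 * s^2) ∈ slitPlane := by
      left
      have := arg_near (Gs_near n _ (sq_mem hs')) hs'
      have h4 := Complex.abs_re_le_norm (Gs n (s^2) - 3/16 * s^2 - 1)
      have h5 := abs_le.1 (le_trans h4 this)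
      rw [Complex.sub_re _ 1, Complex.one_re] at h5
      linarith [h5.1]
    have h4 : ContinuousWithinAt (fun s => csq (Gs n (s^2) - 3/16 * s^2)) (closedBall 0 1) s := by
      unfold csq
      exact ContinuousWithinAt.cpow (h2 s hs) continuousWithinAt_const h3
    exact h4

lemma exists_G : ∃ G : ℂ → ℂ, (∀ s : ℂ, ‖s‖ ≤ 1 → ‖G s - 1‖ ≤ 1/4) ∧
    (∀ s : ℂ, ‖s‖ ≤ 1 → G s ^ 2 = G (s^2) - 3/16 * s^2) ∧
    ContinuousOn G (closedBall 0 1) ∧ DifferentiableOn ℂ G (ball 0 1) := by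
  have hc : ∀ s : ℂ, ∃ g : ℂ, ‖s‖ ≤ 1 → Tendsto (fun n => Gs n s) atTop (𝓝 g) := by
    intro s
    by_cases hs : ‖s‖ ≤ 1
    · have : CauchySeq (fun n => Gs n s) :=
        cauchySeq_of_le_geometric (2/3) (1/4) (by norm_num) (fun n => Gs_step n s hs)
      obtain ⟨g, hg⟩ := cauchySeq_tendsto_of_complete this
      exact ⟨g, fun _ => hg⟩
    · exact ⟨0, fun h => absurd h hs⟩
  choose G hG using hc
  have hunif : TendstoUniformlyOn Gs G atTop (closedBall 0 1) := by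
    rw [Metric.tendstoUniformlyOn_iff]
    intro ε hε
    have h0 : Tendsto (fun n : ℕ => (1/4 : ℝ) * (2/3)^n / (1 - 2/3)) atTop (𝓝 0) := by
      have := (tendsto_pow_atTop_nhds_zero_of_lt_one (r := (2/3:ℝ)) (by norm_num) (by norm_num)).const_mul ((1/4 : ℝ) / (1 - 2/3))
      simp only [mul_zero] at this
      refine this.congr (fun n => by ring)
    filter_upwards [h0.eventually (gt_mem_nhds hε)] with n hn s hs
    have hs' : ‖s‖ ≤ 1 := by simpa using hs
    have := dist_le_of_le_geometric_of_tendsto (2/3) (1/4) (by norm_num) (fun n => Gs_step n s hs') (hG s hs') n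
    rw [dist_comm]
    exact lt_of_le_of_lt this hn
  refine ⟨G, ?_, ?_, ?_, ?_⟩
  · intro s hs
    have : Tendsto (fun n => ‖Gs n s - 1‖) atTop (𝓝 ‖G s - 1‖) := ((hG s hs).sub_const 1).norm
    exact le_of_tendsto this (Eventually.of_forall (fun n => Gs_near n s hs))
  · intro s hs
    have h1 : Tendsto (fun n => Gs (n+1) s ^ 2) atTop (𝓝 (G s ^ 2)) :=
      ((hG s hs).comp (tendsto_add_atTop_nat 1)).pow 2
    have h2 : Tendsto (fun n => Gs n (s^2) - 3/16 * s^2) atTop (𝓝 (G (s^2) - 3/16 * s^2)) :=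
      (hG _ (sq_mem hs)).sub_const _
    have h3 : (fun n => Gs (n+1) s ^ 2) = (fun n => Gs n (s^2) - 3/16 * s^2) := by
      funext n
      exact csq_sq _
    rw [h3] at h1
    exact tendsto_nhds_unique h1 h2
  · exact hunif.continuousOn (Eventually.of_forall Gs_cont).frequently
  · have hl : TendstoLocallyUniformlyOn Gs G atTop (ball 0 1) :=
      (hunif.mono ball_subset_closedBall).tendstoLocallyUniformlyOn
    exact hl.differentiableOn (Eventually.of_forall Gs_diff) isOpen_ball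

end

end Helper633.Boe
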