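import Pool.Agent.Helper633.BoeA

set_option autoImplicit false

namespace Helper633.Boe

open Filter Topology Complex Metric Set

noncomputable section

/-- the normalised inverse Böttcher map -/
def G : ℂ → ℂ := Classical.choose exists_G

lemma G_near {s : ℂ} (hs : ‖s‖ ≤ 1) : ‖G s - 1‖ ≤ 1/4 := (Classical.choose_spec exists_G).1 s hs
lemma G_eq {s : ℂ} (hs : ‖s‖ ≤ 1) : G s ^ 2 = G (s^2) - 3/16 * s^2 :=
  (Classical.choose_spec exists_G).2.1 s hs
lemma G_cont : ContinuousOn G (closedBall 0 1) := (Classical.choose_spec exists_G).2.2.1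
lemma G_diff : DifferentiableOn ℂ G (ball 0 1) := (Classical.choose_spec exists_G).2.2.2

lemma G_ne {s : ℂ} (hs : ‖s‖ ≤ 1) : G s ≠ 0 := by
  intro h
  have := G_near hs
  rw [h] at this
  norm_num at this

lemma G_norm_ge {s : ℂ} (hs : ‖s‖ ≤ 1) : 3/4 ≤ ‖G s‖ := norm_ge_of_near (G_near hs)
lemma G_norm_le {s : ℂ} (hs : ‖s‖ ≤ 1) : ‖G s‖ ≤ 5/4 := norm_le_of_near (G_near hs)

lemma G_zero : G 0 = 1 := by
  have h := G_eq (s := 0) (by simp)
  have h0 : G 0 ≠ 0 := G_ne (by simp)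
  have : G 0 * (G 0 - 1) = 0 := by
    have : G 0 ^ 2 = G 0 := by simpa using h
    linear_combination this
  rcases mul_eq_zero.1 this with h1 | h1
  · exact absurd h1 h0
  · linear_combination h1

lemma G_one : G 1 = 3/4 := by
  have h := G_eq (s := 1) (by simp)
  have hn := G_near (s := 1) (by simp)
  have : (G 1 - 3/4) * (G 1 - 1/4) = 0 := by
    have : G 1 ^ 2 = G 1 - 3/16 := by simpa using h
    linear_combination this
  rcases mul_eq_zero.1 this with h1 | h1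
  · linear_combination h1
  · exfalso
    have : G 1 = 1/4 := by linear_combination h1
    rw [this] at hn
    norm_num at hn

/-- the map onto the domain -/
def H (s : ℂ) : ℂ := s / G s

/-- the exterior coordinate -/
def Z (s : ℂ) : ℂ := G s / s

lemma H_zero : H 0 = 0 := by simp [H]

lemma H_inv (s : ℂ) : (H s)⁻¹ = Z s := by simp [H, Z]

lemma H_cont : ContinuousOn H (closedBall 0 1) := by
  apply ContinuousOn.div continuousOn_id G_cont
  intro s hs
  exact G_ne (by simpa using hs)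

lemma H_diff : DifferentiableOn ℂ H (ball 0 1) := by
  apply DifferentiableOn.div differentiableOn_id G_diff
  intro s hs
  have : ‖s‖ < 1 := by simpa using hs
  exact G_ne this.le

lemma H_norm_le {s : ℂ} (hs : ‖s‖ ≤ 1) : ‖H s‖ ≤ 4/3 := by
  unfold H
  rw [norm_div]
  have h1 := G_norm_ge hs
  rw [div_le_iff₀ (by linarith)]
  linarith

lemma H_fun {s : ℂ} (hs : ‖s‖ ≤ 1) : H (s^2) * (1 + 3/16 * H s ^ 2) = H s ^ 2 := by
  have h1 := G_ne hs
  have h2 := G_ne (sq_mem hs)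
  have h3 := G_eq hs
  unfold H
  rw [div_pow]
  have h4 : G s ^ 2 ≠ 0 := pow_ne_zero _ h1
  field_simp
  linear_combination (16*s^2) * h3

lemma H_one_add_ne {s : ℂ} (hs : ‖s‖ ≤ 1) : 1 + 3/16 * H s ^ 2 ≠ 0 := by
  have h1 := G_ne hs
  have h2 := G_ne (sq_mem hs)
  have h3 := G_eq hs
  unfold H
  rw [div_pow]
  have h4 : G s ^ 2 ≠ 0 := pow_ne_zero _ h1
  have : 1 + 3/16 * (s^2 / G s ^ 2) = G (s^2) / G s ^ 2 := by
    field_simp
    linear_combination 16 * h3
  rw [this]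
  exact div_ne_zero h2 h4

lemma H_hasDeriv {s : ℂ} (hs : s ∈ ball (0:ℂ) 1) : HasDerivAt H (deriv H s) s :=
  ((H_diff s hs).differentiableAt (isOpen_ball.mem_nhds hs)).hasDerivAt

lemma H_deriv_zero : deriv H 0 = 1 := by
  have h0 : (0:ℂ) ∈ ball (0:ℂ) 1 := by simp
  have hG : HasDerivAt G (deriv G 0) 0 :=
    ((G_diff 0 h0).differentiableAt (isOpen_ball.mem_nhds h0)).hasDerivAt
  have h1 : HasDerivAt H ((1 * G 0 - 0 * deriv G 0) / G 0 ^ 2) 0 :=
    HasDerivAt.div (hasDerivAt_id (0:ℂ)) hG (G_ne (by simp))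
  rw [h1.deriv, G_zero]
  norm_num

lemma H_deriv_step {s : ℂ} (hs : s ∈ ball (0:ℂ) 1) (hs0 : s ≠ 0) (h : deriv H s = 0) :
    deriv H (s^2) = 0 := by
  have hs1 : ‖s‖ < 1 := by simpa using hs
  have hs2 : s^2 ∈ ball (0:ℂ) 1 := by
    rw [mem_ball_zero_iff, norm_pow]
    exact pow_lt_one₀ (norm_nonneg _) hs1 (by norm_num)
  have d1 : HasDerivAt H 0 s := h ▸ H_hasDeriv hs
  have d2 : HasDerivAt (fun s : ℂ => H (s^2)) (deriv H (s^2) * (2 * s)) s := by
    have e := (hasDerivAt_pow 2 s)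
    have := HasDerivAt.comp s (H_hasDeriv hs2) e
    simp only [Nat.cast_ofNat, Nat.add_one_sub_one, pow_one] at this
    exact this
  have d3 : HasDerivAt (fun s : ℂ => H s ^ 2) 0 s := by
    have := d1.pow 2
    rw [mul_zero] at this
    exact this
  have d4 : HasDerivAt (fun s : ℂ => 1 + 3/16 * H s ^ 2) 0 s := by
    have := (d3.const_mul (3/16)).const_add 1
    simpa using this
  have d5 := d2.mul d4
  have hloc : (fun s : ℂ => H (s^2)) * (fun s : ℂ => 1 + 3/16 * H s ^ 2) =ᶠ[𝓝 s] (fun s : ℂ => H s ^ 2) := by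
    filter_upwards [isOpen_ball.mem_nhds hs] with x hx
    have : ‖x‖ < 1 := by simpa using hx
    exact H_fun this.le
  have d6 := d5.congr_of_eventuallyEq hloc.symm
  have d7 := d6.unique d3
  have h8 : deriv H (s^2) * (2 * s) * (1 + 3/16 * H s ^ 2) = 0 := by simpa using d7
  have h9 := H_one_add_ne hs1.le
  rcases mul_eq_zero.1 h8 with h10 | h10
  · rcases mul_eq_zero.1 h10 with h11 | h11
    · exact h11
    · exfalso
      apply hs0
      simpa using h11
  · exact absurd h10 h9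

lemma H_deriv_ne {s : ℂ} (hs : s ∈ ball (0:ℂ) 1) : deriv H s ≠ 0 := by
  intro h
  have hs1 : ‖s‖ < 1 := by simpa using hs
  by_cases hs0 : s = 0
  · rw [hs0, H_deriv_zero] at h
    exact one_ne_zero h
  have key : ∀ n : ℕ, deriv H (s^(2^n)) = 0 := by
    intro n
    induction n with
    | zero => simpa using h
    | succ n ih =>
      have : s^(2^(n+1)) = (s^(2^n))^2 := by rw [← pow_mul, pow_succ]
      rw [this]
      apply H_deriv_step _ (pow_ne_zero _ hs0) ih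
      rw [mem_ball_zero_iff, norm_pow]
      exact pow_lt_one₀ (norm_nonneg _) hs1 (by positivity)
  have hcont : ContinuousAt (deriv H) 0 := by
    have := (H_diff.deriv isOpen_ball).continuousOn.continuousAt (isOpen_ball.mem_nhds (by simp : (0:ℂ) ∈ ball (0:ℂ) 1))
    exact this
  have ht : Tendsto (fun n : ℕ => s^(2^n)) atTop (𝓝 0) := by
    have h1 := tendsto_pow_atTop_nhds_zero_of_norm_lt_one hs1
    exact h1.comp (tendsto_pow_atTop_atTop_of_one_lt (by norm_num : (1:ℕ) < 2))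
  have h2 : Tendsto (fun n : ℕ => deriv H (s^(2^n))) atTop (𝓝 (deriv H 0)) := hcont.tendsto.comp ht
  have h3 : (fun n : ℕ => deriv H (s^(2^n))) = fun _ => 0 := funext key
  rw [h3] at h2
  have := tendsto_nhds_unique h2 tendsto_const_nhds
  rw [H_deriv_zero] at this
  exact one_ne_zero this

lemma H_strict {s : ℂ} (hs : s ∈ ball (0:ℂ) 1) : HasStrictDerivAt H (deriv H s) s := by
  have h1 : ContDiffAt ℂ 1 H s :=
    (H_diff.contDiffOn isOpen_ball).contDiffAt (isOpen_ball.mem_nhds hs)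
  exact h1.hasStrictDerivAt' (H_hasDeriv hs) (by norm_num)

/-- The domain -/
def Om : Set ℂ := H '' ball 0 1

lemma Om_open : IsOpen Om := by
  rw [isOpen_iff_mem_nhds]
  rintro y ⟨s, hs, rfl⟩
  have := (H_strict hs).map_nhds_eq (H_deriv_ne hs)
  rw [← this]
  exact image_mem_map (isOpen_ball.mem_nhds hs)

lemma Om_conn : IsConnected Om := by
  have : IsConnected (ball (0:ℂ) 1) := ⟨⟨0, by simp⟩, (convex_ball 0 1).isPreconnected⟩
  exact this.image H (H_cont.mono ball_subset_closedBall)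

/-- the quadratic polynomial -/
def f (z : ℂ) : ℂ := z^2 + 3/16

lemma Z_fun {s : ℂ} (hs : ‖s‖ ≤ 1) (hs0 : s ≠ 0) : f (Z s) = Z (s^2) := by
  have h3 := G_eq hs
  unfold f Z
  field_simp
  linear_combination 16 * h3

lemma Z_iter {s : ℂ} (hs : ‖s‖ ≤ 1) (hs0 : s ≠ 0) (n : ℕ) : f^[n] (Z s) = Z (s^(2^n)) := by
  induction n with
  | zero => simp
  | succ n ih =>
    rw [Function.iterate_succ_apply', ih]
    have : s^(2^(n+1)) = (s^(2^n))^2 := by rw [← pow_mul, pow_succ]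
    rw [this]
    apply Z_fun _ (pow_ne_zero _ hs0)
    rw [norm_pow]
    exact pow_le_one₀ (norm_nonneg _) hs

/-- bounded orbits -/
def K : Set ℂ := {z | ∃ M : ℝ, ∀ n, ‖f^[n] z‖ ≤ M}

lemma Z_not_K {s : ℂ} (hs : ‖s‖ < 1) (hs0 : s ≠ 0) : Z s ∉ K := by
  rintro ⟨M, hM⟩
  have ht : Tendsto (fun n : ℕ => ‖s‖^(2^n)) atTop (𝓝 0) := by
    have h1 := tendsto_pow_atTop_nhds_zero_of_lt_one (norm_nonneg s) hs
    exact h1.comp (tendsto_pow_atTop_atTop_of_one_lt (by norm_num : (1:ℕ) < 2))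
  have hMp : 0 < |M| + 1 := by positivity
  have h2 := ht.eventually (gt_mem_nhds (show (0:ℝ) < 3/4/(|M|+1) by positivity))
  obtain ⟨n, hn⟩ := h2.exists
  have h3 := hM n
  rw [Z_iter hs.le hs0] at h3
  unfold Z at h3
  have h4 : ‖s^(2^n)‖ ≤ 1 := by
    rw [norm_pow]
    exact pow_le_one₀ (norm_nonneg _) hs.le
  have h5 := G_norm_ge h4
  have h6 : 0 < ‖s‖^(2^n) := pow_pos (norm_pos_iff.2 hs0) _
  rw [norm_div, norm_pow, div_le_iff₀ h6] at h3
  rw [lt_div_iff₀ hMp] at hn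
  have := le_abs_self M
  nlinarith

lemma Z_mem_K {s : ℂ} (hs : ‖s‖ = 1) : Z s ∈ K := by
  have hs0 : s ≠ 0 := by
    intro h
    rw [h] at hs
    simp at hs
  refine ⟨5/4, fun n => ?_⟩
  rw [Z_iter hs.le hs0]
  unfold Z
  have h4 : ‖s^(2^n)‖ = 1 := by rw [norm_pow, hs, one_pow]
  rw [norm_div, h4, div_one]
  exact G_norm_le h4.le

lemma not_mem_Om_of_inv_mem_K {y : ℂ} (hy : y ≠ 0) (h : y⁻¹ ∈ K) : y ∉ Om := by
  rintro ⟨s, hs, rfl⟩
  have hs1 : ‖s‖ < 1 := by simpa using hs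
  have hs0 : s ≠ 0 := by
    rintro rfl
    exact hy H_zero
  rw [H_inv] at h
  exact Z_not_K hs1 hs0 h

lemma H_ne_zero {s : ℂ} (hs : ‖s‖ ≤ 1) (hs0 : s ≠ 0) : H s ≠ 0 := div_ne_zero hs0 (G_ne hs)

lemma H_mem_frontier {s : ℂ} (hs : ‖s‖ = 1) : H s ∈ frontier Om := by
  have hs0 : s ≠ 0 := by
    intro h
    rw [h] at hs
    simp at hs
  rw [frontier, Om_open.interior_eq]
  refine ⟨?_, ?_⟩
  · have h1 : s ∈ closure (ball (0:ℂ) 1) := by
      rw [closure_ball _ one_ne_zero]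
      simp [hs]
    have h2 : ContinuousWithinAt H (closedBall 0 1) s := H_cont s (by simp [hs])
    exact (h2.mono ball_subset_closedBall).mem_closure_image h1
  · apply not_mem_Om_of_inv_mem_K (H_ne_zero hs.le hs0)
    rw [H_inv]
    exact Z_mem_K hs

lemma zero_mem_Om : (0:ℂ) ∈ Om := ⟨0, by simp, H_zero⟩

end

end Helper633.Boe
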