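import Pool.Agent.Helper633.Arcs

set_option autoImplicit false

namespace Helper633.Boe

open Filter Topology Complex Metric Set MeasureTheory Helper633.MinP

noncomputable section


/-- Recurrence set: points of `U` returning to `U` infinitely often under doubling. -/
lemma recur (U : Set (AddCircle (1:ℝ))) (hU : IsOpen U) (h0 : (0 : AddCircle (1:ℝ)) ∈ U) :
    0 < (AddCircle.haarAddCircle : Measure (AddCircle (1:ℝ))) {x | x ∈ U ∧ ∃ᶠ n in atTop, (2^n : ℕ) • x ∈ U} := by
  have herg : Ergodic (fun y : AddCircle (1:ℝ) => (2:ℕ) • y) (AddCircle.haarAddCircle : Measure (AddCircle (1:ℝ))) := by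
    have h := AddCircle.ergodic_nsmul (T := (1:ℝ)) (n := 2) (by norm_num)
    rw [AddCircle.volume_eq_smul_haarAddCircle] at h
    simpa using h
  have hcons : Conservative (fun y : AddCircle (1:ℝ) => (2:ℕ) • y) (AddCircle.haarAddCircle : Measure (AddCircle (1:ℝ))) :=
    herg.toMeasurePreserving.conservative
  have hae := hcons.ae_mem_imp_frequently_image_mem (s := U) hU.measurableSet.nullMeasurableSet
  have hit : ∀ n : ℕ, ∀ x : AddCircle (1:ℝ), (fun y : AddCircle (1:ℝ) => (2:ℕ) • y)^[n] x = (2^n : ℕ) • x := by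
    intro n
    induction n with
    | zero => intro x; simp
    | succ n ih =>
      intro x
      rw [Function.iterate_succ_apply', ih, smul_smul, pow_succ, mul_comm]
  have hpos : 0 < (AddCircle.haarAddCircle : Measure (AddCircle (1:ℝ))) U := hU.measure_pos (AddCircle.haarAddCircle : Measure (AddCircle (1:ℝ))) ⟨0, h0⟩
  refine lt_of_lt_of_le hpos ?_
  apply measure_mono_ae
  filter_upwards [hae] with x hx hxU
  refine ⟨hxU, ?_⟩
  have := hx hxU
  simp only [hit] at this
  exact this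

/-- nonconstant nonnegative superharmonic function on Om -/
def u0 (z : ℂ) : ENNReal := ENNReal.ofReal (z.re + 2)

lemma Om_bound {z : ℂ} (hz : z ∈ Om) : ‖z‖ ≤ 4/3 := by
  obtain ⟨s, hs, rfl⟩ := hz
  have : ‖s‖ < 1 := by simpa using hs
  exact H_norm_le this.le

lemma u0_SH : SH u0 Om := by
  have hpi := Real.pi_pos
  refine ⟨?_, ?_⟩
  · apply ContinuousOn.lowerSemicontinuousOn
    apply Continuous.continuousOn
    exact ENNReal.continuous_ofReal.comp (Complex.continuous_re.add continuous_const)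
  · intro a r hr hb
    unfold u0
    have hcont : Continuous (fun t : ℝ => (a + (r:ℂ) * Complex.exp ((t:ℂ) * Complex.I)).re + 2) :=
      (Complex.continuous_re.comp (circle_cont a r)).add continuous_const
    have hint : IntegrableOn (fun t : ℝ => (a + (r:ℂ) * Complex.exp ((t:ℂ) * Complex.I)).re + 2) (Ioc 0 (2 * Real.pi)) := by
      have := hcont.intervalIntegrable (μ := volume) 0 (2 * Real.pi)
      rwa [intervalIntegrable_iff_integrableOn_Ioc_of_le (by positivity)] at this
    have hnn : 0 ≤ᵐ[volume.restrict (Ioc 0 (2 * Real.pi))] (fun t : ℝ => (a + (r:ℂ) * Complex.exp ((t:ℂ) * Complex.I)).re + 2) := by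
      refine Eventually.of_forall (fun t => ?_)
      have h1 := Om_bound (hb (circle_mem hr t))
      have h2 := Complex.abs_re_le_norm (a + (r:ℂ) * Complex.exp ((t:ℂ) * Complex.I))
      have h3 := abs_le.1 (le_trans h2 h1)
      simp only [Pi.zero_apply]
      linarith [h3.1]
    rw [← ofReal_integral_eq_lintegral_ofReal hint hnn, ← ENNReal.ofReal_mul (by positivity)]
    apply ENNReal.ofReal_le_ofReal
    rw [← intervalIntegral.integral_of_le (by positivity)]
    have hc1 : IntervalIntegrable (fun t : ℝ => (a + (r:ℂ) * Complex.exp ((t:ℂ) * Complex.I)).re) volume 0 (2 * Real.pi) :=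
      (Complex.continuous_re.comp (circle_cont a r)).intervalIntegrable _ _
    rw [intervalIntegral.integral_add hc1 (intervalIntegrable_const)]
    have hm := mean_holo (g := fun z => z) (z := a) hr (by
      exact (differentiable_id.diffContOnCl))
    have hm2 : ∫ t in (0:ℝ)..(2 * Real.pi), (a + (r:ℂ) * Complex.exp ((t:ℂ) * Complex.I)).re = 2 * Real.pi * a.re := by
      have := congrArg Complex.re hm
      rw [← Complex.reCLM_apply, ← ContinuousLinearMap.intervalIntegral_comp_comm] at this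
      · simpa using this
      · exact (circle_cont a r).intervalIntegrable _ _
    rw [hm2]
    simp only [intervalIntegral.integral_const, sub_zero, smul_eq_mul]
    linarith

lemma Z_ec_iter (x : AddCircle (1:ℝ)) (n : ℕ) : f^[n] (Z (ec x)) = Z (ec ((2^n : ℕ) • x)) := by
  have h1 : ‖ec x‖ = 1 := ec_norm x
  have h0 : ec x ≠ 0 := by
    intro h
    rw [h] at h1
    simp at h1
  rw [Z_iter h1.le h0]
  congr 1
  unfold ec
  rw [AddCircle.toCircle_nsmul, Circle.coe_pow]

theorem final :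
    ¬ (∀ Ω : Set ℂ, IsOpen Ω → IsConnected Ω →
    (∃ u : ℂ → ENNReal,
      (LowerSemicontinuousOn u Ω ∧ ∀ a : ℂ, ∀ r : ℝ, 0 < r → Metric.closedBall a r ⊆ Ω →
        ∫⁻ t in Set.Ioc (0:ℝ) (2 * Real.pi), u (a + (r:ℂ) * Complex.exp ((t:ℂ) * Complex.I))
          ≤ ENNReal.ofReal (2 * Real.pi) * u a) ∧
      ∃ z ∈ Ω, ∃ w ∈ Ω, u z < u w ∧ u w < ⊤) →
    ∃ E ⊆ frontier Ω,
      (∀ z ∈ Ω, ∀ ε : ENNReal, 0 < ε → ∃ u : ℂ → ENNReal,
        (LowerSemicontinuousOn u Ω ∧ ∀ a : ℂ, ∀ r : ℝ, 0 < r → Metric.closedBall a r ⊆ Ω →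
          ∫⁻ t in Set.Ioc (0:ℝ) (2 * Real.pi), u (a + (r:ℂ) * Complex.exp ((t:ℂ) * Complex.I))
            ≤ ENNReal.ofReal (2 * Real.pi) * u a) ∧
        (∀ ζ ∈ frontier Ω \ E, 1 ≤ Filter.liminf u (nhdsWithin ζ Ω)) ∧ u z < ε) ∧
      ∀ z ∈ E, ∃ a b : ℝ → ℝ, Measurable (fun r => b r - a r) ∧
        (∀ r : ℝ, 0 < r → a r ≤ b r ∧ b r - a r ≤ 2 * Real.pi ∧
          ∀ t ∈ Set.Ioo (a r) (b r), z + (r:ℂ) * Complex.exp ((t:ℂ) * Complex.I) ∈ Ω) ∧
        Filter.Tendsto (fun R : ℝ => (Real.pi * R ^ 2)⁻¹ * ∫ r in (0:ℝ)..R, (b r - a r) * r)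
          (nhdsWithin 0 (Set.Ioi 0)) (nhds (1/2))) := by
  intro hall
  have hpi := Real.pi_pos
  have hη := eta_pos
  have hη2 := eta_lt
  -- apply to Om
  obtain ⟨E, hE, hE1, hE2⟩ := hall Om Om_open Om_conn ⟨u0, u0_SH, by
    refine ⟨0, zero_mem_Om, ?_⟩
    obtain ⟨δ, hδ, hb⟩ := Metric.isOpen_iff.1 Om_open 0 zero_mem_Om
    refine ⟨((δ/2 : ℝ) : ℂ), hb ?_, ?_, ?_⟩
    · rw [mem_ball_zero_iff, Complex.norm_real, Real.norm_eq_abs, abs_of_pos (by positivity)]
      linarith
    · unfold u0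
      apply (ENNReal.ofReal_lt_ofReal_iff (by simp; positivity)).2
      simp
      positivity
    · exact ENNReal.ofReal_lt_top⟩
  -- parameters
  set τ : ℝ := eta / (2 * Real.pi) with hτ
  have hτ0 : 0 < τ := by positivity
  have hτ1 : τ ≤ 1 := by
    rw [hτ, div_le_one (by positivity)]
    linarith
  have hτ2 : τ^2 ≤ eta / (2 * Real.pi) := by
    rw [← hτ]
    nlinarith
  -- neighbourhood
  set U : Set (AddCircle (1:ℝ)) := {x | ‖Z (ec x) - 3/4‖ < τ / 384000000} with hU
  have hZc : Continuous (fun x : AddCircle (1:ℝ) => Z (ec x)) := by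
    unfold Z
    apply Continuous.div
    · rw [← continuousOn_univ]
      exact G_cont.comp ec_cont.continuousOn (fun x _ => by simp [ec_norm])
    · exact ec_cont
    · intro x h
      have := ec_norm x
      rw [h] at this
      simp at this
  have hUo : IsOpen U := isOpen_lt ((hZc.sub continuous_const).norm) continuous_const
  have hU0 : (0 : AddCircle (1:ℝ)) ∈ U := by
    have : Z (ec 0) = 3/4 := by
      unfold ec Z
      simp [G_one]
    simp only [hU, mem_ofPred_eq]
    rw [this, sub_self, norm_zero]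
    positivity
  set T : Set (AddCircle (1:ℝ)) := {x | x ∈ U ∧ ∃ᶠ n in atTop, (2^n : ℕ) • x ∈ U} with hT
  have hTpos : 0 < (AddCircle.haarAddCircle : Measure (AddCircle (1:ℝ))) T := recur U hUo hU0
  have hfin : (AddCircle.haarAddCircle : Measure (AddCircle (1:ℝ))) T ≠ ⊤ := measure_ne_top _ _
  have hTr : 0 < ((AddCircle.haarAddCircle : Measure (AddCircle (1:ℝ))) T).toReal := ENNReal.toReal_pos hTpos.ne' hfin
  obtain ⟨u, hu, hlim, hsmall⟩ := hE1 0 zero_mem_Om (ENNReal.ofReal (((AddCircle.haarAddCircle : Measure (AddCircle (1:ℝ))) T).toReal / 4)) (by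
    rw [ENNReal.ofReal_pos]; positivity)
  have hbad : ∀ x ∈ T, H (ec x) ∉ E := by
    intro x hx hxE
    obtain ⟨a, b, hm, hab, hl⟩ := hE2 _ hxE
    refine bad_point (ec_norm x) hτ0 hτ1 hτ2 ?_ a b hm hab hl
    refine hx.2.mono (fun n hn => ?_)
    rw [Z_ec_iter]
    exact le_of_lt hn
  have hliminf : ∀ x ∈ T, 1 ≤ Filter.liminf u (nhdsWithin (H (ec x)) Om) := by
    intro x hx
    exact hlim _ ⟨H_mem_frontier (ec_norm x), hbad x hx⟩
  have hanal : ∀ s ∈ ball (0:ℂ) 1, AnalyticAt ℂ H s := fun s hs =>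
    (H_diff.analyticOnNhd isOpen_ball) s hs
  have hkey := pos_lemma Om_open H_cont hanal (fun s hs => H_deriv_ne hs)
    (fun s hs => mem_image_of_mem _ hs) T hu hliminf hTpos
  rw [H_zero] at hkey
  have h1 : ENNReal.ofReal (((AddCircle.haarAddCircle : Measure (AddCircle (1:ℝ))) T).toReal / 4) ≤ ENNReal.ofReal (tr u 0) := ENNReal.ofReal_le_ofReal hkey
  have h2 : ENNReal.ofReal (tr u 0) ≤ u 0 := by
    unfold tr
    exact le_trans ENNReal.ofReal_toReal_le (min_le_left _ _)
  exact absurd (lt_of_lt_of_le hsmall (le_trans h1 h2)) (lt_irrefl _)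

end

end Helper633.Boe
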