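import Pool.Agent.Helper633.Neumann
import Pool.Agent.Helper651.Closed

set_option autoImplicit false
open MeasureTheory Metric Set Filter Topology
open scoped ENNReal NNReal

namespace Pool.Agent.Helper633.Lim
open Pool.Agent.Helper19.RU Pool.Agent.HpBall

/-- from the one step theorem to the frozen statement in dimension n -/
theorem goal_of_step (n al Nc : ℕ) (C : ℝ) (hn : 1 < n) (hal : 1 ≤ al) (hrep : ReproProp n al)
    (hstep : StepProp n al Nc C) : Goal n := by
  obtain ⟨M, hM, h⟩ := unit_of_step n al Nc C hn hal hrep hstep
  exact Pool.Agent.Helper651.Closed.goal_of_unit n Nc hn M hM h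

end Pool.Agent.Helper633.Lim
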