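import Pool.Agent.Helper633.LimHol

set_option autoImplicit false
open MeasureTheory Metric Set Filter Topology
open scoped ENNReal NNReal

namespace Pool.Agent.Helper633.Lim
open Pool.Agent.Helper19.RU Pool.Agent.HpBall

/-- point evaluation bound -/
theorem H2_bound (n : ℕ) (hn : 1 < n) (ρ : ℝ) (hρ : ρ < 1) : ∃ A : ℝ, 0 ≤ A ∧ ∀ (M : ℝ), 0 ≤ M →
    ∀ g : E n → ℂ, H2 n (ENNReal.ofReal M) g → ∀ z ∈ closedBall (0 : E n) ρ, ‖g z‖ ^ 2 ≤ A * M := by
  obtain ⟨k, rfl⟩ : ∃ k, n = k + 2 := ⟨n - 2, by omega⟩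
  obtain ⟨C, hC, h⟩ := Pool.Agent.Helper633.SubMean.submean k 2 (by norm_num)
  set ρ' := max ρ 0 with hρ'
  have hρ0 : 0 ≤ ρ' := le_max_right _ _
  have hρ1 : ρ' < 1 := max_lt hρ (by norm_num)
  set r := (1 + ρ') / 2 with hr
  have hr0 : 0 < r := by rw [hr]; linarith
  have hr1 : r < 1 := by rw [hr]; linarith
  have hρr : ρ' < r := by rw [hr]; linarith
  have hq : ρ' / r < 1 := (div_lt_one hr0).mpr hρr
  have hq0 : 0 ≤ ρ' / r := by positivity
  have hq2 : 0 < 1 - (ρ' / r) ^ 2 := by nlinarith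
  refine ⟨C / (1 - (ρ' / r) ^ 2) ^ (k + 2), by positivity, ?_⟩
  intro M hM g hg z hz
  rw [mem_closedBall_zero_iff] at hz
  have hzρ : ‖z‖ ≤ ρ' := hz.trans (le_max_left _ _)
  set w : E (k + 2) := ((r⁻¹ : ℝ) : ℂ) • z with hw
  have hrc : (r : ℂ) ≠ 0 := by exact_mod_cast hr0.ne'
  have hwn : ‖w‖ ≤ ρ' / r := by
    rw [hw, norm_smul, Complex.norm_real, Real.norm_eq_abs, abs_of_pos (inv_pos.mpr hr0), inv_mul_eq_div]
    gcongr
  have hw1 : w ∈ ball (0 : E (k + 2)) 1 := by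
    rw [mem_ball_zero_iff]
    linarith
  set F : E (k + 2) → ℂ := fun x => g ((r : ℂ) • x) with hF
  have hFd : DifferentiableOn ℂ F (ball 0 r⁻¹) := by
    refine hg.1.comp (differentiable_id.const_smul (r : ℂ)).differentiableOn fun x hx => ?_
    rw [mem_ball_zero_iff] at hx ⊢
    show ‖(r : ℂ) • x‖ < 1
    rw [norm_smul, Complex.norm_real, Real.norm_eq_abs, abs_of_pos hr0]
    calc r * ‖x‖ < r * r⁻¹ := by gcongr
      _ = 1 := mul_inv_cancel₀ hr0.ne'
  have hFw : F w = g z := by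
    rw [hF, hw]
    simp only
    rw [smul_smul]
    push_cast
    rw [mul_inv_cancel₀ hrc, one_smul]
  have h1 := h F r⁻¹ ((one_lt_inv₀ hr0).mpr hr1) hFd w hw1
  rw [hFw] at h1
  have h2 : ∫⁻ ζ in {ζ : sphere (0 : E (k + 2)) 1 | ‖1 - inner ℂ w (ζ : E (k + 2))‖ ≤ 2 * (1 - ‖w‖ ^ 2)},
        ENNReal.ofReal (‖F ζ‖ ^ (2 : ℝ)) ∂((volume : Measure (E (k + 2))).toSphere) ≤ ENNReal.ofReal M := by
    refine (setLIntegral_le_lintegral _ _).trans ?_
    refine le_trans (le_of_eq ?_) (hg.2 r hr0.le hr1)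
    refine lintegral_congr fun ζ => ?_
    rw [Real.rpow_two, ENNReal.ofReal_pow (norm_nonneg _), ofReal_norm]
  have h3 : ENNReal.ofReal (‖g z‖ ^ (2 : ℝ)) ≤
      ENNReal.ofReal (C / (1 - ‖w‖ ^ 2) ^ (k + 2)) * ENNReal.ofReal M := h1.trans (by gcongr)
  have hw2 : 0 < 1 - ‖w‖ ^ 2 := by
    have : ‖w‖ < 1 := by simpa using hw1
    nlinarith [norm_nonneg w]
  rw [← ENNReal.ofReal_mul (by positivity), ENNReal.ofReal_le_ofReal_iff (by positivity), Real.rpow_two] at h3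
  refine h3.trans ?_
  gcongr

/-- closedness under limits along an ultrafilter -/
theorem H2_closed (n : ℕ) (hn : 1 < n) (U : Ultrafilter ℕ) (M : ℝ) (hM : 0 ≤ M) (g : ℕ → E n → ℂ)
    (hg : ∀ j, H2 n (ENNReal.ofReal M) (g j)) :
    ∃ G : E n → ℂ, H2 n (ENNReal.ofReal M) G ∧ ∀ z ∈ ball (0 : E n) 1, Tendsto (fun j => g j z) U (𝓝 (G z)) := by
  have hK : ∀ ρ : ℝ, ρ < 1 → ∃ K : ℝ, ∀ j, ∀ z ∈ closedBall (0 : E n) ρ, ‖g j z‖ ≤ K := by
    intro ρ hρ
    obtain ⟨A, hA, h⟩ := H2_bound n hn ρ hρ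
    refine ⟨Real.sqrt (A * M), fun j z hz => ?_⟩
    exact Real.le_sqrt_of_sq_le (h M hM (g j) (hg j) z hz)
  obtain ⟨G, hGt, hGd⟩ := limit_hol U g (fun j => (hg j).1) hK
  refine ⟨G, ⟨hGd, fun r hr0 hr1 => ?_⟩, hGt⟩
  set v := (sg n univ).toReal with hv
  have hvf : sg n univ ≠ ⊤ := by
    unfold sg
    exact measure_ne_top _ _
  have hv0 : 0 ≤ v := ENNReal.toReal_nonneg
  have key : ∀ ε : ℝ, 0 < ε → ∫⁻ ζ, ‖G ((r : ℂ) • (ζ : E n))‖ₑ ^ 2 ∂(sg n) ≤
      ENNReal.ofReal ((1 + ε) * M + (ε + ε ^ 2) * v) := by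
    intro ε hε
    have hu := limit_unif U g G (fun j => (hg j).1) hK hGt (closedBall 0 r) (isCompact_closedBall _ _)
      (fun z hz => by
        rw [mem_closedBall_zero_iff] at hz
        rw [mem_ball_zero_iff]
        linarith) ε hε
    obtain ⟨j, hj⟩ := hu.exists
    calc ∫⁻ ζ, ‖G ((r : ℂ) • (ζ : E n))‖ₑ ^ 2 ∂(sg n)
        ≤ ∫⁻ ζ, (ENNReal.ofReal (1 + ε) * ‖g j ((r : ℂ) • (ζ : E n))‖ₑ ^ 2 + ENNReal.ofReal (ε + ε ^ 2)) ∂(sg n) := by
          refine lintegral_mono fun ζ => ?_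
          simp only
          have hζ : ‖(ζ : E n)‖ = 1 := by simp
          have h1 := hj ((r : ℂ) • (ζ : E n)) (by
            rw [mem_closedBall_zero_iff, norm_smul, hζ, Complex.norm_real, Real.norm_eq_abs, abs_of_nonneg hr0, mul_one])
          set x := g j ((r : ℂ) • (ζ : E n))
          set y := G ((r : ℂ) • (ζ : E n))
          rw [← ofReal_norm y, ← ofReal_norm x, ← ENNReal.ofReal_pow (norm_nonneg _),
            ← ENNReal.ofReal_pow (norm_nonneg _), ← ENNReal.ofReal_mul (by positivity),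
            ← ENNReal.ofReal_add (by positivity) (by positivity)]
          apply ENNReal.ofReal_le_ofReal
          have h2 : ‖y‖ ≤ ‖x‖ + ε := by
            calc ‖y‖ = ‖x - (x - y)‖ := by congr 1; ring
              _ ≤ ‖x‖ + ‖x - y‖ := norm_sub_le _ _
              _ ≤ _ := by linarith
          have h3 : ‖y‖ ^ 2 ≤ (‖x‖ + ε) ^ 2 := pow_le_pow_left₀ (norm_nonneg _) h2 2
          nlinarith [mul_nonneg hε.le (sq_nonneg (‖x‖ - 1))]
      _ = ENNReal.ofReal (1 + ε) * ∫⁻ ζ, ‖g j ((r : ℂ) • (ζ : E n))‖ₑ ^ 2 ∂(sg n) +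
            ENNReal.ofReal (ε + ε ^ 2) * sg n univ := by
          rw [lintegral_add_right _ measurable_const, lintegral_const_mul' _ _ ENNReal.ofReal_ne_top,
            lintegral_const]
      _ ≤ ENNReal.ofReal (1 + ε) * ENNReal.ofReal M + ENNReal.ofReal (ε + ε ^ 2) * ENNReal.ofReal v := by
          rw [hv, ENNReal.ofReal_toReal hvf]
          gcongr
          exact (hg j).2 r hr0 hr1
      _ = _ := by
          rw [← ENNReal.ofReal_mul (by positivity), ← ENNReal.ofReal_mul (by positivity),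
            ← ENNReal.ofReal_add (by positivity) (by positivity)]
  have hlim : Tendsto (fun ε : ℝ => ENNReal.ofReal ((1 + ε) * M + (ε + ε ^ 2) * v)) (𝓝[>] 0)
      (𝓝 (ENNReal.ofReal M)) := by
    have h1 : Continuous (fun ε : ℝ => ENNReal.ofReal ((1 + ε) * M + (ε + ε ^ 2) * v)) :=
      ENNReal.continuous_ofReal.comp (by fun_prop)
    have h2 := (h1.tendsto 0).mono_left (nhdsWithin_le_nhds (s := Ioi 0))
    simpa using h2
  exact ge_of_tendsto hlim (by filter_upwards [self_mem_nhdsWithin] with ε hε using key ε hε)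

/-- geometric sums -/
theorem H2_sum (n : ℕ) (M : ℝ) (hM : 0 ≤ M) (X : ℕ → E n → ℂ)
    (hX : ∀ k, H2 n (ENNReal.ofReal (M * (1 / 4) ^ k)) (X k)) (K : ℕ) :
    H2 n (ENNReal.ofReal (4 * M)) (fun z => ∑ k ∈ Finset.range K, X k z) := by
  constructor
  · exact DifferentiableOn.fun_sum fun k _ => (hX k).1
  · intro r hr0 hr1
    have hpt : ∀ x : ℕ → ℂ, ‖∑ k ∈ Finset.range K, x k‖ₑ ^ 2 ≤
        ∑ k ∈ Finset.range K, ENNReal.ofReal (2 * 2 ^ k) * ‖x k‖ₑ ^ 2 := by
      intro x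
      have h1 : ‖∑ k ∈ Finset.range K, x k‖ ^ 2 ≤ ∑ k ∈ Finset.range K, (2 * 2 ^ k) * ‖x k‖ ^ 2 := by
        calc ‖∑ k ∈ Finset.range K, x k‖ ^ 2 ≤ (∑ k ∈ Finset.range K, ‖x k‖) ^ 2 := by
              gcongr
              exact norm_sum_le _ _
          _ ≤ (∑ k ∈ Finset.range K, (1 / 2 : ℝ) ^ k) * (∑ k ∈ Finset.range K, 2 ^ k * ‖x k‖ ^ 2) := by
              refine Finset.sum_sq_le_sum_mul_sum_of_sq_le_mul _ (fun k _ => by positivity)
                (fun k _ => by positivity) (fun k _ => ?_)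
              rw [← mul_assoc, ← mul_pow]
              norm_num
          _ ≤ 2 * (∑ k ∈ Finset.range K, 2 ^ k * ‖x k‖ ^ 2) := by
              gcongr
              calc ∑ k ∈ Finset.range K, (1 / 2 : ℝ) ^ k ≤ ∑' k : ℕ, (1 / 2 : ℝ) ^ k :=
                    summable_geometric_two.sum_le_tsum _ (fun k _ => by positivity)
                _ = 2 := tsum_geometric_two
          _ = _ := by
              rw [Finset.mul_sum]
              refine Finset.sum_congr rfl fun k _ => by ring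
      rw [← ofReal_norm, ← ENNReal.ofReal_pow (norm_nonneg _)]
      refine (ENNReal.ofReal_le_ofReal h1).trans (le_of_eq ?_)
      rw [ENNReal.ofReal_sum_of_nonneg (fun k _ => by positivity)]
      refine Finset.sum_congr rfl fun k _ => ?_
      rw [ENNReal.ofReal_mul (by positivity), ENNReal.ofReal_pow (norm_nonneg _), ofReal_norm]
    have hm : ∀ k, Measurable (fun ζ : sphere (0 : E n) 1 => ‖X k ((r : ℂ) • (ζ : E n))‖ₑ ^ 2) := by
      intro k
      have hc : Continuous (fun ζ : sphere (0 : E n) 1 => X k ((r : ℂ) • (ζ : E n))) := by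
        refine (hX k).1.continuousOn.comp_continuous (by fun_prop) fun ζ => ?_
        have hζ : ‖(ζ : E n)‖ = 1 := by simp
        rw [mem_ball_zero_iff, norm_smul, hζ, Complex.norm_real, Real.norm_eq_abs, abs_of_nonneg hr0, mul_one]
        exact hr1
      exact (hc.measurable.enorm).pow_const 2
    calc ∫⁻ ζ, ‖∑ k ∈ Finset.range K, X k ((r : ℂ) • (ζ : E n))‖ₑ ^ 2 ∂(sg n)
        ≤ ∫⁻ ζ, ∑ k ∈ Finset.range K, ENNReal.ofReal (2 * 2 ^ k) * ‖X k ((r : ℂ) • (ζ : E n))‖ₑ ^ 2 ∂(sg n) :=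
          lintegral_mono fun ζ => hpt _
      _ = ∑ k ∈ Finset.range K, ENNReal.ofReal (2 * 2 ^ k) * ∫⁻ ζ, ‖X k ((r : ℂ) • (ζ : E n))‖ₑ ^ 2 ∂(sg n) := by
          rw [lintegral_finsetSum _ fun k _ => (hm k).const_mul _]
          refine Finset.sum_congr rfl fun k _ => ?_
          rw [lintegral_const_mul' _ _ ENNReal.ofReal_ne_top]
      _ ≤ ∑ k ∈ Finset.range K, ENNReal.ofReal (2 * 2 ^ k) * ENNReal.ofReal (M * (1 / 4) ^ k) := by
          refine Finset.sum_le_sum fun k _ => ?_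
          gcongr
          exact (hX k).2 r hr0 hr1
      _ = ENNReal.ofReal (∑ k ∈ Finset.range K, 2 * M * (1 / 2) ^ k) := by
          rw [ENNReal.ofReal_sum_of_nonneg (fun k _ => by positivity)]
          refine Finset.sum_congr rfl fun k _ => ?_
          rw [← ENNReal.ofReal_mul (by positivity)]
          congr 1
          have : (2 : ℝ) ^ k * (1 / 4) ^ k = (1 / 2) ^ k := by
            rw [← mul_pow]
            norm_num
          calc 2 * 2 ^ k * (M * (1 / 4) ^ k) = 2 * M * ((2 : ℝ) ^ k * (1 / 4) ^ k) := by ring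
            _ = _ := by rw [this]
      _ ≤ ENNReal.ofReal (4 * M) := by
          apply ENNReal.ofReal_le_ofReal
          rw [← Finset.mul_sum]
          have : ∑ k ∈ Finset.range K, (1 / 2 : ℝ) ^ k ≤ 2 := by
            calc ∑ k ∈ Finset.range K, (1 / 2 : ℝ) ^ k ≤ ∑' k : ℕ, (1 / 2 : ℝ) ^ k :=
                  summable_geometric_two.sum_le_tsum _ (fun k _ => by positivity)
              _ = 2 := tsum_geometric_two
          nlinarith

end Pool.Agent.Helper633.Lim
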