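import Pool.Agent.Helper633.SubMean
import Pool.Agent.Helper19.RU.Step

set_option autoImplicit false
open MeasureTheory Metric Set Filter Topology
open scoped ENNReal NNReal

namespace Pool.Agent.Helper633.Lim

section abs
variable {H : Type*} [NormedAddCommGroup H] [NormedSpace ℂ H]

theorem fderiv_bound (g : H → ℂ) (c : H) (R K : ℝ) (hR : 0 < R)
    (hg : DifferentiableOn ℂ g (ball c R)) (hK : ∀ z ∈ ball c R, ‖g z‖ ≤ K) :
    ‖fderiv ℂ g c‖ ≤ 2 * K / R := by
  refine Complex.norm_fderiv_le_div_of_mapsTo_ball hg (fun z hz => ?_) hR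
  rw [mem_closedBall, dist_eq_norm]
  calc ‖g z - g c‖ ≤ ‖g z‖ + ‖g c‖ := norm_sub_le _ _
    _ ≤ 2 * K := by linarith [hK z hz, hK c (mem_ball_self hR)]

theorem lip_bound (g : H → ℂ) (c : H) (R K : ℝ) (hR : 0 < R)
    (hg : DifferentiableOn ℂ g (ball c R)) (hK : ∀ z ∈ ball c R, ‖g z‖ ≤ K) (z : H) (hz : z ∈ ball c R) :
    ‖g z - g c‖ ≤ 2 * K / R * ‖z - c‖ := by
  have h := Complex.dist_le_div_mul_dist_of_mapsTo_ball hg (R₂ := 2 * K) (fun z hz => by
    rw [mem_closedBall, dist_eq_norm]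
    calc ‖g z - g c‖ ≤ ‖g z‖ + ‖g c‖ := norm_sub_le _ _
      _ ≤ 2 * K := by linarith [hK z hz, hK c (mem_ball_self hR)]) hz
  rwa [dist_eq_norm, dist_eq_norm] at h

theorem second_bound (g : H → ℂ) (c : H) (R K : ℝ) (hR : 0 < R)
    (hg : DifferentiableOn ℂ g (ball c R)) (hK : ∀ z ∈ ball c R, ‖g z‖ ≤ K) (z : H) (hz : z ∈ ball c R) :
    ‖g z - g c - fderiv ℂ g c (z - c)‖ ≤ 4 * K * (‖z - c‖ / R) ^ 2 := by
  set D := fderiv ℂ g c with hD
  have hDn : ‖D‖ ≤ 2 * K / R := fderiv_bound g c R K hR hg hK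
  have hgc : HasFDerivAt g D c := (hg.differentiableAt (isOpen_ball.mem_nhds (mem_ball_self hR))).hasFDerivAt
  set h : H → ℂ := fun z => g z - D (z - c) with hh
  have hK0 : 0 ≤ K := (norm_nonneg _).trans (hK c (mem_ball_self hR))
  have h1 := Complex.dist_le_mul_div_pow_of_mapsTo_ball_of_isLittleO (f := h) (c := c) (z := z) (R₁ := R)
    (R₂ := 4 * K) (n := 1) (hg.sub (D.differentiable.comp (differentiable_id.sub_const c)).differentiableOn)
    (fun w hw => by
      rw [mem_closedBall, dist_eq_norm]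
      have e1 : h w - h c = g w - g c - D (w - c) := by
        simp only [hh, sub_self, map_zero, sub_zero]
        ring
      rw [e1]
      have e2 : ‖D (w - c)‖ ≤ 2 * K := by
        calc ‖D (w - c)‖ ≤ ‖D‖ * ‖w - c‖ := D.le_opNorm _
          _ ≤ 2 * K / R * R := by
            gcongr
            rw [mem_ball, dist_eq_norm] at hw
            exact hw.le
          _ = 2 * K := by field_simp
      calc ‖g w - g c - D (w - c)‖ ≤ ‖g w - g c‖ + ‖D (w - c)‖ := norm_sub_le _ _
        _ ≤ (‖g w‖ + ‖g c‖) + 2 * K := by gcongr; exact norm_sub_le _ _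
        _ ≤ 4 * K := by linarith [hK w hw, hK c (mem_ball_self hR)])
    (by
      have h2 := hgc.isLittleO
      have h3 : (fun x => h x - h c) = (fun x => g x - g c - D (x - c)) := by
        funext x
        simp only [hh, sub_self, map_zero, sub_zero]
        ring
      rw [h3]
      simpa using h2.norm_right)
    hz
  rw [dist_eq_norm, dist_eq_norm] at h1
  have e1 : h z - h c = g z - g c - D (z - c) := by
    simp only [hh, sub_self, map_zero, sub_zero]
    ring
  rwa [e1] at h1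

/-- limit of a locally bounded sequence of holomorphic functions along an ultrafilter -/
theorem limit_hol [FiniteDimensional ℂ H] (U : Ultrafilter ℕ) (g : ℕ → H → ℂ)
    (hd : ∀ j, DifferentiableOn ℂ (g j) (ball 0 1))
    (hK : ∀ ρ : ℝ, ρ < 1 → ∃ K : ℝ, ∀ j, ∀ z ∈ closedBall (0 : H) ρ, ‖g j z‖ ≤ K) :
    ∃ G : H → ℂ, (∀ z ∈ ball (0 : H) 1, Tendsto (fun j => g j z) U (𝓝 (G z))) ∧
      DifferentiableOn ℂ G (ball 0 1) := by
  classical
  have hlim : ∀ z ∈ ball (0 : H) 1, ∃ x, Tendsto (fun j => g j z) U (𝓝 x) := by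
    intro z hz
    rw [mem_ball_zero_iff] at hz
    obtain ⟨K, hK'⟩ := hK ‖z‖ hz
    have hc : IsCompact (closedBall (0 : ℂ) K) := isCompact_closedBall 0 K
    obtain ⟨x, _, hx⟩ := hc.ultrafilter_le_nhds (U.map (fun j => g j z))
      (show Filter.map (fun j => g j z) (U : Filter ℕ) ≤ 𝓟 (closedBall (0 : ℂ) K) from
        tendsto_principal.mpr (Eventually.of_forall fun j => by simpa using hK' j z (by simp)))
    exact ⟨x, hx⟩
  set G : H → ℂ := fun z => if h : z ∈ ball (0 : H) 1 then (hlim z h).choose else 0 with hG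
  have hGt : ∀ z ∈ ball (0 : H) 1, Tendsto (fun j => g j z) U (𝓝 (G z)) := by
    intro z hz
    rw [hG]
    simp only [dif_pos hz]
    exact (hlim z hz).choose_spec
  refine ⟨G, hGt, ?_⟩
  intro c hc
  have hc1 : ‖c‖ < 1 := by simpa using hc
  set R := (1 - ‖c‖) / 2 with hR
  have hR0 : 0 < R := by rw [hR]; linarith
  obtain ⟨K, hK'⟩ := hK ((1 + ‖c‖) / 2) (by linarith)
  have hsub : ball c R ⊆ closedBall (0 : H) ((1 + ‖c‖) / 2) := by
    intro z hz
    rw [mem_ball, dist_eq_norm] at hz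
    rw [mem_closedBall_zero_iff]
    calc ‖z‖ = ‖(z - c) + c‖ := by rw [sub_add_cancel]
      _ ≤ ‖z - c‖ + ‖c‖ := norm_add_le _ _
      _ ≤ _ := by rw [hR] at hz; linarith
  have hsub1 : ball c R ⊆ ball (0 : H) 1 := fun z hz => by
    have := hsub hz
    rw [mem_closedBall_zero_iff] at this
    rw [mem_ball_zero_iff]
    linarith
  have hKc : ∀ j, ∀ z ∈ ball c R, ‖g j z‖ ≤ K := fun j z hz => hK' j z (hsub hz)
  have hdc : ∀ j, DifferentiableOn ℂ (g j) (ball c R) := fun j => (hd j).mono hsub1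
  -- limit of the derivatives
  have : ProperSpace (H →L[ℂ] ℂ) := FiniteDimensional.proper ℂ _
  obtain ⟨D, _, hD⟩ := (isCompact_closedBall (0 : H →L[ℂ] ℂ) (2 * K / R)).ultrafilter_le_nhds
    (U.map (fun j => fderiv ℂ (g j) c))
    (show Filter.map (fun j => fderiv ℂ (g j) c) (U : Filter ℕ) ≤
        𝓟 (closedBall (0 : H →L[ℂ] ℂ) (2 * K / R)) from
      tendsto_principal.mpr (Eventually.of_forall fun j => by
        simpa using fderiv_bound (g j) c R K hR0 (hdc j) (hKc j)))
  have hDt : Tendsto (fun j => fderiv ℂ (g j) c) U (𝓝 D) := hD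
  have hest : ∀ z ∈ ball c R, ‖G z - G c - D (z - c)‖ ≤ 4 * K * (‖z - c‖ / R) ^ 2 := by
    intro z hz
    have h1 : Tendsto (fun j => ‖g j z - g j c - fderiv ℂ (g j) c (z - c)‖) U
        (𝓝 ‖G z - G c - D (z - c)‖) := by
      refine (((hGt z (hsub1 hz)).sub (hGt c hc)).sub ?_).norm
      exact ((ContinuousLinearMap.apply ℂ ℂ (z - c)).continuous.tendsto D).comp hDt
    exact le_of_tendsto h1 (Eventually.of_forall fun j => second_bound (g j) c R K hR0 (hdc j) (hKc j) z hz)
  have hder : HasFDerivAt G D c := by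
    refine HasFDerivAt.of_isLittleO ?_
    have h2 : (fun x => G x - G c - D (x - c)) =O[𝓝 c] (fun x => ‖x - c‖ ^ 2) := by
      refine Asymptotics.IsBigO.of_bound (4 * K / R ^ 2) ?_
      filter_upwards [ball_mem_nhds c hR0] with z hz
      refine (hest z hz).trans (le_of_eq ?_)
      rw [Real.norm_eq_abs, abs_of_nonneg (by positivity), div_pow]
      ring
    exact h2.trans_isLittleO (Asymptotics.isLittleO_pow_sub_sub c (by norm_num))
  exact hder.differentiableAt.differentiableWithinAt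

/-- uniform convergence on compact sets -/
theorem limit_unif (U : Ultrafilter ℕ) (g : ℕ → H → ℂ) (G : H → ℂ)
    (hd : ∀ j, DifferentiableOn ℂ (g j) (ball 0 1))
    (hK : ∀ ρ : ℝ, ρ < 1 → ∃ K : ℝ, ∀ j, ∀ z ∈ closedBall (0 : H) ρ, ‖g j z‖ ≤ K)
    (hG : ∀ z ∈ ball (0 : H) 1, Tendsto (fun j => g j z) U (𝓝 (G z)))
    (S : Set H) (hS : IsCompact S) (hS1 : S ⊆ ball 0 1) (ε : ℝ) (hε : 0 < ε) :
    ∀ᶠ j in (U : Filter ℕ), ∀ z ∈ S, ‖g j z - G z‖ ≤ ε := by
  refine hS.induction_on (p := fun S => ∀ᶠ j in (U : Filter ℕ), ∀ z ∈ S, ‖g j z - G z‖ ≤ ε) ?_ ?_ ?_ ?_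
  · simp
  · intro s t hst ht
    filter_upwards [ht] with j hj z hz
    exact hj z (hst hz)
  · intro s t hs ht
    filter_upwards [hs, ht] with j h1 h2 z hz
    rcases hz with hz | hz
    · exact h1 z hz
    · exact h2 z hz
  · intro c hcS
    have hc := hS1 hcS
    have hc1 : ‖c‖ < 1 := by simpa using hc
    set R := (1 - ‖c‖) / 2 with hR
    have hR0 : 0 < R := by rw [hR]; linarith
    obtain ⟨K, hK'⟩ := hK ((1 + ‖c‖) / 2) (by linarith)
    have hsub : ball c R ⊆ closedBall (0 : H) ((1 + ‖c‖) / 2) := by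
      intro z hz
      rw [mem_ball, dist_eq_norm] at hz
      rw [mem_closedBall_zero_iff]
      calc ‖z‖ = ‖(z - c) + c‖ := by rw [sub_add_cancel]
        _ ≤ ‖z - c‖ + ‖c‖ := norm_add_le _ _
        _ ≤ _ := by rw [hR] at hz; linarith
    have hsub1 : ball c R ⊆ ball (0 : H) 1 := fun z hz => by
      have := hsub hz
      rw [mem_closedBall_zero_iff] at this
      rw [mem_ball_zero_iff]
      linarith
    have hK0 : 0 ≤ K := (norm_nonneg _).trans (hK' 0 c (hsub (mem_ball_self hR0)))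
    set L := 2 * K / R with hL
    have hL0 : 0 ≤ L := by positivity
    set r := min R (ε / (3 * (L + 1))) with hr
    have hr0 : 0 < r := by positivity
    have hlip : ∀ j, ∀ z ∈ ball c r, ‖g j z - g j c‖ ≤ ε / 3 := by
      intro j z hz
      have hzR : z ∈ ball c R := ball_subset_ball (min_le_left _ _) hz
      have h1 := lip_bound (g j) c R K hR0 ((hd j).mono hsub1) (fun z hz => hK' j z (hsub hz)) z hzR
      refine h1.trans ?_
      rw [mem_ball, dist_eq_norm] at hz
      have h2 : ‖z - c‖ ≤ ε / (3 * (L + 1)) := hz.le.trans (min_le_right _ _)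
      calc L * ‖z - c‖ ≤ L * (ε / (3 * (L + 1))) := by gcongr
        _ ≤ (L + 1) * (ε / (3 * (L + 1))) := by gcongr; linarith
        _ = ε / 3 := by field_simp
    have hlipG : ∀ z ∈ ball c r, ‖G z - G c‖ ≤ ε / 3 := by
      intro z hz
      have hzR : z ∈ ball c R := ball_subset_ball (min_le_left _ _) hz
      have h1 : Tendsto (fun j => ‖g j z - g j c‖) U (𝓝 ‖G z - G c‖) :=
        ((hG z (hsub1 hzR)).sub (hG c hc)).norm
      exact le_of_tendsto h1 (Eventually.of_forall fun j => hlip j z hz)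
    refine ⟨ball c r, mem_nhdsWithin_of_mem_nhds (ball_mem_nhds c hr0), ?_⟩
    have h1 : ∀ᶠ j in (U : Filter ℕ), ‖g j c - G c‖ < ε / 3 := by
      have h2 := (hG c hc).sub_const (G c)
      rw [sub_self] at h2
      have h3 := h2.norm
      rw [norm_zero] at h3
      exact h3.eventually (gt_mem_nhds (by positivity))
    filter_upwards [h1] with j hj z hz
    calc ‖g j z - G z‖ = ‖(g j z - g j c) + (g j c - G c) - (G z - G c)‖ := by congr 1; ring
      _ ≤ ‖(g j z - g j c) + (g j c - G c)‖ + ‖G z - G c‖ := norm_sub_le _ _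
      _ ≤ (‖g j z - g j c‖ + ‖g j c - G c‖) + ‖G z - G c‖ := by gcongr; exact norm_add_le _ _
      _ ≤ (ε / 3 + ε / 3) + ε / 3 := by
        gcongr
        · exact hlip j z hz
        · exact hlipG z hz
      _ = ε := by ring

end abs

end Pool.Agent.Helper633.Lim
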