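import Mathlib

set_option autoImplicit false

namespace Helper633.MinP

open Filter Topology Complex Metric Set MeasureTheory

noncomputable section

/-- The frozen notion of a nonnegative superharmonic function. -/
def SH (u : ℂ → ENNReal) (Ω : Set ℂ) : Prop :=
  LowerSemicontinuousOn u Ω ∧ ∀ a : ℂ, ∀ r : ℝ, 0 < r → Metric.closedBall a r ⊆ Ω →
    ∫⁻ t in Set.Ioc (0:ℝ) (2 * Real.pi), u (a + (r:ℂ) * Complex.exp ((t:ℂ) * Complex.I))
      ≤ ENNReal.ofReal (2 * Real.pi) * u a

/-- truncation -/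
def tr (u : ℂ → ENNReal) (z : ℂ) : ℝ := (min (u z) (1/2)).toReal

lemma tr_lsc {u : ℂ → ENNReal} {Ω : Set ℂ} (hu : LowerSemicontinuousOn u Ω) :
    LowerSemicontinuousOn (tr u) Ω := by
  intro x hx y hy
  unfold tr at hy ⊢
  have hfin : ∀ z, min (u z) (1/2) ≠ ⊤ := fun z => ne_top_of_le_ne_top (by simp) (min_le_right _ _)
  by_cases hy0 : y < 0
  · exact Eventually.of_forall (fun z => lt_of_lt_of_le hy0 ENNReal.toReal_nonneg)
  push Not at hy0
  have h1 : ENNReal.ofReal y < min (u x) (1/2) := by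
    rw [← ENNReal.ofReal_toReal (hfin x)]
    exact (ENNReal.ofReal_lt_ofReal_iff_of_nonneg hy0).2 hy
  obtain ⟨h2, h3⟩ := lt_min_iff.1 h1
  filter_upwards [hu x hx _ h2] with z hz
  have h4 : ENNReal.ofReal y < min (u z) (1/2) := lt_min hz h3
  exact (ENNReal.ofReal_lt_iff_lt_toReal hy0 (hfin z)).1 h4

lemma tr_nonneg (u : ℂ → ENNReal) (z : ℂ) : 0 ≤ tr u z := ENNReal.toReal_nonneg

lemma tr_le (u : ℂ → ENNReal) (z : ℂ) : tr u z ≤ 1/2 := by
  unfold tr
  have : (1/2 : ENNReal).toReal = 1/2 := by simp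
  rw [← this]
  exact ENNReal.toReal_mono (by simp) (min_le_right _ _)

lemma circle_cont (a : ℂ) (r : ℝ) :
    Continuous (fun t : ℝ => a + (r:ℂ) * Complex.exp ((t:ℂ) * Complex.I)) := by fun_prop

lemma circle_mem {a : ℂ} {r : ℝ} (hr : 0 < r) (t : ℝ) :
    a + (r:ℂ) * Complex.exp ((t:ℂ) * Complex.I) ∈ closedBall a r := by
  rw [mem_closedBall, dist_eq_norm]
  simp [Complex.norm_exp_ofReal_mul_I, abs_of_pos hr]

lemma meas_circle {u : ℂ → ENNReal} {Ω : Set ℂ} (hu : LowerSemicontinuousOn u Ω) {a : ℂ} {r : ℝ}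
    (hr : 0 < r) (hb : closedBall a r ⊆ Ω) :
    Measurable (fun t : ℝ => u (a + (r:ℂ) * Complex.exp ((t:ℂ) * Complex.I))) := by
  have h1 : LowerSemicontinuousOn (u ∘ (fun t : ℝ => a + (r:ℂ) * Complex.exp ((t:ℂ) * Complex.I))) univ :=
    hu.comp (circle_cont a r).continuousOn (fun t _ => hb (circle_mem hr t))
  have h2 := lowerSemicontinuousOn_univ_iff.1 h1
  exact h2.measurable

lemma tr_mean {u : ℂ → ENNReal} {Ω : Set ℂ} (hu : SH u Ω) {a : ℂ} {r : ℝ}
    (hr : 0 < r) (hb : closedBall a r ⊆ Ω) :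
    ∫ t in (0:ℝ)..(2 * Real.pi), tr u (a + (r:ℂ) * Complex.exp ((t:ℂ) * Complex.I))
      ≤ 2 * Real.pi * tr u a := by
  have hpi := Real.pi_pos
  have hfin : ∀ z, min (u z) (1/2) ≠ ⊤ := fun z => ne_top_of_le_ne_top (by simp) (min_le_right _ _)
  rw [intervalIntegral.integral_of_le (by positivity)]
  unfold tr
  rw [integral_toReal ((meas_circle hu.1 hr hb).min measurable_const).aemeasurable
    (Eventually.of_forall (fun t => (hfin _).lt_top))]
  have h1 : ∫⁻ t in Set.Ioc (0:ℝ) (2 * Real.pi), min (u (a + (r:ℂ) * Complex.exp ((t:ℂ) * Complex.I))) (1/2)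
      ≤ ENNReal.ofReal (2 * Real.pi) * min (u a) (1/2) := by
    rw [mul_min]
    apply le_min
    · exact le_trans (lintegral_mono (fun t => min_le_left _ _)) (hu.2 a r hr hb)
    · refine le_trans (lintegral_mono (fun t => min_le_right _ _)) ?_
      rw [setLIntegral_const, Real.volume_Ioc, mul_comm, sub_zero]
  have h2 := ENNReal.toReal_mono (ENNReal.mul_ne_top ENNReal.ofReal_ne_top (hfin a)) h1
  rw [ENNReal.toReal_mul, ENNReal.toReal_ofReal (by positivity)] at h2
  exact h2

/-- Real super-mean functions -/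
def RSH (v : ℂ → ℝ) (Ω : Set ℂ) : Prop :=
  LowerSemicontinuousOn v Ω ∧ ∀ a : ℂ, ∀ r : ℝ, 0 < r → closedBall a r ⊆ Ω →
    (IntervalIntegrable (fun t : ℝ => v (a + (r:ℂ) * Complex.exp ((t:ℂ) * Complex.I))) volume 0 (2 * Real.pi)) ∧
    ∫ t in (0:ℝ)..(2 * Real.pi), v (a + (r:ℂ) * Complex.exp ((t:ℂ) * Complex.I))
      ≤ 2 * Real.pi * v a

lemma tr_RSH {u : ℂ → ENNReal} {Ω : Set ℂ} (hu : SH u Ω) : RSH (tr u) Ω := by
  refine ⟨tr_lsc hu.1, fun a r hr hb => ⟨?_, tr_mean hu hr hb⟩⟩
  have hm : Measurable (fun t : ℝ => tr u (a + (r:ℂ) * Complex.exp ((t:ℂ) * Complex.I))) :=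
    ((meas_circle hu.1 hr hb).min measurable_const).ennreal_toReal
  have hpi := Real.pi_pos
  rw [intervalIntegrable_iff_integrableOn_Ioc_of_le (by positivity)]
  refine Measure.integrableOn_of_bounded (M := 1/2) (measure_Ioc_lt_top).ne hm.aestronglyMeasurable ?_
  refine Eventually.of_forall (fun t => ?_)
  rw [Real.norm_eq_abs, abs_of_nonneg (tr_nonneg _ _)]
  exact tr_le _ _

lemma mean_holo {g : ℂ → ℂ} {z : ℂ} {r : ℝ} (hr : 0 < r)
    (hg : DiffContOnCl ℂ g (ball z r)) :
    ∫ t in (0:ℝ)..(2 * Real.pi), g (z + (r:ℂ) * Complex.exp ((t:ℂ) * Complex.I))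
      = 2 * Real.pi * g z := by
  have h := DiffContOnCl.circleAverage (f := g) (c := z) (R := r) (by rwa [abs_of_pos hr])
  rw [Real.circleAverage_def] at h
  have hpi := Real.pi_pos
  have h2 : (∫ θ in (0:ℝ)..2 * Real.pi, g (circleMap z r θ)) = (2 * Real.pi : ℝ) • g z := by
    rw [← h, smul_smul, mul_inv_cancel₀ (by positivity), one_smul]
  simpa [circleMap] using h2

/-- **Minimum principle** through a locally biholomorphic parametrisation. -/
lemma min_principle {v : ℂ → ℝ} {Ω : Set ℂ} (hΩ : IsOpen Ω) (hv : RSH v Ω)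
    {F : ℂ → ℂ} (hF : ∀ s, ‖s‖ ≤ 1 → AnalyticAt ℂ F s) (hF' : ∀ s, ‖s‖ ≤ 1 → deriv F s ≠ 0)
    (hmap : ∀ s, ‖s‖ ≤ 1 → F s ∈ Ω)
    {p : ℂ → ℂ} (hp : Differentiable ℂ p) {e : ℝ}
    (hb : ∀ s, ‖s‖ = 1 → (p s).re - e ≤ v (F s)) :
    (p 0).re - e ≤ v (F 0) := by
  have hpi := Real.pi_pos
  apply le_of_forall_pos_le_add
  intro ε hε
  have hFc : ContinuousOn F (closedBall 0 1) := fun s hs =>
    (hF s (by simpa using hs)).continuousAt.continuousWithinAt
  -- the comparison function
  set w : ℂ → ℝ := fun s => v (F s) + (-(p s).re - ε * ‖s‖^2) with hw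
  have hwl : LowerSemicontinuousOn w (closedBall 0 1) := by
    apply LowerSemicontinuousOn.add
    · exact hv.1.comp hFc (fun s hs => hmap s (by simpa using hs))
    · apply ContinuousOn.lowerSemicontinuousOn
      have := hp.continuous
      apply Continuous.continuousOn
      have h1 : Continuous (fun s => (p s).re) := Complex.continuous_re.comp this
      fun_prop
  obtain ⟨s1, hs1, hmin⟩ := hwl.exists_isMinOn ⟨0, by simp⟩ (isCompact_closedBall 0 1)
  rw [isMinOn_iff] at hmin
  have hs1' : ‖s1‖ ≤ 1 := by simpa using hs1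
  rcases eq_or_lt_of_le hs1' with h1 | h1
  · have h2 := hmin 0 (by simp)
    have h3 := hb s1 h1
    simp only [hw, h1, norm_zero] at h2
    nlinarith
  exfalso
  -- local inverse
  have hA := hF s1 hs1'
  have hd := hF' s1 hs1'
  set g := hA.hasStrictDerivAt.localInverse _ _ _ hd with hg
  have hgA : AnalyticAt ℂ g (F s1) := hA.analyticAt_localInverse hd
  have hg1 : g (F s1) = s1 := HasStrictFDerivAt.localInverse_apply_image ..
  have hgr : ∀ᶠ y in 𝓝 (F s1), F (g y) = y := HasStrictDerivAt.eventually_right_inverse ..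
  have hgd : ∀ᶠ y in 𝓝 (F s1), AnalyticAt ℂ g y := hgA.eventually_analyticAt
  have hgn : ∀ᶠ y in 𝓝 (F s1), ‖g y‖ < 1 := by
    have : Tendsto (fun y => ‖g y‖) (𝓝 (F s1)) (𝓝 ‖s1‖) := by
      have := hgA.continuousAt.norm
      rw [ContinuousAt, hg1] at this
      exact this
    exact this.eventually (gt_mem_nhds h1)
  have hO : ∀ᶠ y in 𝓝 (F s1), y ∈ Ω := hΩ.mem_nhds (hmap s1 hs1')
  obtain ⟨r0, hr0, hball⟩ := Metric.eventually_nhds_iff_ball.1 (hgr.and (hgd.and (hgn.and hO)))
  set r := r0 / 2 with hr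
  have hrp : 0 < r := by positivity
  have hcb : ∀ y ∈ closedBall (F s1) r, y ∈ ball (F s1) r0 := by
    intro y hy
    rw [mem_closedBall] at hy
    rw [mem_ball]
    linarith
  have hsub : closedBall (F s1) r ⊆ Ω := fun y hy => (hball y (hcb y hy)).2.2.2
  obtain ⟨hvi, hvm⟩ := hv.2 (F s1) r hrp hsub
  have hcirc : ∀ t : ℝ, F s1 + (r:ℂ) * Complex.exp ((t:ℂ) * Complex.I) ∈ closedBall (F s1) r :=
    fun t => circle_mem hrp t
  -- abbreviations
  set c : ℝ → ℂ := fun t => F s1 + (r:ℂ) * Complex.exp ((t:ℂ) * Complex.I) with hc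
  have hcc : Continuous c := circle_cont _ _
  have hgcl : ContinuousOn g (closedBall (F s1) r) := fun y hy =>
    (hball y (hcb y hy)).2.1.continuousAt.continuousWithinAt
  have hgdc : DiffContOnCl ℂ g (ball (F s1) r) := by
    refine ⟨fun y hy => ?_, ?_⟩
    · exact (hball y (hcb y (ball_subset_closedBall hy))).2.1.differentiableAt.differentiableWithinAt
    · rw [closure_ball _ hrp.ne']
      exact hgcl
  have hgc : Continuous (fun t => g (c t)) := by
    rw [← continuousOn_univ]
    exact hgcl.comp hcc.continuousOn (fun t _ => hcirc t)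
  have hpgc : Continuous (fun t => p (g (c t))) := hp.continuous.comp hgc
  -- mean values
  have m1 : ∫ t in (0:ℝ)..(2 * Real.pi), p (g (c t)) = 2 * Real.pi * p s1 := by
    have : DiffContOnCl ℂ (fun y => p (g y)) (ball (F s1) r) :=
      hp.comp_diffContOnCl hgdc
    have h := mean_holo hrp this
    simp only [hg1] at h
    exact h
  have m2 : ∫ t in (0:ℝ)..(2 * Real.pi), (starRingEnd ℂ s1) * (g (c t) - s1) = 0 := by
    have : DiffContOnCl ℂ (fun y => (starRingEnd ℂ s1) * (g y - s1)) (ball (F s1) r) :=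
      (hgdc.sub_const s1).const_smul (starRingEnd ℂ s1)
    have h := mean_holo hrp this
    simp only [hg1, sub_self, mul_zero] at h
    exact h
  have m1r : ∫ t in (0:ℝ)..(2 * Real.pi), (p (g (c t))).re = 2 * Real.pi * (p s1).re := by
    have := congrArg Complex.re m1
    rw [← Complex.reCLM_apply, ← ContinuousLinearMap.intervalIntegral_comp_comm] at this
    · simpa using this
    · exact hpgc.intervalIntegrable _ _
  have m2r : ∫ t in (0:ℝ)..(2 * Real.pi), ((starRingEnd ℂ s1) * (g (c t) - s1)).re = 0 := by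
    have := congrArg Complex.re m2
    rw [← Complex.reCLM_apply, ← ContinuousLinearMap.intervalIntegral_comp_comm] at this
    · simpa using this
    · exact (continuous_const.mul (hgc.sub continuous_const)).intervalIntegrable _ _
  have hpos : 0 < ∫ t in (0:ℝ)..(2 * Real.pi), ‖g (c t) - s1‖^2 := by
    apply intervalIntegral.intervalIntegral_pos_of_pos
    · exact ((hgc.sub continuous_const).norm.pow 2).intervalIntegrable _ _
    · intro t
      have : g (c t) ≠ s1 := by
        intro h
        have h2 := (hball (c t) (hcb _ (hcirc t))).1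
        rw [h] at h2
        have h3 : (r:ℂ) * Complex.exp ((t:ℂ) * Complex.I) = 0 := by
          have : F s1 = F s1 + (r:ℂ) * Complex.exp ((t:ℂ) * Complex.I) := h2
          linear_combination this.symm
        rcases mul_eq_zero.1 h3 with h4 | h4
        · have : r = 0 := by exact_mod_cast h4
          linarith
        · exact Complex.exp_ne_zero _ h4
      have h5 : 0 < ‖g (c t) - s1‖ := norm_pos_iff.2 (sub_ne_zero.2 this)
      positivity
    · positivity
  have hnorm : ∀ t, ‖g (c t)‖^2 = ‖s1‖^2 + 2 * ((starRingEnd ℂ s1) * (g (c t) - s1)).re + ‖g (c t) - s1‖^2 := by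
    intro t
    rw [← Complex.normSq_eq_norm_sq, ← Complex.normSq_eq_norm_sq, ← Complex.normSq_eq_norm_sq]
    simp only [Complex.normSq_apply, Complex.mul_re, Complex.sub_re, Complex.sub_im, Complex.conj_re, Complex.conj_im]
    ring
  -- pointwise inequality
  have hpt : ∀ t, w s1 + (p (g (c t))).re + ε * (‖s1‖^2 + 2 * ((starRingEnd ℂ s1) * (g (c t) - s1)).re + ‖g (c t) - s1‖^2) ≤ v (c t) := by
    intro t
    have h2 := (hball (c t) (hcb _ (hcirc t)))
    have h3 := hmin (g (c t)) (by simpa using h2.2.2.1.le)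
    rw [← hnorm t]
    simp only [hw] at h3 ⊢
    rw [h2.1] at h3
    linarith
  have hint : IntervalIntegrable (fun t => w s1 + (p (g (c t))).re + ε * (‖s1‖^2 + 2 * ((starRingEnd ℂ s1) * (g (c t) - s1)).re + ‖g (c t) - s1‖^2)) volume 0 (2 * Real.pi) := by
    apply Continuous.intervalIntegrable
    have e1 : Continuous (fun t => (p (g (c t))).re) := Complex.continuous_re.comp hpgc
    have e2 : Continuous (fun t => ((starRingEnd ℂ s1) * (g (c t) - s1)).re) :=
      Complex.continuous_re.comp (continuous_const.mul (hgc.sub continuous_const))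
    have e3 : Continuous (fun t => ‖g (c t) - s1‖^2) := (hgc.sub continuous_const).norm.pow 2
    exact (continuous_const.add e1).add (continuous_const.mul ((continuous_const.add (continuous_const.mul e2)).add e3))
  have hI := intervalIntegral.integral_mono (by positivity : (0:ℝ) ≤ 2 * Real.pi) hint hvi hpt
  have hI2 : ∀ W : ℝ, ∫ t in (0:ℝ)..(2 * Real.pi), (W + (p (g (c t))).re + ε * (‖s1‖^2 + 2 * ((starRingEnd ℂ s1) * (g (c t) - s1)).re + ‖g (c t) - s1‖^2))
      = 2 * Real.pi * W + 2 * Real.pi * (p s1).re + ε * (2 * Real.pi * ‖s1‖^2 + ∫ t in (0:ℝ)..(2 * Real.pi), ‖g (c t) - s1‖^2) := by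
    intro W
    have e1 : Continuous (fun t => (p (g (c t))).re) := Complex.continuous_re.comp hpgc
    have e2 : Continuous (fun t => ((starRingEnd ℂ s1) * (g (c t) - s1)).re) :=
      Complex.continuous_re.comp (continuous_const.mul (hgc.sub continuous_const))
    have e3 : Continuous (fun t => ‖g (c t) - s1‖^2) := (hgc.sub continuous_const).norm.pow 2
    rw [intervalIntegral.integral_add, intervalIntegral.integral_add, intervalIntegral.integral_const_mul,
      intervalIntegral.integral_add, intervalIntegral.integral_add, intervalIntegral.integral_const_mul, m1r, m2r]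
    · simp only [intervalIntegral.integral_const, sub_zero, smul_eq_mul]
      ring
    all_goals first
      | exact (continuous_const).intervalIntegrable _ _
      | exact e1.intervalIntegrable _ _
      | exact e2.intervalIntegrable _ _
      | exact e3.intervalIntegrable _ _
      | exact (continuous_const.mul e2).intervalIntegrable _ _
      | exact (continuous_const.add (continuous_const.mul e2)).intervalIntegrable _ _
      | exact (continuous_const.add e1).intervalIntegrable _ _
      | exact (continuous_const.mul ((continuous_const.add (continuous_const.mul e2)).add e3)).intervalIntegrable _ _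
  rw [hI2 (w s1)] at hI
  have hfin := le_trans hI hvm
  simp only [hw] at hfin
  nlinarith [mul_pos hε hpos]

end

end Helper633.MinP
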