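import Pool.Agent.Helper633.H2Closed

set_option autoImplicit false
open MeasureTheory Metric Set Filter Topology
open scoped ENNReal NNReal

namespace Pool.Agent.Helper633.Lim
open Pool.Agent.Helper19.RU Pool.Agent.HpBall

/-- pointwise bound for the synthesis operator -/
theorem synth_bound (n al : ℕ) (hal : 1 ≤ al) (a : E n → ℝ) (ha : ∀ z, 0 < a z) (B : ℝ)
    (hB : ∀ z, a z ≤ B) (z : E n) (hz : z ∈ ball (0 : E n) 1) : ∃ D : ℝ, 0 ≤ D ∧
    ∀ (Φ : E n → ℂ) (e t : ℝ), 0 ≤ e → 0 < t → energy a Φ ≤ ENNReal.ofReal e →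
      ‖synth n al Φ z‖ ≤ t * e + t⁻¹ * D := by
  have hz1 : ‖z‖ < 1 := by simpa using hz
  set q : ℝ := (1 - ‖z‖)⁻¹ with hq
  have hq0 : 0 < q := by rw [hq]; exact inv_pos.mpr (by linarith)
  set v := (volume (ball (0 : E n) 1)).toReal with hv
  have hvf : volume (ball (0 : E n) 1) ≠ ⊤ := measure_ball_lt_top.ne
  have hv0 : 0 ≤ v := ENNReal.toReal_nonneg
  refine ⟨B ^ 2 * (q ^ (n + al)) ^ 2 * v, by positivity, ?_⟩
  intro Φ e t he ht hen
  have h1 : ‖synth n al Φ z‖ₑ ≤ ∫⁻ w in ball (0 : E n) 1,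
      (ENNReal.ofReal t * ENNReal.ofReal (‖Φ w‖ ^ 2 * (a w ^ 2)⁻¹ * (1 - ‖w‖ ^ 2)) +
        ENNReal.ofReal (t⁻¹ * (B ^ 2 * (q ^ (n + al)) ^ 2))) := by
    unfold synth
    refine (enorm_integral_le_lintegral_enorm _).trans ?_
    refine setLIntegral_mono' measurableSet_ball fun w hw => ?_
    have hw1 : ‖w‖ < 1 := by simpa using hw
    set s : ℝ := 1 - ‖w‖ ^ 2 with hs
    have hs0 : 0 < s := by nlinarith [norm_nonneg w]
    have hs1 : s ≤ 1 := by nlinarith [sq_nonneg ‖w‖]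
    have haw := ha w
    have hBw := hB w
    rw [← ofReal_norm, ← ENNReal.ofReal_mul ht.le, ← ENNReal.ofReal_add (by positivity) (by positivity)]
    apply ENNReal.ofReal_le_ofReal
    rw [norm_mul, norm_mul, norm_pow, Complex.norm_real, Real.norm_eq_abs, abs_of_pos hs0, norm_inv, norm_pow]
    have hker : (‖1 - inner ℂ w z‖ ^ (n + al))⁻¹ ≤ q ^ (n + al) := by
      rw [hq, inv_pow]
      apply inv_anti₀ (pow_pos (by linarith) _)
      apply pow_le_pow_left₀ (by linarith)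
      have h2 : ‖inner ℂ w z‖ ≤ ‖z‖ := by
        calc ‖inner ℂ w z‖ ≤ ‖w‖ * ‖z‖ := norm_inner_le_norm _ _
          _ ≤ 1 * ‖z‖ := by gcongr
          _ = ‖z‖ := one_mul _
      have h3 := norm_sub_norm_le (1 : ℂ) (inner ℂ w z)
      rw [norm_one] at h3
      linarith
    have hk0 : 0 ≤ (‖1 - inner ℂ w z‖ ^ (n + al))⁻¹ := by positivity
    have hsal : s ^ al ≤ s := by
      calc s ^ al ≤ s ^ 1 := pow_le_pow_of_le_one hs0.le hs1 hal
        _ = s := pow_one s
    set x := ‖Φ w‖ with hx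
    have hx0 : 0 ≤ x := norm_nonneg _
    set Q := q ^ (n + al) with hQ
    have hQ0 : 0 < Q := by positivity
    calc x * s ^ al * (‖1 - inner ℂ w z‖ ^ (n + al))⁻¹ ≤ x * s * Q := by gcongr
      _ ≤ t * (x ^ 2 * (a w ^ 2)⁻¹ * s) + t⁻¹ * (a w ^ 2 * Q ^ 2 * s) := by
        have h4 : 0 ≤ (t * (x * (a w)⁻¹) - a w * Q) ^ 2 := sq_nonneg _
        have h5 : x * Q * (2 * t) ≤ t ^ 2 * (x ^ 2 * (a w ^ 2)⁻¹) + a w ^ 2 * Q ^ 2 := by
          have h6 : (t * (x * (a w)⁻¹) - a w * Q) ^ 2 =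
              t ^ 2 * (x ^ 2 * (a w ^ 2)⁻¹) + a w ^ 2 * Q ^ 2 - x * Q * (2 * t) := by
            field_simp
            ring
          linarith
        have h7 : x * Q ≤ t * (x ^ 2 * (a w ^ 2)⁻¹) + t⁻¹ * (a w ^ 2 * Q ^ 2) := by
          have h8 : x * Q * 2 ≤ t * (x ^ 2 * (a w ^ 2)⁻¹) + t⁻¹ * (a w ^ 2 * Q ^ 2) := by
            have h9 := mul_le_mul_of_nonneg_left h5 (inv_pos.mpr ht).le
            calc x * Q * 2 = t⁻¹ * (x * Q * (2 * t)) := by field_simp
              _ ≤ _ := h9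
              _ = _ := by field_simp
          have : 0 ≤ x * Q := by positivity
          linarith
        have h10 := mul_le_mul_of_nonneg_right h7 hs0.le
        calc x * s * Q = x * Q * s := by ring
          _ ≤ _ := h10
          _ = _ := by ring
      _ ≤ _ := by
        have h11 : a w ^ 2 * Q ^ 2 * s ≤ B ^ 2 * Q ^ 2 := by
          calc a w ^ 2 * Q ^ 2 * s ≤ B ^ 2 * Q ^ 2 * 1 := by gcongr
            _ = _ := mul_one _
        have h12 := mul_le_mul_of_nonneg_left h11 (inv_pos.mpr ht).le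
        linarith
  have hem : ∫⁻ w in ball (0 : E n) 1, ENNReal.ofReal t * ENNReal.ofReal (‖Φ w‖ ^ 2 * (a w ^ 2)⁻¹ * (1 - ‖w‖ ^ 2)) =
      ENNReal.ofReal t * energy a Φ := by
    rw [lintegral_const_mul' _ _ ENNReal.ofReal_ne_top]
    rfl
  rw [lintegral_add_right _ measurable_const, hem, lintegral_const, Measure.restrict_apply_univ,
    ← ENNReal.ofReal_toReal hvf, ← hv, ← ENNReal.ofReal_mul (by positivity)] at h1
  have h2 : ‖synth n al Φ z‖ₑ ≤ ENNReal.ofReal (t * e + t⁻¹ * (B ^ 2 * (q ^ (n + al)) ^ 2 * v)) := by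
    refine h1.trans ?_
    rw [ENNReal.ofReal_add (by positivity) (by positivity), ENNReal.ofReal_mul ht.le]
    refine add_le_add (by gcongr) (le_of_eq ?_)
    congr 1
    ring
  rw [← ofReal_norm, ENNReal.ofReal_le_ofReal_iff (by positivity)] at h2
  exact h2

lemma measurable_rad' (n : ℕ) (g : E n → ℂ) : Measurable (rad g) := by
  unfold rad
  have h1 : Measurable (fderiv ℂ g) := measurable_fderiv ℂ g
  have h2 : Continuous (fun q : (E n →L[ℂ] ℂ) × E n => q.1 q.2) :=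
    isBoundedBilinearMap_apply.continuous
  exact h2.measurable.comp (h1.prodMk measurable_id)

/-- the Neumann half -/
theorem unit_of_step (n al Nc : ℕ) (C : ℝ) (hn : 1 < n) (hal : 1 ≤ al) (hrep : ReproProp n al)
    (hstep : StepProp n al Nc C) : ∃ M : ℝ≥0∞, M < ⊤ ∧ ∀ (R : ℝ) (f : E n → ℂ), 1 < R →
      DifferentiableOn ℂ f (ball 0 R) → (∫⁻ ζ, ‖f (ζ : E n)‖ₑ ∂(sg n) ≤ 1) →
      ∃ g h : Fin Nc → E n → ℂ, (∀ i, H2 n M (g i)) ∧ (∀ i, H2 n M (h i)) ∧
        ∀ z ∈ ball (0 : E n) 1, f z = ∑ i, g i z * h i z := by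
  classical
  obtain ⟨c₀, hc₀⟩ := hrep
  set C₁ : ℝ := max C 0 with hC₁
  have hC₁0 : 0 ≤ C₁ := le_max_right _ _
  have hCC : ENNReal.ofReal C = ENNReal.ofReal C₁ := by
    rcases le_total C 0 with h | h
    · rw [hC₁, max_eq_right h, ENNReal.ofReal_of_nonpos h, ENNReal.ofReal_zero]
    · rw [hC₁, max_eq_left h]
  set E0 : ℝ := ‖c₀‖ ^ 2 * C₁ with hE0
  have hE00 : 0 ≤ E0 := by positivity
  refine ⟨ENNReal.ofReal (max C₁ (4 * (C₁ * E0))), ENNReal.ofReal_lt_top, ?_⟩
  intro R f hR hf hf1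
  obtain ⟨a, G, ham, ⟨δ, hδ, hδa⟩, ⟨B, hB⟩, hG, hen, hΦ⟩ := hstep R f hR hf hf1
  have hapos : ∀ z, 0 < a z := fun z => hδ.trans_le (hδa z)
  have hB0 : 0 < B := (hapos 0).trans_le (hB 0)
  set F := DD (n + al) f with hF
  -- the differentiated function is measurable on the ball
  set Φ₀ : E n → ℂ := (ball (0 : E n) 1).indicator (fun z => c₀ * F z) with hΦ₀
  have hΦ₀m : Measurable Φ₀ := by
    have h1 : Measurable ((ball (0 : E n) 1).indicator f) := by
      rw [← Set.piecewise_eq_indicator]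
      exact ContinuousOn.measurable_piecewise (hf.continuousOn.mono (ball_subset_ball hR.le))
        continuousOn_const measurableSet_ball
    have h2 : Measurable ((ball (0 : E n) 1).indicator (rad f)) :=
      (measurable_rad' n f).indicator measurableSet_ball
    have h3 : Φ₀ = fun z => c₀ * ((ball (0 : E n) 1).indicator (rad f) z +
        ((n + al : ℕ) : ℂ) * (ball (0 : E n) 1).indicator f z) := by
      funext z
      rw [hΦ₀]
      by_cases hz : z ∈ ball (0 : E n) 1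
      · rw [indicator_of_mem hz, indicator_of_mem hz, indicator_of_mem hz]
        rfl
      · rw [indicator_of_notMem hz, indicator_of_notMem hz, indicator_of_notMem hz]
        simp
    rw [h3]
    exact (h2.add (h1.const_mul _)).const_mul _
  have hΦ₀e : energy a Φ₀ ≤ ENNReal.ofReal E0 := by
    have h1 : energy a Φ₀ = ENNReal.ofReal (‖c₀‖ ^ 2) * energy a F := by
      unfold energy
      rw [← lintegral_const_mul' _ _ ENNReal.ofReal_ne_top]
      refine setLIntegral_congr_fun measurableSet_ball fun w hw => ?_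
      rw [hΦ₀, indicator_of_mem hw, norm_mul, ← ENNReal.ofReal_mul (by positivity)]
      congr 1
      ring
    rw [h1, hE0, ENNReal.ofReal_mul (by positivity), ← hCC]
    gcongr
  have hfrep : ∀ z ∈ ball (0 : E n) 1, f z = synth n al Φ₀ z := by
    intro z hz
    have h1 : energy (fun _ => 1) F < ⊤ := by
      have h2 : energy (fun _ => 1) F ≤ ENNReal.ofReal (B ^ 2) * energy a F := by
        unfold energy
        rw [← lintegral_const_mul' _ _ ENNReal.ofReal_ne_top]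
        refine setLIntegral_mono' measurableSet_ball fun w hw => ?_
        have hw1 : ‖w‖ < 1 := by simpa using hw
        have hs0 : 0 < 1 - ‖w‖ ^ 2 := by nlinarith [norm_nonneg w]
        rw [← ENNReal.ofReal_mul (by positivity)]
        apply ENNReal.ofReal_le_ofReal
        have haw := hapos w
        have h3 : 1 ≤ B ^ 2 * (a w ^ 2)⁻¹ := by
          rw [← div_eq_mul_inv, one_le_div (by positivity)]
          exact pow_le_pow_left₀ haw.le (hB w) 2
        have h4 : 0 ≤ ‖F w‖ ^ 2 * (1 - ‖w‖ ^ 2) := by positivity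
        calc ‖F w‖ ^ 2 * ((1 : ℝ) ^ 2)⁻¹ * (1 - ‖w‖ ^ 2) = ‖F w‖ ^ 2 * (1 - ‖w‖ ^ 2) * 1 := by ring
          _ ≤ ‖F w‖ ^ 2 * (1 - ‖w‖ ^ 2) * (B ^ 2 * (a w ^ 2)⁻¹) := by gcongr
          _ = _ := by ring
      refine h2.trans_lt (ENNReal.mul_lt_top ENNReal.ofReal_lt_top (hen.trans_lt ENNReal.ofReal_lt_top))
    rw [hc₀ f (hf.mono (ball_subset_ball hR.le)) h1 z hz]
    unfold synth
    rw [← integral_const_mul]
    refine setIntegral_congr_fun measurableSet_ball fun w hw => ?_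
    rw [hΦ₀, indicator_of_mem hw]
    ring
  -- the iteration
  let St := {Φ : E n → ℂ // Measurable Φ ∧ energy a Φ < ⊤}
  have hnext : ∀ Φ : St, ∃ (X : Fin Nc → E n → ℂ) (Φ' : St),
      (∀ c, H2 n (ENNReal.ofReal C * energy a Φ.1) (X c)) ∧ 4 * energy a Φ'.1 ≤ energy a Φ.1 ∧
      ∀ z ∈ ball (0 : E n) 1, synth n al Φ.1 z = ∑ c, G c z * X c z + synth n al Φ'.1 z := by
    intro Φ
    obtain ⟨X, Φ', h1, h2, h3, h4⟩ := hΦ Φ.1 Φ.2.1 Φ.2.2
    refine ⟨X, ⟨Φ', h1, ?_⟩, h2, h3, h4⟩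
    refine lt_of_le_of_lt ?_ Φ.2.2
    refine le_trans ?_ h3
    calc energy a Φ' = 1 * energy a Φ' := (one_mul _).symm
      _ ≤ 4 * energy a Φ' := by gcongr; norm_num
  choose X nx hX1 hX2 hX3 using hnext
  set Ψ : ℕ → St := fun k => nx^[k] ⟨Φ₀, hΦ₀m, hΦ₀e.trans_lt ENNReal.ofReal_lt_top⟩ with hΨ
  have hΨs : ∀ k, Ψ (k + 1) = nx (Ψ k) := fun k => by
    rw [hΨ]
    exact Function.iterate_succ_apply' nx k _
  have hΨe : ∀ k, energy a (Ψ k).1 ≤ ENNReal.ofReal (E0 * (1 / 4) ^ k) := by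
    intro k
    induction k with
    | zero => simpa [hΨ] using hΦ₀e
    | succ k ih =>
      rw [hΨs]
      have h1 := (hX2 (Ψ k)).trans ih
      have h4 : (4 : ℝ≥0∞) = ENNReal.ofReal 4 := by norm_num
      have h2 : ENNReal.ofReal (E0 * (1 / 4) ^ k) = 4 * ENNReal.ofReal (E0 * (1 / 4) ^ (k + 1)) := by
        rw [h4, ← ENNReal.ofReal_mul (by norm_num)]
        congr 1
        rw [pow_succ]
        ring
      rw [h2] at h1
      exact (ENNReal.mul_le_mul_iff_right (by norm_num) (by norm_num)).mp h1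
  have hXH : ∀ c k, H2 n (ENNReal.ofReal ((C₁ * E0) * (1 / 4) ^ k)) (X (Ψ k) c) := by
    intro c k
    refine ⟨(hX1 (Ψ k) c).1, fun r hr0 hr1 => ((hX1 (Ψ k) c).2 r hr0 hr1).trans ?_⟩
    rw [hCC, mul_assoc, ENNReal.ofReal_mul hC₁0]
    gcongr
    exact hΨe k
  have hS : ∀ c K, H2 n (ENNReal.ofReal (4 * (C₁ * E0))) (fun z => ∑ k ∈ Finset.range K, X (Ψ k) c z) :=
    fun c K => H2_sum n (C₁ * E0) (by positivity) (fun k => X (Ψ k) c) (hXH c) K
  have hclosed := fun c => H2_closed n hn (hyperfilter ℕ) (4 * (C₁ * E0)) (by positivity) _ (hS c)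
  choose Y hY1 hY2 using hclosed
  have hmono : ∀ (M₁ M₂ : ℝ≥0∞) (g : E n → ℂ), M₁ ≤ M₂ → H2 n M₁ g → H2 n M₂ g :=
    fun M₁ M₂ g h12 hg => ⟨hg.1, fun r h0 h1 => (hg.2 r h0 h1).trans h12⟩
  refine ⟨G, Y, fun c => hmono _ _ _ ?_ (hG c), fun c => hmono _ _ _ ?_ (hY1 c), ?_⟩
  · rw [hCC]
    exact ENNReal.ofReal_le_ofReal (le_max_left _ _)
  · exact ENNReal.ofReal_le_ofReal (le_max_right _ _)
  · intro z hz
    -- finite identity
    have hfin : ∀ K, f z = ∑ c, G c z * (∑ k ∈ Finset.range K, X (Ψ k) c z) + synth n al (Ψ K).1 z := by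
      intro K
      induction K with
      | zero => simpa [hΨ] using hfrep z hz
      | succ K ih =>
        rw [ih, hX3 (Ψ K) z hz, hΨs, ← add_assoc]
        congr 1
        rw [← Finset.sum_add_distrib]
        refine Finset.sum_congr rfl fun c _ => ?_
        rw [Finset.sum_range_succ]
        ring
    obtain ⟨D, hD0, hD⟩ := synth_bound n al hal a hapos B hB z hz
    have hsyn : Tendsto (fun K => synth n al (Ψ K).1 z) atTop (𝓝 0) := by
      refine squeeze_zero_norm (a := fun K : ℕ => (E0 + D) * (1 / 2 : ℝ) ^ K) (fun K => ?_) ?_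
      · have h1 := hD (Ψ K).1 (E0 * (1 / 4) ^ K) (2 ^ K) (by positivity) (by positivity) (hΨe K)
        refine h1.trans (le_of_eq ?_)
        have h2 : (2 : ℝ) ^ K * (1 / 4) ^ K = (1 / 2) ^ K := by
          rw [← mul_pow]
          norm_num
        have h3 : ((2 : ℝ) ^ K)⁻¹ = (1 / 2) ^ K := by
          rw [one_div, inv_pow]
        rw [h3]
        calc 2 ^ K * (E0 * (1 / 4) ^ K) + (1 / 2) ^ K * D = E0 * ((2 : ℝ) ^ K * (1 / 4) ^ K) + (1 / 2) ^ K * D := by ring
          _ = _ := by rw [h2]; ring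
      · have := (tendsto_pow_atTop_nhds_zero_of_lt_one (r := (1 / 2 : ℝ)) (by norm_num) (by norm_num)).const_mul (E0 + D)
        simpa using this
    have hle : (hyperfilter ℕ : Filter ℕ) ≤ atTop := by
      rw [← Nat.cofinite_eq_atTop]
      exact hyperfilter_le_cofinite
    have hlim : Tendsto (fun K => ∑ c, G c z * (∑ k ∈ Finset.range K, X (Ψ k) c z) + synth n al (Ψ K).1 z)
        (hyperfilter ℕ : Filter ℕ) (𝓝 (∑ c, G c z * Y c z + 0)) := by
      refine Tendsto.add ?_ (hsyn.mono_left hle)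
      refine tendsto_finsetSum _ fun c _ => ?_
      exact (hY2 c z hz).const_mul (G c z)
    rw [add_zero] at hlim
    have hconst : Tendsto (fun K => ∑ c, G c z * (∑ k ∈ Finset.range K, X (Ψ k) c z) + synth n al (Ψ K).1 z)
        (hyperfilter ℕ : Filter ℕ) (𝓝 (f z)) := by
      refine tendsto_const_nhds.congr fun K => hfin K
    exact tendsto_nhds_unique hconst hlim

end Pool.Agent.Helper633.Lim
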