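import Pool.Agent.Helper633.BoeB

set_option autoImplicit false

namespace Helper633.Boe

open Filter Topology Complex Metric Set

noncomputable section

lemma K_of_f {z : ℂ} (h : f z ∈ K) : z ∈ K := by
  obtain ⟨M, hM⟩ := h
  refine ⟨max M ‖z‖, fun n => ?_⟩
  cases n with
  | zero => simp
  | succ n =>
    rw [Function.iterate_succ_apply]
    exact le_trans (hM n) (le_max_left _ _)

lemma disc_sub_K {z : ℂ} (h : ‖z‖ ≤ 3/4) : z ∈ K := by
  refine ⟨3/4, fun n => ?_⟩
  induction n with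
  | zero => simpa using h
  | succ n ih =>
    rw [Function.iterate_succ_apply']
    unfold f at ih ⊢
    calc _ ≤ ‖((fun z : ℂ => z^2 + 3/16)^[n] z)^2‖ + ‖(3/16 : ℂ)‖ := norm_add_le _ _
      _ ≤ (3/4)^2 + 3/16 := by
        rw [norm_pow]
        have h1 : ‖(3/16 : ℂ)‖ = 3/16 := by norm_num
        rw [h1]
        have h2 := pow_le_pow_left₀ (norm_nonneg _) ih 2
        linarith
      _ = 3/4 := by norm_num

lemma f_base (h : ℂ) : f (3/4 + h) = 3/4 + (3/2 * h + h^2) := by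
  unfold f
  ring

/-- disc condition in terms of real and imaginary parts -/
lemma disc_cond {h : ℂ} (hh : 3/2 * h.re + (h.re^2 + h.im^2) ≤ 0) : ‖3/4 + h‖ ≤ 3/4 := by
  have h1 : ‖3/4 + h‖^2 ≤ (3/4)^2 := by
    rw [← Complex.normSq_eq_norm_sq, Complex.normSq_apply]
    have e1 : (3/4 + h).re = 3/4 + h.re := by simp
    have e2 : (3/4 + h).im = h.im := by simp
    rw [e1, e2]
    nlinarith
  exact (sq_le_sq₀ (norm_nonneg _) (by norm_num)).1 h1



lemma real_ineq {N a1 N1 : ℝ} (hN0 : 0 ≤ N) (hN : N ≤ 1/100) (b1 : a1 ≤ -(9/10 * N))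
    (b2 : -(2 * N) ≤ a1) (b3 : N1 ≤ 23/10 * N) (b4 : 0 ≤ N1) :
    9/4 * a1 + 3 * a1^2 + 3/4 * N1 + 3 * a1 * N1 + N1^2 ≤ 0 := by
  have hNN : N^2 ≤ N/100 := by nlinarith
  have b5 : a1^2 ≤ (2*N)^2 := sq_le_sq' b2 (by linarith)
  have b6 : N1^2 ≤ (23/10*N)^2 := sq_le_sq' (by linarith) b3
  have b7 : a1 * N1 ≤ 0 := mul_nonpos_of_nonpos_of_nonneg (by linarith) b4
  have b5' : a1^2 ≤ 4 * (N/100) := by nlinarith
  have b6' : N1^2 ≤ 529/100 * (N/100) := by nlinarith
  linarith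

/-- level-two lemma -/
lemma level_two {h : ℂ} (hN : h.re^2 + h.im^2 ≤ 1/100) (ha : h.re ≤ (h.re^2 + h.im^2)/24) :
    3/4 + h ∈ K := by
  set a := h.re with hadef
  set b := h.im with hbdef
  set N := a^2 + b^2 with hNdef
  have hN0 : 0 ≤ N := by positivity
  by_cases hc : 3/2 * a + N ≤ 0
  · exact disc_sub_K (disc_cond hc)
  push Not at hc
  apply K_of_f
  apply K_of_f
  rw [f_base, f_base]
  apply disc_sub_K
  apply disc_cond
  set h1 := 3/2 * h + h^2 with hh1
  have ea1 : h1.re = 3/2 * a + 2 * a^2 - N := by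
    rw [hh1]
    simp [pow_two, Complex.add_re, Complex.mul_re]
    rw [hNdef]; ring
  have eb1 : h1.im = b * (3/2 + 2 * a) := by
    rw [hh1]
    simp [pow_two, Complex.add_im, Complex.mul_im]
    ring
  set a1 := h1.re with ha1
  set b1 := h1.im with hb1
  set N1 := a1^2 + b1^2 with hN1
  have eN1 : N1 = N * (9/4 + 3 * a + N) := by
    rw [hN1, ea1, eb1, hNdef]; ring
  have e2 : 3/2 * (3/2 * h1 + h1^2).re + ((3/2 * h1 + h1^2).re^2 + (3/2 * h1 + h1^2).im^2)
      = 9/4 * a1 + 3 * a1^2 + 3/4 * N1 + 3 * a1 * N1 + N1^2 := by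
    have r1 : (3/2 * h1 + h1^2).re = 3/2 * a1 + a1^2 - b1^2 := by
      simp [pow_two, Complex.add_re, Complex.mul_re]
      ring
    have r2 : (3/2 * h1 + h1^2).im = b1 * (3/2 + 2 * a1) := by
      simp [pow_two, Complex.add_im, Complex.mul_im]
      ring
    rw [r1, r2, hN1]; ring
  rw [e2]
  have hasq : a^2 ≤ 4/9 * N^2 := by
    have h1 : -(2/3 * N) < a := by linarith
    have h2 : a ≤ 2/3 * N := by linarith
    nlinarith
  have hNN : N^2 ≤ N/100 := by nlinarith
  have b1' : a1 ≤ -(9/10 * N) := by rw [ea1]; linarith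
  have b2' : -(2 * N) ≤ a1 := by rw [ea1]; nlinarith [sq_nonneg a]
  have b3' : N1 ≤ 23/10 * N := by
    rw [eN1]
    have : 9/4 + 3 * a + N ≤ 23/10 := by linarith
    nlinarith
  have b4' : 0 ≤ N1 := by positivity
  exact real_ineq hN0 hN b1' b2' b3' b4'

/-- growth and rotation outside the sector -/
lemma sector_step {h : ℂ} (hs : ‖h‖ < 1/16) (hc : h.re ≤ 1/400 * |h.im|) :
    (3/2 * h + h^2).re ≤ 1/400 * |(3/2 * h + h^2).im| ∧ ‖3/2 * h + h^2‖ ≤ 1/10 ∧
      23/16 * ‖h‖ ≤ ‖3/2 * h + h^2‖ := by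
  have hre := Complex.abs_re_le_norm h
  have him := Complex.abs_im_le_norm h
  set a := h.re
  set b := h.im
  have ha := abs_le.1 (le_trans hre hs.le)
  have r1 : (3/2 * h + h^2).re = 3/2 * a + a^2 - b^2 := by
    simp [pow_two, Complex.add_re, Complex.mul_re]
    ring
  have r2 : (3/2 * h + h^2).im = b * (3/2 + 2 * a) := by
    simp [pow_two, Complex.add_im, Complex.mul_im]
    ring
  refine ⟨?_, ?_, ?_⟩
  · rw [r1, r2, abs_mul, abs_of_pos (show 0 < 3/2 + 2 * a by linarith [ha.1])]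
    have hb0 : 0 ≤ |b| := abs_nonneg b
    have hbb : b^2 = |b|^2 := (sq_abs b).symm
    rw [hbb]
    by_cases ha0 : 0 ≤ a
    · nlinarith [mul_nonneg ha0 hb0]
    · push Not at ha0
      have h1 : 3/2 * a + a^2 ≤ 0 := by nlinarith [ha.1]
      have h2 : 0 ≤ 1/400 * (|b| * (3/2 + 2 * a)) := by
        have : 0 ≤ 3/2 + 2 * a := by linarith [ha.1]
        positivity
      nlinarith [sq_nonneg (|b|)]
  · have e : 3/2 * h + h^2 = h * (3/2 + h) := by ring
    rw [e, norm_mul]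
    have h1 : ‖(3/2 + h)‖ ≤ 3/2 + ‖h‖ := by
      refine le_trans (norm_add_le _ _) ?_
      have : ‖(3/2 : ℂ)‖ = 3/2 := by norm_num
      rw [this]
    have h2 := norm_nonneg h
    nlinarith [norm_nonneg (3/2 + h)]
  · have e : 3/2 * h + h^2 = h * (3/2 + h) := by ring
    rw [e, norm_mul]
    have h1 : 3/2 - ‖h‖ ≤ ‖(3/2 + h)‖ := by
      have h3 : ‖(3/2 : ℂ)‖ ≤ ‖3/2 + h‖ + ‖h‖ := by
        calc ‖(3/2 : ℂ)‖ = ‖(3/2 + h) - h‖ := by congr 1; ring
          _ ≤ _ := norm_sub_le _ _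
      have : ‖(3/2 : ℂ)‖ = 3/2 := by norm_num
      rw [this] at h3
      linarith
    have h2 := norm_nonneg h
    nlinarith [norm_nonneg (3/2 + h)]

lemma normSq_eq (h : ℂ) : h.re^2 + h.im^2 = ‖h‖^2 := by
  rw [← Complex.normSq_eq_norm_sq, Complex.normSq_apply]; ring

/-- **Sector lemma** -/
lemma sector_sub_K {h : ℂ} (hs : ‖h‖ ≤ 1/10) (hc : h.re ≤ 1/400 * |h.im|) : 3/4 + h ∈ K := by
  have key : ∀ n : ℕ, ∀ h : ℂ, ‖h‖ ≤ 1/10 → h.re ≤ 1/400 * |h.im| → 1/16 ≤ (23/16)^n * ‖h‖ →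
      3/4 + h ∈ K := by
    intro n
    induction n with
    | zero =>
      intro h hs hc hn
      simp only [pow_zero, one_mul] at hn
      apply level_two
      · rw [normSq_eq]; nlinarith [norm_nonneg h]
      · rw [normSq_eq]
        have him := Complex.abs_im_le_norm h
        nlinarith
    | succ n ih =>
      intro h hs hc hn
      by_cases hb : ‖h‖ < 1/16
      · obtain ⟨h1, h2, h3⟩ := sector_step hb hc
        apply K_of_f
        rw [f_base]
        apply ih _ h2 h1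
        calc (1:ℝ)/16 ≤ (23/16)^(n+1) * ‖h‖ := hn
          _ = (23/16)^n * (23/16 * ‖h‖) := by ring
          _ ≤ _ := mul_le_mul_of_nonneg_left h3 (by positivity)
      · push Not at hb
        apply level_two
        · rw [normSq_eq]; nlinarith [norm_nonneg h]
        · rw [normSq_eq]
          have him := Complex.abs_im_le_norm h
          nlinarith
  by_cases h0 : h = 0
  · subst h0
    apply disc_sub_K
    norm_num
  · have hp : 0 < ‖h‖ := norm_pos_iff.2 h0
    obtain ⟨n, hn⟩ := pow_unbounded_of_one_lt (1/16/‖h‖) (by norm_num : (1:ℝ) < 23/16)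
    apply key n h hs hc
    rw [div_lt_iff₀ hp] at hn
    exact hn.le

end

end Helper633.Boe
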