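import Pool.Agent.Helper633.Sector

set_option autoImplicit false

namespace Helper633.Boe

open Filter Topology Complex Metric Set

noncomputable section

/-- derivative cocycle -/
def D (z : ℂ) (n : ℕ) : ℂ := ∏ j ∈ Finset.range n, (2 * f^[j] z)

lemma D_zero (z : ℂ) : D z 0 = 1 := by simp [D]
lemma D_succ (z : ℂ) (n : ℕ) : D z (n+1) = D z n * (2 * f^[n] z) := by
  simp [D, Finset.prod_range_succ]

lemma D_step {z : ℂ} (hz : ∀ j, 3/4 ≤ ‖f^[j] z‖) (n : ℕ) : 3/2 * ‖D z n‖ ≤ ‖D z (n+1)‖ := by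
  rw [D_succ, norm_mul, norm_mul]
  have h1 := hz n
  have h2 : ‖(2:ℂ)‖ = 2 := by norm_num
  rw [h2]
  nlinarith [norm_nonneg (D z n)]

lemma D_ge {z : ℂ} (hz : ∀ j, 3/4 ≤ ‖f^[j] z‖) (n : ℕ) : (3/2)^n ≤ ‖D z n‖ := by
  induction n with
  | zero => simp [D_zero]
  | succ n ih =>
    have := D_step hz n
    rw [pow_succ]
    linarith

lemma D_mono {z : ℂ} (hz : ∀ j, 3/4 ≤ ‖f^[j] z‖) : Monotone (fun n => ‖D z n‖) := by
  apply monotone_nat_of_le_succ
  intro n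
  have := D_step hz n
  have := norm_nonneg (D z n)
  linarith

/-- near-affine transport -/
lemma transport {z : ℂ} (hz : ∀ j, 3/4 ≤ ‖f^[j] z‖) {k : ℂ} {n : ℕ} (hk : ‖k * D z n‖ ≤ 1/12) :
    ∀ j, j ≤ n → ‖f^[j] (z + k) - f^[j] z - k * D z j‖ ≤ 3 * ‖k * D z j‖^2 := by
  intro j
  induction j with
  | zero =>
    intro _
    simp [D_zero]
  | succ j ih =>
    intro hj
    have h1 := ih (by omega)
    have hEj : ‖k * D z j‖ ≤ 1/12 := by
      refine le_trans ?_ hk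
      rw [norm_mul, norm_mul]
      exact mul_le_mul_of_nonneg_left (D_mono hz (by omega)) (norm_nonneg _)
    set E := ‖k * D z j‖ with hE
    have hE0 : 0 ≤ E := norm_nonneg _
    set e := f^[j] (z + k) - f^[j] z with he
    have e1 : f^[j+1] (z + k) - f^[j+1] z - k * D z (j+1) = 2 * f^[j] z * (e - k * D z j) + e^2 := by
      rw [Function.iterate_succ_apply', Function.iterate_succ_apply', D_succ]
      unfold f at he ⊢
      rw [he]
      ring
    have e2 : ‖e‖ ≤ 5/4 * E := by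
      have : ‖e‖ ≤ ‖e - k * D z j‖ + ‖k * D z j‖ := by
        calc ‖e‖ = ‖(e - k * D z j) + k * D z j‖ := by congr 1; ring
          _ ≤ _ := norm_add_le _ _
      rw [← hE] at this
      nlinarith
    have e3 : ‖k * D z (j+1)‖ = E * ‖2 * f^[j] z‖ := by
      rw [D_succ, ← mul_assoc, norm_mul]
    set m := ‖2 * f^[j] z‖ with hm
    have hm1 : 3/2 ≤ m := by
      rw [hm, norm_mul]
      have h2 : ‖(2:ℂ)‖ = 2 := by norm_num
      rw [h2]
      have := hz j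
      linarith
    rw [e1, e3]
    calc ‖2 * f^[j] z * (e - k * D z j) + e^2‖ ≤ ‖2 * f^[j] z * (e - k * D z j)‖ + ‖e^2‖ := norm_add_le _ _
      _ = m * ‖e - k * D z j‖ + ‖e‖^2 := by rw [norm_mul, norm_pow]
      _ ≤ m * (3 * E^2) + (5/4 * E)^2 := by
        apply add_le_add
        · exact mul_le_mul_of_nonneg_left h1 (by linarith)
        · exact pow_le_pow_left₀ (norm_nonneg _) e2 2
      _ ≤ 3 * (E * m)^2 := by
        have : (3 * m + 25/16) ≤ 3 * m^2 := by nlinarith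
        nlinarith [sq_nonneg E]

/-- perturbation of the cone condition -/
lemma cone_pert {w h : ℂ} (hwh : ‖h - w‖ ≤ 1/4000 * ‖w‖) (hw : w.re ≤ 1/800 * |w.im|) :
    h.re ≤ 1/400 * |h.im| := by
  have h1 := Complex.abs_re_le_norm (h - w)
  have h2 := Complex.abs_im_le_norm (h - w)
  rw [Complex.sub_re] at h1
  rw [Complex.sub_im] at h2
  have h3 := abs_le.1 (le_trans h1 hwh)
  have h4 := le_trans h2 hwh
  have h5 : |w.im| - |h.im| ≤ |h.im - w.im| := by
    have := abs_sub_abs_le_abs_sub w.im h.im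
    rw [abs_sub_comm] at this
    exact this
  have h6 := Complex.norm_le_abs_re_add_abs_im w
  have h7 := abs_nonneg h.im
  have h8 := Complex.abs_im_le_norm w
  have h9 := norm_nonneg w
  by_cases hc : ‖w‖ / 2 ≤ |w.im|
  · linarith [h3.2]
  · push Not at hc
    have h10 : ‖w‖/2 ≤ |w.re| := by linarith
    have h11 : w.re < 0 := by
      by_contra hcon
      push Not at hcon
      rw [abs_of_nonneg hcon] at h10
      have : ‖w‖ = 0 := by linarith
      have := abs_nonneg w.im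
      linarith
    rw [abs_of_neg h11] at h10
    linarith [h3.2]

lemma Z_orbit_ge {s : ℂ} (hs : ‖s‖ = 1) (j : ℕ) : 3/4 ≤ ‖f^[j] (Z s)‖ := by
  have hs0 : s ≠ 0 := by
    intro h
    rw [h] at hs
    simp at hs
  rw [Z_iter hs.le hs0]
  unfold Z
  have h4 : ‖s^(2^j)‖ = 1 := by rw [norm_pow, hs, one_pow]
  rw [norm_div, h4, div_one]
  exact G_norm_ge h4.le

/-- **Window lemma** -/
lemma window {s : ℂ} (hs : ‖s‖ = 1) {n : ℕ} {k : ℂ}
    (h1 : ‖(Z s)^2 * D (Z s) n * k‖ ≤ 1/48000)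
    (h2 : ‖f^[n] (Z s) - 3/4‖ ≤ 1/8000 * ‖(Z s)^2 * D (Z s) n * k‖)
    (h3 : (-((Z s)^2 * D (Z s) n * k)).re ≤ 1/800 * |(-((Z s)^2 * D (Z s) n * k)).im|) :
    H s + k ∉ Om := by
  have hs0 : s ≠ 0 := by
    intro h
    rw [h] at hs
    simp at hs
  set z := Z s with hz
  have hH : H s = z⁻¹ := by rw [hz, ← H_inv, inv_inv]
  have hH0 : H s ≠ 0 := H_ne_zero hs.le hs0
  have hz0 : z ≠ 0 := by
    intro h
    rw [h, inv_zero] at hH
    exact hH0 hH
  have horb := fun j => Z_orbit_ge hs j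
  rw [← hz] at horb
  have hz1 : 3/4 ≤ ‖z‖ := horb 0
  set w := -(z^2 * D z n * k) with hw
  have hwn : ‖z^2 * D z n * k‖ = ‖w‖ := by rw [hw, norm_neg]
  rw [hwn] at h1 h2
  have hD1 : 1 ≤ ‖D z n‖ := by
    have h5 := D_mono horb (Nat.zero_le n)
    simpa [D_zero] using h5
  have hw0 := norm_nonneg w
  -- size of z k
  have hzk : ‖z * k‖ ≤ 4/3 * ‖w‖ := by
    have e1 : ‖w‖ = ‖z‖ * ‖D z n‖ * ‖z * k‖ := by
      rw [← hwn, norm_mul, norm_mul, norm_mul, norm_pow]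
      ring
    have h5 : 0 ≤ ‖z * k‖ := norm_nonneg _
    have h6 : 3/4 * ‖z * k‖ ≤ ‖z‖ * ‖D z n‖ * ‖z * k‖ := by
      apply mul_le_mul_of_nonneg_right _ h5
      nlinarith
    linarith
  have hzk2 : ‖z * k‖ ≤ 1/9 := by linarith
  have hne : 1 + z * k ≠ 0 := by
    intro h
    have : z * k = -1 := by linear_combination h
    rw [this] at hzk2
    norm_num at hzk2
  have hden : 8/9 ≤ ‖1 + z * k‖ := by
    have h5 : ‖(1:ℂ)‖ ≤ ‖1 + z * k‖ + ‖z * k‖ := by
      calc ‖(1:ℂ)‖ = ‖(1 + z * k) - z * k‖ := by congr 1; ring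
        _ ≤ _ := norm_sub_le _ _
    rw [norm_one] at h5
    linarith
  have hyne : H s + k ≠ 0 := by
    rw [hH]
    intro h
    apply hne
    have : z * (z⁻¹ + k) = 0 := by rw [h, mul_zero]
    rw [mul_add, mul_inv_cancel₀ hz0] at this
    exact this
  -- the displacement in the exterior coordinate
  set κ : ℂ := -(z^2 * k) / (1 + z * k) with hκ
  have hinv : (H s + k)⁻¹ = z + κ := by
    rw [hH, hκ]
    have : z⁻¹ + k = (1 + z * k) / z := by field_simp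
    rw [this, inv_div]
    field_simp
    ring
  apply not_mem_Om_of_inv_mem_K hyne
  rw [hinv]
  have hκD : κ * D z n - w = w * (-(z * k) / (1 + z * k)) := by
    rw [hκ, hw]
    field_simp
    ring
  have hq : ‖-(z * k) / (1 + z * k)‖ ≤ 3/2 * ‖w‖ := by
    rw [norm_div, norm_neg, div_le_iff₀ (by linarith)]
    nlinarith
  have hE1 : ‖κ * D z n - w‖ ≤ 3/2 * ‖w‖^2 := by
    rw [hκD, norm_mul]
    nlinarith
  have hE2 : ‖κ * D z n‖ ≤ 9/8 * ‖w‖ := by
    have : ‖κ * D z n‖ ≤ ‖κ * D z n - w‖ + ‖w‖ := by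
      calc ‖κ * D z n‖ = ‖(κ * D z n - w) + w‖ := by congr 1; ring
        _ ≤ _ := norm_add_le _ _
    nlinarith
  have hE3 : ‖κ * D z n‖ ≤ 1/12 := by linarith
  have htr := transport horb hE3 n le_rfl
  have hh : ‖(f^[n] (z + κ) - 3/4) - w‖ ≤ 1/4000 * ‖w‖ := by
    have e1 : (f^[n] (z + κ) - 3/4) - w = (f^[n] (z + κ) - f^[n] z - κ * D z n) + (κ * D z n - w) + (f^[n] z - 3/4) := by ring
    have h5 : ‖κ * D z n‖^2 ≤ (9/8 * ‖w‖)^2 := pow_le_pow_left₀ (norm_nonneg _) hE2 2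
    have h6 : ‖w‖^2 ≤ 1/48000 * ‖w‖ := by nlinarith
    rw [e1]
    calc _ ≤ ‖(f^[n] (z + κ) - f^[n] z - κ * D z n) + (κ * D z n - w)‖ + ‖f^[n] z - 3/4‖ := norm_add_le _ _
      _ ≤ ‖f^[n] (z + κ) - f^[n] z - κ * D z n‖ + ‖κ * D z n - w‖ + ‖f^[n] z - 3/4‖ := by
        gcongr
        exact norm_add_le _ _
      _ ≤ 3 * (9/8 * ‖w‖)^2 + 3/2 * ‖w‖^2 + 1/8000 * ‖w‖ := by
        gcongr
        linarith
      _ ≤ 1/4000 * ‖w‖ := by nlinarith
  have hcone := cone_pert hh h3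
  have hsmall : ‖f^[n] (z + κ) - 3/4‖ ≤ 1/10 := by
    have : ‖f^[n] (z + κ) - 3/4‖ ≤ ‖(f^[n] (z + κ) - 3/4) - w‖ + ‖w‖ := by
      calc ‖f^[n] (z + κ) - 3/4‖ = ‖((f^[n] (z + κ) - 3/4) - w) + w‖ := by congr 1; ring
        _ ≤ _ := norm_add_le _ _
    linarith
  have hfin := sector_sub_K hsmall hcone
  have e2 : (3/4 : ℂ) + (f^[n] (z + κ) - 3/4) = f^[n] (z + κ) := by ring
  rw [e2] at hfin
  -- pull back
  obtain ⟨M, hM⟩ := hfin
  have hiter : ∀ m : ℕ, ∀ y : ℂ, f^[m] y ∈ K → y ∈ K := by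
    intro m
    induction m with
    | zero => intro y hy; exact hy
    | succ m ih =>
      intro y hy
      rw [Function.iterate_succ_apply] at hy
      exact K_of_f (ih _ hy)
  exact hiter n _ ⟨M, hM⟩

end

end Helper633.Boe
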